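import Mathlib

namespace Pool.Agent.H24.Sqf

open Finset

/-- `e(x) = exp(2 π i x)` -/
noncomputable def e (x : ℝ) : ℂ := Complex.exp (((2 * Real.pi * x : ℝ) : ℂ) * Complex.I)

theorem norm_e (x : ℝ) : ‖e x‖ = 1 := by
  unfold e
  exact Complex.norm_exp_ofReal_mul_I _

theorem e_add (x y : ℝ) : e (x + y) = e x * e y := by
  unfold e
  rw [← Complex.exp_add]
  congr 1
  push_cast
  ring

theorem e_zero : e 0 = 1 := by simp [e]

theorem e_neg (x : ℝ) : e (-x) = (starRingEnd ℂ) (e x) := by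
  unfold e
  rw [← Complex.exp_conj]
  congr 1
  rw [map_mul, Complex.conj_ofReal, Complex.conj_I]
  push_cast
  ring

theorem e_sub (x y : ℝ) : e (x - y) = e x * (starRingEnd ℂ) (e y) := by
  rw [sub_eq_add_neg, e_add, e_neg]

theorem e_ne_zero (x : ℝ) : e x ≠ 0 := by
  unfold e; exact Complex.exp_ne_zero _

/-- the real function `cot(π d)` -/
noncomputable def ct (d : ℝ) : ℝ := Real.cos (Real.pi * d) / Real.sin (Real.pi * d)

theorem sin_pos_aux {d : ℝ} (h0 : 0 < d) (h1 : d ≤ 1 / 2) : 0 < Real.sin (Real.pi * d) := by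
  apply Real.sin_pos_of_pos_of_lt_pi
  · positivity
  · nlinarith [Real.pi_pos]

theorem sin_ge_aux {d : ℝ} (h0 : 0 < d) (h1 : d ≤ 1 / 2) : 2 * d ≤ Real.sin (Real.pi * d) := by
  have h := Real.mul_le_sin (x := Real.pi * d) (by positivity) (by nlinarith [Real.pi_pos])
  have : 2 / Real.pi * (Real.pi * d) = 2 * d := by
    field_simp
  linarith

/-- for `0 < d ≤ 1/2`: `1/(e(d)-1) = -1/2 - (i/2) cot(π d)` -/
theorem inv_e_sub_one {d : ℝ} (h0 : 0 < d) (h1 : d ≤ 1 / 2) :
    (e d - 1)⁻¹ = -(1 / 2 : ℂ) - ((ct d : ℝ) / 2 : ℂ) * Complex.I := by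
  have hs : 0 < Real.sin (Real.pi * d) := sin_pos_aux h0 h1
  have hsne : (Real.sin (Real.pi * d) : ℂ) ≠ 0 := by
    exact_mod_cast hs.ne'
  have he : e d = ((Real.cos (Real.pi * d) : ℂ) + (Real.sin (Real.pi * d) : ℂ) * Complex.I) ^ 2 := by
    unfold e
    have : ((2 * Real.pi * d : ℝ) : ℂ) * Complex.I
        = ((Real.pi * d : ℝ) : ℂ) * Complex.I + ((Real.pi * d : ℝ) : ℂ) * Complex.I := by
      push_cast; ring
    rw [this, Complex.exp_add, Complex.exp_mul_I, ← Complex.ofReal_cos, ← Complex.ofReal_sin]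
    ring
  have hcs : (Real.cos (Real.pi * d) : ℂ) ^ 2 + (Real.sin (Real.pi * d) : ℂ) ^ 2 = 1 := by
    exact_mod_cast Real.cos_sq_add_sin_sq (Real.pi * d)
  have hI : Complex.I ^ 2 = -1 := Complex.I_sq
  have hE : e d - 1 = 2 * (Real.sin (Real.pi * d) : ℂ) * Complex.I *
      ((Real.cos (Real.pi * d) : ℂ) + (Real.sin (Real.pi * d) : ℂ) * Complex.I) := by
    rw [he]
    linear_combination hcs - (Real.sin (Real.pi * d) : ℂ) ^ 2 * hI
  rw [hE]
  apply inv_eq_of_mul_eq_one_right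
  unfold ct
  generalize Real.cos (Real.pi * d) = c at *
  generalize Real.sin (Real.pi * d) = s at *
  push_cast
  field_simp
  linear_combination hcs - ((c : ℂ) ^ 2 + s ^ 2 + (c : ℂ) * s * Complex.I) * hI

theorem norm_inv_e_sub_one {d : ℝ} (h0 : 0 < d) (h1 : d ≤ 1 / 2) :
    ‖(e d - 1)⁻¹‖ ≤ 1 / (4 * d) := by
  have h2 : ‖e d - 1‖ = ‖2 * Real.sin ((2 * Real.pi * d) / 2)‖ := by
    have := Complex.norm_exp_I_mul_ofReal_sub_one (2 * Real.pi * d)
    unfold e
    rw [mul_comm] at this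
    exact this
  have h3 : (2 * Real.pi * d) / 2 = Real.pi * d := by ring
  rw [h3, Real.norm_eq_abs] at h2
  have h4 := sin_ge_aux h0 h1
  have h5 := sin_pos_aux h0 h1
  rw [abs_of_pos (by positivity)] at h2
  rw [norm_inv, h2, inv_eq_one_div]
  apply one_div_le_one_div_of_le
  · positivity
  · linarith

theorem ct_anti {c d : ℝ} (h0 : 0 < c) (hcd : c ≤ d) (h1 : d ≤ 1 / 2) : ct d ≤ ct c := by
  have hpi := Real.pi_pos
  unfold ct
  have hs1 := sin_pos_aux h0 (by linarith)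
  have hcos : Real.cos (Real.pi * d) ≤ Real.cos (Real.pi * c) := by
    apply Real.cos_le_cos_of_nonneg_of_le_pi
    · positivity
    · nlinarith
    · nlinarith
  have hsin : Real.sin (Real.pi * c) ≤ Real.sin (Real.pi * d) := by
    apply Real.sin_le_sin_of_le_of_le_pi_div_two
    · nlinarith
    · nlinarith
    · nlinarith
  have hcos0 : 0 ≤ Real.cos (Real.pi * c) := by
    apply Real.cos_nonneg_of_neg_pi_div_two_le_of_le
    · nlinarith
    · nlinarith
  exact div_le_div₀ hcos0 hcos hs1 hsin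

theorem ct_nonneg {d : ℝ} (h0 : 0 < d) (h1 : d ≤ 1 / 2) : 0 ≤ ct d := by
  have hpi := Real.pi_pos
  unfold ct
  apply div_nonneg
  · apply Real.cos_nonneg_of_neg_pi_div_two_le_of_le
    · nlinarith
    · nlinarith
  · exact (sin_pos_aux h0 h1).le

theorem ct_le {d : ℝ} (h0 : 0 < d) (h1 : d ≤ 1 / 2) : ct d ≤ 1 / (2 * d) := by
  unfold ct
  have h := sin_ge_aux h0 h1
  exact div_le_div₀ (by norm_num) (Real.cos_le_one _) (by positivity) h

/-- summation by parts in the form used below -/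
theorem sum_parts (c E : ℕ → ℂ) (N : ℕ) :
    ∑ n ∈ range (N + 1), c n * (E (n + 1) - E n)
      = c N * E (N + 1) - c 0 * E 0 - ∑ n ∈ range N, (c (n + 1) - c n) * E (n + 1) := by
  induction N with
  | zero => simp; ring
  | succ N ih =>
    rw [sum_range_succ, ih, sum_range_succ _ N]
    ring

/-- Kusmin–Landau for decreasing slopes in `[θ, 1/2]`. -/
theorem kusmin_landau_range (g : ℕ → ℝ) (N : ℕ) (θ : ℝ) (hθ : 0 < θ)
    (h1 : ∀ n < N, θ ≤ g (n + 1) - g n) (h2 : ∀ n < N, g (n + 1) - g n ≤ 1 / 2)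
    (hmono : ∀ n, n + 1 < N → g (n + 2) - g (n + 1) ≤ g (n + 1) - g n) :
    ‖∑ n ∈ range N, e (g n)‖ ≤ 1 / θ := by
  rcases N with _ | N
  · simp; positivity
  set d : ℕ → ℝ := fun n => g (n + 1) - g n with hd
  have hdpos : ∀ n < N + 1, 0 < d n := fun n hn => lt_of_lt_of_le hθ (h1 n hn)
  set c : ℕ → ℂ := fun n => (e (d n) - 1)⁻¹ with hc
  have hcne : ∀ n < N + 1, e (d n) - 1 ≠ 0 := by
    intro n hn h0
    have h3 : ‖(e (d n) - 1)‖ = ‖2 * Real.sin ((2 * Real.pi * d n) / 2)‖ := by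
      have := Complex.norm_exp_I_mul_ofReal_sub_one (2 * Real.pi * d n)
      unfold e
      rw [mul_comm] at this
      exact this
    rw [h0, norm_zero] at h3
    have h4 := sin_pos_aux (hdpos n hn) (h2 n hn)
    have h5 : (2 * Real.pi * d n) / 2 = Real.pi * d n := by ring
    rw [h5, Real.norm_eq_abs, abs_of_pos (by positivity)] at h3
    linarith
  have hsum : ∑ n ∈ range (N + 1), e (g n)
      = ∑ n ∈ range (N + 1), c n * (e (g (n + 1)) - e (g n)) := by
    apply sum_congr rfl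
    intro n hn
    rw [mem_range] at hn
    have h3 : e (g (n + 1)) = e (g n) * e (d n) := by
      rw [← e_add]; congr 1; simp [hd]
    rw [h3, hc]
    have := hcne n hn
    field_simp
  rw [hsum, sum_parts c (fun n => e (g n)) N]
  have hb1 : ∀ n < N + 1, ‖c n‖ ≤ 1 / (4 * θ) := by
    intro n hn
    calc ‖c n‖ ≤ 1 / (4 * d n) := norm_inv_e_sub_one (hdpos n hn) (h2 n hn)
      _ ≤ 1 / (4 * θ) := by
        apply one_div_le_one_div_of_le (by positivity)
        have := h1 n hn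
        simp only [hd]
        linarith
  have hb2 : ∀ n < N, ‖(c (n + 1) - c n) * e (g (n + 1))‖ ≤ (ct (d (n + 1)) - ct (d n)) / 2 := by
    intro n hn
    rw [norm_mul, norm_e, mul_one, hc]
    simp only
    rw [inv_e_sub_one (hdpos (n + 1) (by omega)) (h2 (n + 1) (by omega)),
      inv_e_sub_one (hdpos n (by omega)) (h2 n (by omega))]
    have h3 : (-(1 / 2 : ℂ) - ((ct (d (n + 1)) : ℝ) / 2 : ℂ) * Complex.I)
        - (-(1 / 2 : ℂ) - ((ct (d n) : ℝ) / 2 : ℂ) * Complex.I)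
        = -((((ct (d (n + 1)) - ct (d n)) / 2 : ℝ) : ℂ) * Complex.I) := by
      push_cast; ring
    rw [h3, norm_neg, norm_mul, Complex.norm_I, mul_one, Complex.norm_real, Real.norm_eq_abs,
      abs_of_nonneg]
    have := ct_anti (hdpos (n + 1) (by omega)) (hmono n (by omega)) (h2 n (by omega))
    linarith
  have hb3 : ‖∑ n ∈ range N, (c (n + 1) - c n) * e (g (n + 1))‖ ≤ 1 / (4 * θ) := by
    calc ‖∑ n ∈ range N, (c (n + 1) - c n) * e (g (n + 1))‖
        ≤ ∑ n ∈ range N, ‖(c (n + 1) - c n) * e (g (n + 1))‖ := norm_sum_le _ _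
      _ ≤ ∑ n ∈ range N, (ct (d (n + 1)) - ct (d n)) / 2 := by
          apply sum_le_sum
          intro n hn
          exact hb2 n (mem_range.1 hn)
      _ = (ct (d N) - ct (d 0)) / 2 := by
          rw [← sum_div, sum_range_sub (fun n => ct (d n))]
      _ ≤ (1 / (2 * d N)) / 2 := by
          have h3 := ct_le (hdpos N (by omega)) (h2 N (by omega))
          have h4 := ct_nonneg (hdpos 0 (by omega)) (h2 0 (by omega))
          linarith
      _ = 1 / (4 * d N) := by
          have := hdpos N (by omega)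
          field_simp; ring
      _ ≤ 1 / (4 * θ) := by
        apply one_div_le_one_div_of_le (by positivity)
        have := h1 N (by omega)
        simp only [hd]
        linarith
  calc ‖c N * e (g (N + 1)) - c 0 * e (g 0) - ∑ n ∈ range N, (c (n + 1) - c n) * e (g (n + 1))‖
      ≤ ‖c N * e (g (N + 1))‖ + ‖c 0 * e (g 0)‖
        + ‖∑ n ∈ range N, (c (n + 1) - c n) * e (g (n + 1))‖ := by
        refine (norm_sub_le _ _).trans ?_
        gcongr
        exact norm_sub_le _ _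
    _ ≤ 1 / (4 * θ) + 1 / (4 * θ) + 1 / (4 * θ) := by
        rw [norm_mul, norm_mul, norm_e, norm_e, mul_one, mul_one]
        gcongr
        · exact hb1 N (by omega)
        · exact hb1 0 (by omega)
    _ ≤ 1 / θ := by
        have : 1 / (4 * θ) = (1 / 4) * (1 / θ) := by field_simp
        rw [this]
        have : 0 < 1 / θ := by positivity
        linarith

theorem sum_Ioc_eq_range {α : Type*} [AddCommMonoid α] (f : ℕ → α) (a b : ℕ) :
    ∑ n ∈ Ioc a b, f n = ∑ i ∈ range (b - a), f (a + 1 + i) := by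
  have h1 : Ioc a b = Ico (a + 1) (b + 1) := by
    ext x; simp only [mem_Ioc, mem_Ico]; omega
  rw [h1, sum_Ico_eq_sum_range]
  have : b + 1 - (a + 1) = b - a := by omega
  rw [this]

/-- Kusmin–Landau on `Ioc a b`: decreasing slopes in `[θ, 1/2]`. -/
theorem kusmin_landau (g : ℕ → ℝ) (a b : ℕ) (θ : ℝ) (hθ : 0 < θ)
    (h1 : ∀ n, a < n → n ≤ b → θ ≤ g (n + 1) - g n)
    (h2 : ∀ n, a < n → n ≤ b → g (n + 1) - g n ≤ 1 / 2)
    (hmono : ∀ n, a < n → n ≤ b → g (n + 2) - g (n + 1) ≤ g (n + 1) - g n) :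
    ‖∑ n ∈ Ioc a b, e (g n)‖ ≤ 1 / θ := by
  rw [sum_Ioc_eq_range (fun n => e (g n))]
  apply kusmin_landau_range (fun i => g (a + 1 + i)) (b - a) θ hθ
  · intro n hn
    exact h1 (a + 1 + n) (by omega) (by omega)
  · intro n hn
    exact h2 (a + 1 + n) (by omega) (by omega)
  · intro n hn
    exact hmono (a + 1 + n) (by omega) (by omega)

end Pool.Agent.H24.Sqf
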