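import Mathlib
import Pool.Agent.H24.Sqf.KL

namespace Pool.Agent.H24.Sqf

open Finset

theorem sum_shift (F : ℕ → ℂ) (L H h : ℕ) (hh : h ≤ H) (hF : ∀ n, F n ≠ 0 → H ≤ n ∧ n < L) :
    ∑ t ∈ range L, F (t + h) = ∑ n ∈ range L, F n := by
  have h1 : ∑ t ∈ range L, F (t + h) = ∑ n ∈ Ico h (L + h), F n := by
    rw [sum_Ico_eq_sum_range]
    have : L + h - h = L := by omega
    rw [this]
    apply sum_congr rfl
    intro t _
    rw [add_comm]
  rw [h1]
  have h2 : ∑ n ∈ Ico h (L + h), F n = ∑ n ∈ range (L + h), F n := by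
    apply sum_subset
    · intro n hn
      simp only [mem_Ico, mem_range] at *
      omega
    · intro n hn hn'
      by_contra h0
      have := hF n h0
      simp only [mem_Ico, mem_range] at *
      omega
  rw [h2]
  symm
  apply sum_subset
  · intro n hn
    simp only [mem_range] at *
    omega
  · intro n hn hn'
    by_contra h0
    have := hF n h0
    simp only [mem_range] at *
    omega

/-- van der Corput's inequality -/
theorem vdc (z : ℕ → ℂ) (L H : ℕ) (hH : 0 < H) (hz : ∀ n, z n ≠ 0 → H ≤ n ∧ n < L)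
    (hz1 : ∀ n, ‖z n‖ ≤ 1) :
    (H : ℝ) * ‖∑ n ∈ range L, z n‖ ^ 2 ≤
      L * (L + 2 * ∑ d ∈ Ico 1 H, ‖∑ n ∈ range L, z (n + d) * (starRingEnd ℂ) (z n)‖) := by
  set S := ∑ n ∈ range L, z n with hS
  set C : ℕ → ℂ := fun d => ∑ n ∈ range L, z (n + d) * (starRingEnd ℂ) (z n) with hC
  have hHpos : (0 : ℝ) < H := by exact_mod_cast hH
  -- H * S = sum over t of windows
  have h1 : (H : ℂ) * S = ∑ t ∈ range L, ∑ h ∈ range H, z (t + h) := by
    rw [sum_comm]
    have : ∀ h ∈ range H, ∑ t ∈ range L, z (t + h) = S := by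
      intro h hh
      exact sum_shift z L H h (mem_range.1 hh).le hz
    rw [sum_congr rfl this, sum_const, card_range, nsmul_eq_mul]
  have h2 : ((H : ℝ) * ‖S‖) ^ 2 ≤ L * ∑ t ∈ range L, ‖∑ h ∈ range H, z (t + h)‖ ^ 2 := by
    have e1 : (H : ℝ) * ‖S‖ = ‖(H : ℂ) * S‖ := by
      rw [norm_mul, Complex.norm_natCast]
    rw [e1, h1]
    calc ‖∑ t ∈ range L, ∑ h ∈ range H, z (t + h)‖ ^ 2
        ≤ (∑ t ∈ range L, ‖∑ h ∈ range H, z (t + h)‖) ^ 2 := by
          gcongr
          exact norm_sum_le _ _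
      _ ≤ #(range L) * ∑ t ∈ range L, ‖∑ h ∈ range H, z (t + h)‖ ^ 2 :=
          sq_sum_le_card_mul_sum_sq
      _ = _ := by rw [card_range]
  set A : ℕ → ℕ → ℂ := fun h h' => ∑ t ∈ range L, z (t + h) * (starRingEnd ℂ) (z (t + h')) with hA
  have h3 : ∑ t ∈ range L, ‖∑ h ∈ range H, z (t + h)‖ ^ 2
      ≤ ∑ h ∈ range H, ∑ h' ∈ range H, ‖A h h'‖ := by
    have e1 : ((∑ t ∈ range L, ‖∑ h ∈ range H, z (t + h)‖ ^ 2 : ℝ) : ℂ)
        = ∑ h ∈ range H, ∑ h' ∈ range H, A h h' := by
      push_cast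
      have : ∀ t ∈ range L, ((‖∑ h ∈ range H, z (t + h)‖ : ℂ)) ^ 2
          = ∑ h ∈ range H, ∑ h' ∈ range H, z (t + h) * (starRingEnd ℂ) (z (t + h')) := by
        intro t _
        rw [← Complex.mul_conj', map_sum, sum_mul_sum]
      rw [sum_congr rfl this, sum_comm]
      apply sum_congr rfl
      intro h _
      rw [sum_comm]
    have e2 : (0 : ℝ) ≤ ∑ t ∈ range L, ‖∑ h ∈ range H, z (t + h)‖ ^ 2 :=
      sum_nonneg (fun _ _ => by positivity)
    calc ∑ t ∈ range L, ‖∑ h ∈ range H, z (t + h)‖ ^ 2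
        = ‖((∑ t ∈ range L, ‖∑ h ∈ range H, z (t + h)‖ ^ 2 : ℝ) : ℂ)‖ := by
          rw [Complex.norm_real, Real.norm_eq_abs, abs_of_nonneg e2]
      _ = ‖∑ h ∈ range H, ∑ h' ∈ range H, A h h'‖ := by rw [e1]
      _ ≤ ∑ h ∈ range H, ‖∑ h' ∈ range H, A h h'‖ := norm_sum_le _ _
      _ ≤ _ := sum_le_sum (fun h _ => norm_sum_le _ _)
  have hlt : ∀ h h', h' < h → h < H → ‖A h h'‖ = ‖C (h - h')‖ := by
    intro h h' hlt hh
    congr 1
    have e1 : A h h' = ∑ t ∈ range L,
        (fun n => z (n + (h - h')) * (starRingEnd ℂ) (z n)) (t + h') := by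
      rw [hA]
      apply sum_congr rfl
      intro t _
      have : t + h' + (h - h') = t + h := by omega
      simp only [this]
    rw [e1]
    refine sum_shift (fun n => z (n + (h - h')) * (starRingEnd ℂ) (z n)) L H h' (by omega) ?_
    intro n hn
    apply hz
    intro h0
    apply hn
    simp [h0]
  have hsymm : ∀ h h', ‖A h h'‖ = ‖A h' h‖ := by
    intro h h'
    have : A h' h = (starRingEnd ℂ) (A h h') := by
      rw [hA]
      simp only [map_sum, map_mul, Complex.conj_conj]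
      apply sum_congr rfl
      intro t _
      ring
    rw [this, Complex.norm_conj]
  have hdiag : ∀ h, ‖A h h‖ ≤ L := by
    intro h
    calc ‖A h h‖ ≤ ∑ t ∈ range L, ‖z (t + h) * (starRingEnd ℂ) (z (t + h))‖ := norm_sum_le _ _
      _ ≤ ∑ t ∈ range L, (1 : ℝ) := by
          apply sum_le_sum
          intro t _
          rw [norm_mul, Complex.norm_conj]
          have := hz1 (t + h)
          have h0 := norm_nonneg (z (t + h))
          nlinarith
      _ = L := by simp
  have hrow : ∀ h ∈ range H, ∑ h' ∈ range H, ‖A h h'‖ ≤ L + 2 * ∑ d ∈ Ico 1 H, ‖C d‖ := by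
    intro h hh
    rw [mem_range] at hh
    have hsplit : range H = (range h ∪ {h}) ∪ Ico (h + 1) H := by
      ext x; simp only [mem_range, mem_union, mem_singleton, mem_Ico]; omega
    rw [hsplit, sum_union, sum_union, sum_singleton]
    · have hlow : ∑ h' ∈ range h, ‖A h h'‖ ≤ ∑ d ∈ Ico 1 H, ‖C d‖ := by
        have e1 : ∑ h' ∈ range h, ‖A h h'‖ = ∑ h' ∈ range h, ‖C (h - h')‖ := by
          apply sum_congr rfl
          intro h' hh'
          exact hlt h h' (mem_range.1 hh') hh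
        rw [e1]
        rw [← sum_image (s := range h) (g := fun h' => h - h') (f := fun d => ‖C d‖)]
        · apply sum_le_sum_of_subset_of_nonneg
          · intro d hd
            simp only [mem_image, mem_range, mem_Ico] at *
            obtain ⟨a, ha, rfl⟩ := hd
            omega
          · intro i _ _
            exact norm_nonneg _
        · intro x hx y hy hxy
          simp only [coe_range, Set.mem_Iio] at *
          omega
      have hhigh : ∑ h' ∈ Ico (h + 1) H, ‖A h h'‖ ≤ ∑ d ∈ Ico 1 H, ‖C d‖ := by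
        have e1 : ∑ h' ∈ Ico (h + 1) H, ‖A h h'‖ = ∑ h' ∈ Ico (h + 1) H, ‖C (h' - h)‖ := by
          apply sum_congr rfl
          intro h' hh'
          rw [mem_Ico] at hh'
          rw [hsymm, hlt h' h (by omega) (by omega)]
        rw [e1]
        rw [← sum_image (s := Ico (h + 1) H) (g := fun h' => h' - h) (f := fun d => ‖C d‖)]
        · apply sum_le_sum_of_subset_of_nonneg
          · intro d hd
            simp only [mem_image, mem_Ico] at *
            obtain ⟨a, ha, rfl⟩ := hd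
            omega
          · intro i _ _
            exact norm_nonneg _
        · intro x hx y hy hxy
          simp only [coe_Ico, Set.mem_Ico] at *
          omega
      have := hdiag h
      linarith
    · rw [disjoint_singleton_right, mem_range]; omega
    · rw [Finset.disjoint_left]
      intro x hx
      simp only [mem_range, mem_union, mem_singleton, mem_Ico] at *
      omega
  have h4 : ∑ h ∈ range H, ∑ h' ∈ range H, ‖A h h'‖
      ≤ H * (L + 2 * ∑ d ∈ Ico 1 H, ‖C d‖) := by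
    calc _ ≤ ∑ h ∈ range H, (L + 2 * ∑ d ∈ Ico 1 H, ‖C d‖) := sum_le_sum hrow
      _ = _ := by rw [sum_const, card_range, nsmul_eq_mul]
  have h5 : ((H : ℝ) * ‖S‖) ^ 2 ≤ L * (H * (L + 2 * ∑ d ∈ Ico 1 H, ‖C d‖)) := by
    refine h2.trans ?_
    gcongr
    exact h3.trans h4
  have h6 : (H : ℝ) * (H * ‖S‖ ^ 2) ≤ H * (L * (L + 2 * ∑ d ∈ Ico 1 H, ‖C d‖)) := by
    calc (H : ℝ) * (H * ‖S‖ ^ 2) = ((H : ℝ) * ‖S‖) ^ 2 := by ring
      _ ≤ _ := h5
      _ = _ := by ring
  exact le_of_mul_le_mul_left h6 hHpos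

/-- van der Corput for exponential sums over intervals `Ioc a b`. -/
theorem vdc_Ioc (g : ℕ → ℝ) (a b H : ℕ) (hH : 0 < H) (hHa : H ≤ a + 1) :
    (H : ℝ) * ‖∑ n ∈ Ioc a b, e (g n)‖ ^ 2 ≤
      (b + 1) * ((b + 1) + 2 * ∑ d ∈ Ico 1 H, ‖∑ n ∈ Ioc a (b - d), e (g (n + d) - g n)‖) := by
  classical
  set z : ℕ → ℂ := fun n => if n ∈ Ioc a b then e (g n) else 0 with hz
  have h1 := vdc z (b + 1) H hH (by
    intro n hn
    simp only [hz, ne_eq, ite_eq_right_iff, Classical.not_imp, mem_Ioc] at hn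
    omega) (by
    intro n
    simp only [hz]
    split_ifs
    · rw [norm_e]
    · simp)
  have e1 : ∑ n ∈ range (b + 1), z n = ∑ n ∈ Ioc a b, e (g n) := by
    rw [hz, ← sum_filter]
    apply sum_congr
    · ext n; simp only [mem_filter, mem_range, mem_Ioc]; omega
    · intro n _; rfl
  have e2 : ∀ d ∈ Ico 1 H, ‖∑ n ∈ range (b + 1), z (n + d) * (starRingEnd ℂ) (z n)‖
      = ‖∑ n ∈ Ioc a (b - d), e (g (n + d) - g n)‖ := by
    intro d hd
    rw [mem_Ico] at hd
    congr 1
    have : ∀ n ∈ range (b + 1), z (n + d) * (starRingEnd ℂ) (z n)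
        = if n ∈ Ioc a (b - d) then e (g (n + d) - g n) else 0 := by
      intro n _
      simp only [hz]
      by_cases hn : n ∈ Ioc a (b - d)
      · have hn1 : n ∈ Ioc a b := by
          rw [mem_Ioc] at *; omega
        have hn2 : n + d ∈ Ioc a b := by
          rw [mem_Ioc] at *; omega
        rw [if_pos hn, if_pos hn1, if_pos hn2, e_sub]
      · rw [if_neg hn]
        by_cases hn1 : n ∈ Ioc a b
        · have hn2 : n + d ∉ Ioc a b := by
            rw [mem_Ioc] at *; omega
          rw [if_neg hn2, zero_mul]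
        · rw [if_neg hn1, map_zero, mul_zero]
    rw [sum_congr rfl this, ← sum_filter]
    apply sum_congr
    · ext n; simp only [mem_filter, mem_range, mem_Ioc]; omega
    · intro n _; rfl
  rw [e1, sum_congr rfl e2] at h1
  push_cast at h1
  exact h1

theorem norm_sum_e_neg (g : ℕ → ℝ) (s : Finset ℕ) :
    ‖∑ n ∈ s, e (-(g n))‖ = ‖∑ n ∈ s, e (g n)‖ := by
  have : ∑ n ∈ s, e (-(g n)) = (starRingEnd ℂ) (∑ n ∈ s, e (g n)) := by
    rw [map_sum]
    apply sum_congr rfl
    intro n _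
    rw [e_neg]
  rw [this, Complex.norm_conj]

end Pool.Agent.H24.Sqf
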