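import Mathlib
import Pool.Agent.H24.Sqf.VdC

namespace Pool.Agent.H24.Sqf

open Finset

/-- iterated forward differences with steps `hs` -/
noncomputable def D : List ℕ → (ℝ → ℝ) → ℝ → ℝ
  | [], φ, x => φ x
  | h :: hs, φ, x => D hs φ (x + h) - D hs φ x

/-- `x ↦ x^{-s}` -/
noncomputable def phi (s : ℕ) (x : ℝ) : ℝ := (x ^ s)⁻¹

theorem hasDerivAt_phi (s : ℕ) {x : ℝ} (hx : 0 < x) :
    HasDerivAt (phi s) (-(s : ℝ) * phi (s + 1) x) x := by
  have h := (hasDerivAt_pow s x).fun_inv (by positivity)
  have e : -((s : ℝ) * x ^ (s - 1)) / (x ^ s) ^ 2 = -(s : ℝ) * phi (s + 1) x := by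
    unfold phi
    rcases s with _ | s
    · simp
    · rw [Nat.add_sub_cancel]
      field_simp
      ring
  rw [e] at h
  exact h

theorem hasDerivAt_D (hs : List ℕ) : ∀ (s : ℕ) {x : ℝ} (_ : 0 < x),
    HasDerivAt (D hs (phi s)) (-(s : ℝ) * D hs (phi (s + 1)) x) x := by
  induction hs with
  | nil => intro s x hx; exact hasDerivAt_phi s hx
  | cons h hs ih =>
    intro s x hx
    have h1 : HasDerivAt (fun y => D hs (phi s) (y + h))
        (-(s : ℝ) * D hs (phi (s + 1)) (x + h)) x :=
      HasDerivAt.comp_add_const x (h : ℝ) (ih s (by positivity))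
    have h2 := h1.fun_sub (ih s hx)
    have e : -(s : ℝ) * D hs (phi (s + 1)) (x + h) - -(s : ℝ) * D hs (phi (s + 1)) x
        = -(s : ℝ) * D (h :: hs) (phi (s + 1)) x := by
      simp only [D]
      ring
    rw [e] at h2
    exact h2

/-- product of the steps -/
def lprod (hs : List ℕ) : ℕ := hs.prod

/-- Two-sided bound for iterated differences of `x^{-s}`. -/
theorem D_bounds (hs : List ℕ) : ∀ (s : ℕ) {x : ℝ} (_ : 0 < x),
    (hs.prod : ℝ) * (s.ascFactorial hs.length) / (x + hs.sum) ^ (s + hs.length)
        ≤ (-1) ^ hs.length * D hs (phi s) x ∧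
      (-1) ^ hs.length * D hs (phi s) x
        ≤ (hs.prod : ℝ) * (s.ascFactorial hs.length) / x ^ (s + hs.length) := by
  induction hs with
  | nil => intro s x hx; simp [D, phi]
  | cons h hs ih =>
    intro s x hx
    rcases Nat.eq_zero_or_pos h with h0 | hpos
    · subst h0
      simp [D]
    · have hposR : (0 : ℝ) < h := by exact_mod_cast hpos
      -- mean value theorem
      obtain ⟨ξ, hξ, hmvt⟩ := exists_hasDerivAt_eq_slope (D hs (phi s))
        (fun y => -(s : ℝ) * D hs (phi (s + 1)) y) (show x < x + h by linarith)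
        (by
          intro y hy
          exact (hasDerivAt_D hs s (lt_of_lt_of_le hx hy.1)).continuousAt.continuousWithinAt)
        (by
          intro y hy
          exact hasDerivAt_D hs s (lt_trans hx hy.1))
      have hξpos : 0 < ξ := lt_trans hx hξ.1
      have e1 : D (h :: hs) (phi s) x = -(s : ℝ) * D hs (phi (s + 1)) ξ * h := by
        simp only [D]
        rw [hmvt]
        have : x + (h : ℝ) - x = h := by ring
        rw [this]
        field_simp
      obtain ⟨l1, l2⟩ := ih (s + 1) hξpos
      have e2 : (-1 : ℝ) ^ (h :: hs).length * D (h :: hs) (phi s) x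
          = (s : ℝ) * h * ((-1) ^ hs.length * D hs (phi (s + 1)) ξ) := by
        rw [e1, List.length_cons, pow_succ]
        ring
      have e3 : (s : ℝ) * ((s + 1).ascFactorial hs.length : ℝ)
          = (s.ascFactorial (hs.length + 1) : ℝ) := by
        have := Nat.succ_ascFactorial s hs.length
        rw [Nat.ascFactorial_succ, ← this]
        push_cast
        ring
      have hprod : (0 : ℝ) ≤ (hs.prod : ℝ) := by positivity
      rw [e2, List.prod_cons, List.sum_cons, List.length_cons, Nat.cast_mul, Nat.cast_add]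
      have hexp : s + (hs.length + 1) = s + 1 + hs.length := by ring
      constructor
      · have hle : (ξ + (hs.sum : ℝ)) ^ (s + 1 + hs.length)
            ≤ (x + ((h : ℝ) + hs.sum)) ^ (s + 1 + hs.length) := by
          apply pow_le_pow_left₀ (by positivity)
          have := hξ.2
          linarith
        calc (h : ℝ) * (hs.prod : ℝ) * (s.ascFactorial (hs.length + 1) : ℝ)
              / (x + ((h : ℝ) + hs.sum)) ^ (s + (hs.length + 1))
            ≤ (h : ℝ) * (hs.prod : ℝ) * (s.ascFactorial (hs.length + 1) : ℝ)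
              / (ξ + (hs.sum : ℝ)) ^ (s + 1 + hs.length) := by
              rw [hexp]
              apply div_le_div_of_nonneg_left (by positivity) (by positivity) hle
          _ = (s : ℝ) * h * ((hs.prod : ℝ) * ((s + 1).ascFactorial hs.length)
              / (ξ + hs.sum) ^ (s + 1 + hs.length)) := by
              rw [← e3]; ring
          _ ≤ _ := by gcongr
      · have hle : x ^ (s + 1 + hs.length) ≤ ξ ^ (s + 1 + hs.length) := by
          apply pow_le_pow_left₀ hx.le hξ.1.le
        calc (s : ℝ) * h * ((-1) ^ hs.length * D hs (phi (s + 1)) ξ)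
            ≤ (s : ℝ) * h * ((hs.prod : ℝ) * ((s + 1).ascFactorial hs.length)
              / ξ ^ (s + 1 + hs.length)) := by gcongr
          _ = (h : ℝ) * (hs.prod : ℝ) * (s.ascFactorial (hs.length + 1) : ℝ)
              / ξ ^ (s + 1 + hs.length) := by
              rw [← e3]; ring
          _ ≤ _ := by
              rw [hexp]
              apply div_le_div_of_nonneg_left (by positivity) (by positivity) hle

theorem D_sign_pos (hs : List ℕ) (s : ℕ) {x : ℝ} (hx : 0 < x) :
    0 ≤ (-1) ^ hs.length * D hs (phi s) x :=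
  le_trans (by positivity) (D_bounds hs s hx).1

end Pool.Agent.H24.Sqf
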