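import Mathlib
import Pool.Agent.H24.Sqf.Diff

namespace Pool.Agent.H24.Sqf

open Finset

theorem asc_pos (j k : ℕ) (hj : 1 ≤ j) : 0 < j.ascFactorial k := by
  obtain ⟨j', rfl⟩ : ∃ j', j = j' + 1 := ⟨j - 1, by omega⟩
  exact Nat.ascFactorial_pos _ _

/-- Kusmin–Landau applied to iterated differences of `G x^{-j}`. -/
theorem kl_D (j M : ℕ) (G : ℝ) (hG : G ≠ 0) (hj : 1 ≤ j) (hM : 1 ≤ M) (ls : List ℕ)
    (hls : ∀ h ∈ ls, 1 ≤ h) (a b : ℕ) (ha : M ≤ a) (hb : b ≤ 4 * M)
    (hup : |G| * ls.prod * (j.ascFactorial (ls.length + 1)) / (M : ℝ) ^ (j + (ls.length + 1))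
      ≤ 1 / 2) :
    ‖∑ n ∈ Ioc a b, e (G * D ls (phi j) n)‖ ≤
      (4 * (M : ℝ) + 1 + ls.sum) ^ (j + (ls.length + 1))
        / (|G| * ls.prod * (j.ascFactorial (ls.length + 1))) := by
  have hGpos : 0 < |G| := abs_pos.2 hG
  have hprod : (0 : ℝ) < (ls.prod : ℝ) := by
    have : 0 < ls.prod := List.prod_pos (fun h hh => hls h hh)
    exact_mod_cast this
  have hasc : (0 : ℝ) < (j.ascFactorial (ls.length + 1) : ℝ) := by
    exact_mod_cast asc_pos j _ hj
  have hMpos : (0 : ℝ) < M := by exact_mod_cast hM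
  set g : ℕ → ℝ := fun n => |G| * ((-1) ^ (ls.length + 1) * D ls (phi j) n) with hg
  have hS : ‖∑ n ∈ Ioc a b, e (G * D ls (phi j) n)‖ = ‖∑ n ∈ Ioc a b, e (g n)‖ := by
    have hcase : (∀ n : ℕ, G * D ls (phi j) n = g n) ∨ (∀ n : ℕ, G * D ls (phi j) n = -(g n)) := by
      rcases abs_choice G with h | h <;>
        rcases Nat.even_or_odd (ls.length + 1) with h' | h'
      · left; intro n; simp only [hg]; rw [h, h'.neg_one_pow]; ring
      · right; intro n; simp only [hg]; rw [h, h'.neg_one_pow]; ring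
      · right; intro n; simp only [hg]; rw [h, h'.neg_one_pow]; ring
      · left; intro n; simp only [hg]; rw [h, h'.neg_one_pow]; ring
    rcases hcase with h | h
    · congr 1
      apply sum_congr rfl
      intro n _
      rw [h]
    · rw [← norm_sum_e_neg g]
      congr 1
      apply sum_congr rfl
      intro n _
      rw [h]
  rw [hS]
  set θ : ℝ := |G| * ls.prod * (j.ascFactorial (ls.length + 1))
    / (4 * (M : ℝ) + 1 + ls.sum) ^ (j + (ls.length + 1)) with hθ
  have hθpos : 0 < θ := by rw [hθ]; positivity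
  have hres := kusmin_landau g a b θ hθpos ?_ ?_ ?_
  · calc _ ≤ 1 / θ := hres
      _ = _ := by rw [hθ, one_div_div]
  · intro n hn hnb
    have hnpos : (0 : ℝ) < n := by
      have : 0 < n := by omega
      exact_mod_cast this
    have e1 : g (n + 1) - g n = |G| * ((-1) ^ (1 :: ls).length * D (1 :: ls) (phi j) n) := by
      simp only [hg, D, List.length_cons]
      push_cast
      ring
    rw [e1]
    have h1 := (D_bounds (1 :: ls) j hnpos).1
    rw [List.prod_cons, List.sum_cons, List.length_cons, one_mul, Nat.cast_add, Nat.cast_one] at h1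
    rw [List.length_cons]
    calc θ = |G| * ((ls.prod : ℝ) * (j.ascFactorial (ls.length + 1))
            / (4 * (M : ℝ) + 1 + ls.sum) ^ (j + (ls.length + 1))) := by rw [hθ]; ring
      _ ≤ |G| * ((ls.prod : ℝ) * (j.ascFactorial (ls.length + 1))
            / ((n : ℝ) + (1 + ls.sum)) ^ (j + (ls.length + 1))) := by
          apply mul_le_mul_of_nonneg_left _ (abs_nonneg _)
          apply div_le_div_of_nonneg_left (by positivity) (by positivity)
          apply pow_le_pow_left₀ (by positivity)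
          have : (n : ℝ) ≤ 4 * M := by
            have : n ≤ 4 * M := by omega
            exact_mod_cast this
          linarith
      _ ≤ _ := by gcongr
  · intro n hn hnb
    have hnpos : (0 : ℝ) < n := by
      have : 0 < n := by omega
      exact_mod_cast this
    have e1 : g (n + 1) - g n = |G| * ((-1) ^ (1 :: ls).length * D (1 :: ls) (phi j) n) := by
      simp only [hg, D, List.length_cons]
      push_cast
      ring
    rw [e1]
    have h1 := (D_bounds (1 :: ls) j hnpos).2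
    rw [List.prod_cons, List.length_cons, one_mul] at h1
    rw [List.length_cons]
    calc _ ≤ |G| * ((ls.prod : ℝ) * (j.ascFactorial (ls.length + 1))
            / (n : ℝ) ^ (j + (ls.length + 1))) := by gcongr
      _ ≤ |G| * ((ls.prod : ℝ) * (j.ascFactorial (ls.length + 1))
            / (M : ℝ) ^ (j + (ls.length + 1))) := by
          gcongr
          omega
      _ = |G| * ls.prod * (j.ascFactorial (ls.length + 1)) / (M : ℝ) ^ (j + (ls.length + 1)) := by
          ring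
      _ ≤ 1 / 2 := hup
  · intro n hn hnb
    have hnpos : (0 : ℝ) < n := by
      have : 0 < n := by omega
      exact_mod_cast this
    have e1 : g (n + 2) - g (n + 1) - (g (n + 1) - g n)
        = -(|G| * ((-1) ^ (1 :: 1 :: ls).length * D (1 :: 1 :: ls) (phi j) n)) := by
      simp only [hg, D, List.length_cons]
      push_cast
      have e2 : (n : ℝ) + 1 + 1 = (n : ℝ) + 2 := by ring
      rw [e2]
      ring
    have h1 := D_sign_pos (1 :: 1 :: ls) j hnpos
    have h2 : 0 ≤ |G| * ((-1) ^ (1 :: 1 :: ls).length * D (1 :: 1 :: ls) (phi j) n) := by positivity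
    linarith

/-- one Weyl–van der Corput step for iterated differences -/
theorem vdc_D (j M : ℕ) (G : ℝ) (hs : List ℕ) (a b H : ℕ) (hH : 0 < H) (hHa : H ≤ a + 1)
    (hM : 1 ≤ M) (hb : b ≤ 4 * M) :
    (H : ℝ) * ‖∑ n ∈ Ioc a b, e (G * D hs (phi j) n)‖ ^ 2 ≤
      (5 * M) * (5 * M + 2 * ∑ d ∈ Ico 1 H, ‖∑ n ∈ Ioc a (b - d), e (G * D (d :: hs) (phi j) n)‖) := by
  have h := vdc_Ioc (fun n => G * D hs (phi j) n) a b H hH hHa
  have e1 : ∀ d ∈ Ico 1 H, ‖∑ n ∈ Ioc a (b - d),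
      e ((fun n : ℕ => G * D hs (phi j) n) (n + d) - (fun n : ℕ => G * D hs (phi j) n) n)‖
      = ‖∑ n ∈ Ioc a (b - d), e (G * D (d :: hs) (phi j) n)‖ := by
    intro d _
    congr 1
    apply sum_congr rfl
    intro n _
    congr 1
    simp only [D]
    push_cast
    ring
  rw [sum_congr rfl e1] at h
  have hbM : (b : ℝ) + 1 ≤ 5 * M := by
    have : b + 1 ≤ 5 * M := by omega
    exact_mod_cast this
  refine h.trans ?_
  gcongr

theorem list_sum_le (hs : List ℕ) (B : ℝ) (h : ∀ x ∈ hs, (x : ℝ) ≤ B) :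
    (hs.sum : ℝ) ≤ hs.length * B := by
  induction hs with
  | nil => simp
  | cons x xs ih =>
    rw [List.sum_cons, List.length_cons, Nat.cast_add, Nat.cast_add, Nat.cast_one]
    have h1 := h x List.mem_cons_self
    have h2 := ih (fun y hy => h y (List.mem_cons_of_mem _ hy))
    linarith

theorem list_prod_le (hs : List ℕ) (B : ℝ) (hB : 0 ≤ B) (h : ∀ x ∈ hs, (x : ℝ) ≤ B) :
    (hs.prod : ℝ) ≤ B ^ hs.length := by
  induction hs with
  | nil => simp
  | cons x xs ih =>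
    rw [List.prod_cons, List.length_cons, Nat.cast_mul, pow_succ']
    have h1 := h x List.mem_cons_self
    have h2 := ih (fun y hy => h y (List.mem_cons_of_mem _ hy))
    gcongr

theorem sum_inv_le (H M : ℕ) (hH : H ≤ M + 1) :
    ∑ d ∈ Ico 1 H, (1 : ℝ) / d ≤ 1 + Real.log M := by
  have h1 : ∑ d ∈ Ico 1 H, (1 : ℝ) / d ≤ ∑ d ∈ Icc 1 M, (1 : ℝ) / d := by
    apply sum_le_sum_of_subset_of_nonneg
    · intro d hd
      simp only [mem_Ico, mem_Icc] at *
      omega
    · intro i _ _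
      positivity
  have h2 := harmonic_le_one_add_log M
  rw [harmonic_eq_sum_Icc] at h2
  push_cast at h2
  refine h1.trans ?_
  refine le_trans (le_of_eq ?_) h2
  apply sum_congr rfl
  intro d _
  rw [one_div]

/-- second-derivative-test level -/
theorem base_level (j r : ℕ) (hj : 1 ≤ j) (hr : 2 ≤ r) : ∃ C : ℝ, 0 < C ∧
    ∀ (M : ℕ) (G : ℝ), 1 ≤ M → (M : ℝ) ^ ((r : ℝ) - 5 / 4) ≤ |G| / (M : ℝ) ^ j →
    |G| / (M : ℝ) ^ j ≤ (M : ℝ) ^ ((r : ℝ) - 1 / 4) →
    ∀ hs : List ℕ, hs.length = r - 2 →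
    (∀ h ∈ hs, 1 ≤ h ∧ (h : ℝ) ≤ (M : ℝ) ^ (1 / (8 * (r : ℝ)))) →
    ∀ a b : ℕ, M ≤ a → b ≤ 4 * M →
    ‖∑ n ∈ Ioc a b, e (G * D hs (phi j) n)‖ ≤ C * (M : ℝ) ^ (15 / 16 : ℝ) := by
  set A : ℝ := (j.ascFactorial r : ℝ) with hA
  set κ : ℝ := ((4 : ℝ) + r) ^ (j + r) with hκ
  have hA1 : 1 ≤ A := by
    have := asc_pos j r hj
    rw [hA]; exact_mod_cast this
  have hκ1 : 0 < κ := by rw [hκ]; positivity
  refine ⟨8 * A + (25 + 90 * κ + 100 * A + 360 * κ), by positivity, ?_⟩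
  intro M G hM hX1 hX2 hs hlen hhs a b ha hb
  set N : ℝ := (M : ℝ) with hN
  have hN1 : 1 ≤ N := by rw [hN]; exact_mod_cast hM
  have hNpos : 0 < N := by linarith
  have hrR : (2 : ℝ) ≤ r := by exact_mod_cast hr
  have hGne : G ≠ 0 := by
    rintro rfl
    rw [abs_zero, zero_div] at hX1
    have : 0 < N ^ ((r : ℝ) - 5 / 4) := Real.rpow_pos_of_pos hNpos _
    linarith
  have hGpos : 0 < |G| := abs_pos.2 hGne
  have hPi1 : (1 : ℝ) ≤ hs.prod := by
    have : 0 < hs.prod := List.prod_pos (fun h hh => (hhs h hh).1)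
    exact_mod_cast this
  have hη1 : N ^ (1 / (8 * (r : ℝ))) ≤ N := by
    calc N ^ (1 / (8 * (r : ℝ))) ≤ N ^ (1 : ℝ) := by
          apply Real.rpow_le_rpow_of_exponent_le hN1
          rw [div_le_one (by positivity)]
          linarith
      _ = N := Real.rpow_one N
  have hPi2 : (hs.prod : ℝ) ≤ N ^ (1 / 8 : ℝ) := by
    calc (hs.prod : ℝ) ≤ (N ^ (1 / (8 * (r : ℝ)))) ^ hs.length :=
          list_prod_le hs _ (by positivity) (fun x hx => (hhs x hx).2)
      _ = N ^ ((1 / (8 * (r : ℝ))) * hs.length) := by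
          rw [Real.rpow_mul hNpos.le, Real.rpow_natCast]
      _ ≤ N ^ (1 / 8 : ℝ) := by
          apply Real.rpow_le_rpow_of_exponent_le hN1
          have : (hs.length : ℝ) ≤ r := by
            rw [hlen]
            exact_mod_cast Nat.sub_le r 2
          calc (1 / (8 * (r : ℝ))) * hs.length ≤ (1 / (8 * (r : ℝ))) * r := by gcongr
            _ = 1 / 8 := by field_simp
  have hsum : (hs.sum : ℝ) ≤ ((r : ℝ) - 2) * N := by
    have := list_sum_le hs N (fun x hx => ((hhs x hx).2).trans hη1)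
    rw [hlen, Nat.cast_sub hr] at this
    exact_mod_cast this
  set lam : ℝ := |G| * hs.prod * A / N ^ (j + r) with hlam
  have hlampos : 0 < lam := by rw [hlam]; positivity
  have hlameq : lam = (|G| / N ^ j) * (hs.prod * A / N ^ r) := by
    rw [hlam, pow_add]; field_simp
  have hlam1 : N ^ (-(5 / 4 : ℝ)) ≤ lam := by
    have e1 : N ^ (-(5 / 4 : ℝ)) = N ^ ((r : ℝ) - 5 / 4) * (1 / N ^ r) := by
      rw [show ((r : ℝ) - 5 / 4) = (r : ℝ) + (-(5 / 4)) by ring, Real.rpow_add hNpos,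
        Real.rpow_natCast]
      field_simp
    rw [e1, hlameq]
    gcongr
    nlinarith
  have hlam2 : lam ≤ A * N ^ (-(1 / 8 : ℝ)) := by
    have e1 : A * N ^ (-(1 / 8 : ℝ)) = N ^ ((r : ℝ) - 1 / 4) * (N ^ (1 / 8 : ℝ) * A / N ^ r) := by
      have e2 : N ^ ((r : ℝ) - 1 / 4) * N ^ (1 / 8 : ℝ) = N ^ r * N ^ (-(1 / 8 : ℝ)) := by
        rw [← Real.rpow_add hNpos, ← Real.rpow_natCast N r, ← Real.rpow_add hNpos]
        congr 1; ring
      calc A * N ^ (-(1 / 8 : ℝ)) = (N ^ r * N ^ (-(1 / 8 : ℝ))) * A / N ^ r := by field_simp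
        _ = (N ^ ((r : ℝ) - 1 / 4) * N ^ (1 / 8 : ℝ)) * A / N ^ r := by rw [e2]
        _ = _ := by ring
    rw [e1, hlameq]
    gcongr
  have htriv : ‖∑ n ∈ Ioc a b, e (G * D hs (phi j) n)‖ ≤ 4 * N := by
    calc _ ≤ ∑ n ∈ Ioc a b, ‖e (G * D hs (phi j) n)‖ := norm_sum_le _ _
      _ = (#(Ioc a b) : ℝ) := by simp [norm_e]
      _ ≤ 4 * N := by
          rw [Nat.card_Ioc]
          have : b - a ≤ 4 * M := by omega
          rw [hN]
          exact_mod_cast this
  by_cases hcase : 1 < 2 * (A * N ^ (-(1 / 8 : ℝ)))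
  · -- small M: trivial bound
    have h1 : N ^ (1 / 16 : ℝ) ≤ 2 * A := by
      have h2 : N ^ (1 / 8 : ℝ) ≤ 2 * A := by
        have e1 : N ^ (-(1 / 8 : ℝ)) * N ^ (1 / 8 : ℝ) = 1 := by
          rw [← Real.rpow_add hNpos]; norm_num
        have : 0 < N ^ (1 / 8 : ℝ) := Real.rpow_pos_of_pos hNpos _
        nlinarith
      calc N ^ (1 / 16 : ℝ) ≤ N ^ (1 / 8 : ℝ) :=
            Real.rpow_le_rpow_of_exponent_le hN1 (by norm_num)
        _ ≤ 2 * A := h2
    have e1 : N = N ^ (1 / 16 : ℝ) * N ^ (15 / 16 : ℝ) := by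
      rw [← Real.rpow_add hNpos]; norm_num
    have h3 : 0 < N ^ (15 / 16 : ℝ) := Real.rpow_pos_of_pos hNpos _
    calc _ ≤ 4 * N := htriv
      _ = 4 * (N ^ (1 / 16 : ℝ) * N ^ (15 / 16 : ℝ)) := by rw [← e1]
      _ ≤ 4 * ((2 * A) * N ^ (15 / 16 : ℝ)) := by gcongr
      _ = (8 * A) * N ^ (15 / 16 : ℝ) := by ring
      _ ≤ _ := by
        gcongr
        have : 0 ≤ 25 + 90 * κ + 100 * A + 360 * κ := by positivity
        linarith
  · push Not at hcase
    have hlamhalf : lam ≤ 1 / 2 := by linarith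
    set H : ℕ := min M ⌊1 / (2 * lam)⌋₊ with hH
    have hfl : 1 ≤ ⌊1 / (2 * lam)⌋₊ := by
      apply Nat.le_floor
      rw [Nat.cast_one, le_div_iff₀ (by positivity)]
      linarith
    have hH1 : 1 ≤ H := le_min hM hfl
    have hHM : H ≤ M := min_le_left _ _
    have hHlam : (H : ℝ) * lam ≤ 1 / 2 := by
      have h1 : (H : ℝ) ≤ 1 / (2 * lam) := by
        calc (H : ℝ) ≤ (⌊1 / (2 * lam)⌋₊ : ℝ) := by exact_mod_cast min_le_right _ _
          _ ≤ 1 / (2 * lam) := Nat.floor_le (by positivity)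
      rw [le_div_iff₀ (by positivity)] at h1
      linarith
    have hHinv : 1 ≤ (H : ℝ) * (1 / N + 4 * lam) := by
      rcases min_choice M ⌊1 / (2 * lam)⌋₊ with h | h
      · rw [hH, h, ← hN]
        have : N * (1 / N + 4 * lam) = 1 + 4 * N * lam := by field_simp
        rw [this]
        have : 0 ≤ 4 * N * lam := by positivity
        linarith
      · have h2 : 1 / (2 * lam) < ⌊1 / (2 * lam)⌋₊ + 1 := Nat.lt_floor_add_one _
        have h3 : (1 : ℝ) ≤ ⌊1 / (2 * lam)⌋₊ := by exact_mod_cast hfl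
        rw [← h, ← hH] at h2 h3
        have h4 : 1 / (2 * lam) ≤ 2 * (H : ℝ) := by linarith
        rw [div_le_iff₀ (by positivity)] at h4
        have h5 : 0 ≤ (H : ℝ) * (1 / N) := by positivity
        nlinarith
    have hstep := vdc_D j M G hs a b H hH1 (by omega) hM hb
    have hinner : ∀ d ∈ Ico 1 H, ‖∑ n ∈ Ioc a (b - d), e (G * D (d :: hs) (phi j) n)‖
        ≤ (κ / lam) * (1 / d) := by
      intro d hd
      rw [mem_Ico] at hd
      have hdpos : (0 : ℝ) < d := by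
        have : 0 < d := by omega
        exact_mod_cast this
      have hlen' : (d :: hs).length + 1 = r := by
        rw [List.length_cons, hlen]; omega
      have hkl := kl_D j M G hGne hj hM (d :: hs) (by
        intro h hh
        rcases List.mem_cons.1 hh with h1 | h1
        · rw [h1]; exact hd.1
        · exact (hhs h h1).1) a (b - d) ha (by omega)
      rw [hlen', List.prod_cons, List.sum_cons, Nat.cast_mul, Nat.cast_add] at hkl
      have hup : |G| * ((d : ℝ) * hs.prod) * (j.ascFactorial r : ℝ) / (M : ℝ) ^ (j + r) ≤ 1 / 2 := by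
        have : |G| * ((d : ℝ) * hs.prod) * (j.ascFactorial r : ℝ) / (M : ℝ) ^ (j + r) = d * lam := by
          rw [hlam, hA, hN]; ring
        rw [this]
        have hdH : (d : ℝ) ≤ H := by exact_mod_cast hd.2.le
        nlinarith
      refine (hkl hup).trans ?_
      have hbase : 4 * (M : ℝ) + 1 + ((d : ℝ) + hs.sum) ≤ (4 + r) * N := by
        have hdM : (d : ℝ) ≤ N := by
          rw [hN]
          have : d ≤ M := by omega
          exact_mod_cast this
        rw [← hN]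
        have e5 : ((r : ℝ) - 2) * N = r * N - 2 * N := by ring
        have e6 : ((4 : ℝ) + r) * N = 4 * N + r * N := by ring
        linarith
      calc (4 * (M : ℝ) + 1 + ((d : ℝ) + hs.sum)) ^ (j + r)
            / (|G| * ((d : ℝ) * hs.prod) * (j.ascFactorial r : ℝ))
          ≤ ((4 + r) * N) ^ (j + r) / (|G| * ((d : ℝ) * hs.prod) * (j.ascFactorial r : ℝ)) := by
            gcongr
        _ = (κ / lam) * (1 / d) := by
            rw [hκ, hlam, ← hA, mul_pow]
            field_simp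
    have hsumd : ∑ d ∈ Ico 1 H, ‖∑ n ∈ Ioc a (b - d), e (G * D (d :: hs) (phi j) n)‖
        ≤ (κ / lam) * (9 * N ^ (1 / 8 : ℝ)) := by
      calc _ ≤ ∑ d ∈ Ico 1 H, (κ / lam) * (1 / d) := sum_le_sum hinner
        _ = (κ / lam) * ∑ d ∈ Ico 1 H, (1 : ℝ) / d := by rw [mul_sum]
        _ ≤ (κ / lam) * (1 + Real.log M) := by
            gcongr
            exact sum_inv_le H M (by omega)
        _ ≤ (κ / lam) * (9 * N ^ (1 / 8 : ℝ)) := by
            gcongr
            have h1 := Real.log_le_rpow_div hNpos.le (show (0 : ℝ) < 1 / 8 by norm_num)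
            have h2 : 1 ≤ N ^ (1 / 8 : ℝ) := Real.one_le_rpow hN1 (by norm_num)
            rw [← hN]
            have h3 : N ^ (1 / 8 : ℝ) / (1 / 8) = 8 * N ^ (1 / 8 : ℝ) := by ring
            linarith
    set Sn := ‖∑ n ∈ Ioc a b, e (G * D hs (phi j) n)‖ with hSn
    have h1 : (H : ℝ) * Sn ^ 2 ≤ (5 * N) * (5 * N + 2 * ((κ / lam) * (9 * N ^ (1 / 8 : ℝ)))) := by
      refine hstep.trans ?_
      rw [← hN]
      gcongr
    have h2 : Sn ^ 2 ≤ (1 / N + 4 * lam) *
        ((5 * N) * (5 * N + 2 * ((κ / lam) * (9 * N ^ (1 / 8 : ℝ))))) := by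
      calc Sn ^ 2 = 1 * Sn ^ 2 := by ring
        _ ≤ ((H : ℝ) * (1 / N + 4 * lam)) * Sn ^ 2 := by gcongr
        _ = (1 / N + 4 * lam) * ((H : ℝ) * Sn ^ 2) := by ring
        _ ≤ _ := by gcongr
    have h3 : (1 / N + 4 * lam) * ((5 * N) * (5 * N + 2 * ((κ / lam) * (9 * N ^ (1 / 8 : ℝ)))))
        = 25 * N + 90 * κ * (N ^ (1 / 8 : ℝ) / lam) + 100 * (lam * N ^ 2)
          + 360 * κ * (N ^ (1 / 8 : ℝ) * N) := by
      field_simp
      ring
    have t1 : N ≤ N ^ (15 / 8 : ℝ) := by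
      calc N = N ^ (1 : ℝ) := (Real.rpow_one N).symm
        _ ≤ _ := Real.rpow_le_rpow_of_exponent_le hN1 (by norm_num)
    have t2 : N ^ (1 / 8 : ℝ) / lam ≤ N ^ (15 / 8 : ℝ) := by
      rw [div_le_iff₀ hlampos]
      calc N ^ (1 / 8 : ℝ) ≤ N ^ (15 / 8 - 5 / 4 : ℝ) :=
            Real.rpow_le_rpow_of_exponent_le hN1 (by norm_num)
        _ = N ^ (15 / 8 : ℝ) * N ^ (-(5 / 4 : ℝ)) := by
            rw [← Real.rpow_add hNpos]; norm_num
        _ ≤ N ^ (15 / 8 : ℝ) * lam := by gcongr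
    have t3 : lam * N ^ 2 ≤ A * N ^ (15 / 8 : ℝ) := by
      calc lam * N ^ 2 ≤ (A * N ^ (-(1 / 8 : ℝ))) * N ^ 2 := by gcongr
        _ = A * (N ^ (-(1 / 8 : ℝ)) * N ^ (2 : ℝ)) := by
            rw [mul_assoc]
            norm_cast
        _ = A * N ^ (15 / 8 : ℝ) := by
            rw [← Real.rpow_add hNpos]; norm_num
    have t4 : N ^ (1 / 8 : ℝ) * N ≤ N ^ (15 / 8 : ℝ) := by
      calc N ^ (1 / 8 : ℝ) * N = N ^ (1 / 8 + 1 : ℝ) := by
            rw [Real.rpow_add hNpos, Real.rpow_one]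
        _ ≤ _ := Real.rpow_le_rpow_of_exponent_le hN1 (by norm_num)
    set K : ℝ := 25 + 90 * κ + 100 * A + 360 * κ with hK
    have hK1 : 1 ≤ K := by
      have : 0 < 90 * κ := by positivity
      rw [hK]
      linarith
    have h4 : Sn ^ 2 ≤ K * N ^ (15 / 8 : ℝ) := by
      rw [h3] at h2
      have u2 : 90 * κ * (N ^ (1 / 8 : ℝ) / lam) ≤ 90 * κ * N ^ (15 / 8 : ℝ) := by gcongr
      have u3 : 100 * (lam * N ^ 2) ≤ 100 * (A * N ^ (15 / 8 : ℝ)) := by gcongr
      have u4 : 360 * κ * (N ^ (1 / 8 : ℝ) * N) ≤ 360 * κ * N ^ (15 / 8 : ℝ) := by gcongr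
      rw [hK]
      linarith
    have h5 : Sn ≤ K * N ^ (15 / 16 : ℝ) := by
      apply abs_le_of_sq_le_sq' _ (by positivity) |>.2
      calc Sn ^ 2 ≤ K * N ^ (15 / 8 : ℝ) := h4
        _ ≤ K ^ 2 * N ^ (15 / 8 : ℝ) := by
            gcongr
            nlinarith
        _ = (K * N ^ (15 / 16 : ℝ)) ^ 2 := by
            rw [mul_pow, ← Real.rpow_natCast (N ^ (15 / 16 : ℝ)) 2, ← Real.rpow_mul hNpos.le]
            norm_num
    refine h5.trans ?_
    gcongr
    linarith

end Pool.Agent.H24.Sqf
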