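import Mathlib
import Pool.Agent.H24.Sqf.Deriv

namespace Pool.Agent.H24.Sqf

open Finset

theorem level (j r : ℕ) (hj : 1 ≤ j) (hr : 2 ≤ r) : ∀ i : ℕ, i ≤ r - 2 → ∃ C τ : ℝ, 0 < C ∧ 0 < τ ∧
    τ ≤ 1 / (8 * (r : ℝ)) ∧
    ∀ (M : ℕ) (G : ℝ), 1 ≤ M → (M : ℝ) ^ ((r : ℝ) - 5 / 4) ≤ |G| / (M : ℝ) ^ j →
    |G| / (M : ℝ) ^ j ≤ (M : ℝ) ^ ((r : ℝ) - 1 / 4) →
    ∀ hs : List ℕ, hs.length = r - 2 - i →
    (∀ h ∈ hs, 1 ≤ h ∧ (h : ℝ) ≤ (M : ℝ) ^ (1 / (8 * (r : ℝ)))) →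
    ∀ a b : ℕ, M ≤ a → b ≤ 4 * M →
    ‖∑ n ∈ Ioc a b, e (G * D hs (phi j) n)‖ ≤ C * (M : ℝ) ^ (1 - τ) := by
  have hrR : (2 : ℝ) ≤ r := by exact_mod_cast hr
  set η : ℝ := 1 / (8 * (r : ℝ)) with hη
  have hηpos : 0 < η := by rw [hη]; positivity
  have hη16 : η ≤ 1 / 16 := by
    rw [hη]
    apply one_div_le_one_div_of_le (by norm_num)
    linarith
  intro i
  induction i with
  | zero =>
    intro _
    obtain ⟨C, hC, h⟩ := base_level j r hj hr
    refine ⟨C, η, hC, hηpos, le_rfl, ?_⟩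
    intro M G hM hX1 hX2 hs hlen hhs a b ha hb
    refine (h M G hM hX1 hX2 hs hlen hhs a b ha hb).trans ?_
    have hN1 : (1 : ℝ) ≤ M := by exact_mod_cast hM
    gcongr
    linarith
  | succ i ih =>
    intro hi
    obtain ⟨C, τ, hC, hτ, hτη, h⟩ := ih (by omega)
    refine ⟨50 + 10 * C, τ / 2, by positivity, by positivity, by linarith, ?_⟩
    intro M G hM hX1 hX2 hs hlen hhs a b ha hb
    set N : ℝ := (M : ℝ) with hN
    have hN1 : 1 ≤ N := by rw [hN]; exact_mod_cast hM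
    have hNpos : 0 < N := by linarith
    have hNη1 : 1 ≤ N ^ η := Real.one_le_rpow hN1 hηpos.le
    have hNηN : N ^ η ≤ N := by
      calc N ^ η ≤ N ^ (1 : ℝ) := Real.rpow_le_rpow_of_exponent_le hN1 (by linarith)
        _ = N := Real.rpow_one N
    set H : ℕ := ⌊N ^ η⌋₊ with hH
    have hH1 : 1 ≤ H := by
      apply Nat.le_floor
      rw [Nat.cast_one]; exact hNη1
    have hHle : (H : ℝ) ≤ N ^ η := Nat.floor_le (by positivity)
    have hHM : H ≤ M := by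
      have : (H : ℝ) ≤ M := hHle.trans hNηN
      exact_mod_cast this
    have hHge : N ^ η ≤ 2 * H := by
      have h2 : N ^ η < ⌊N ^ η⌋₊ + 1 := Nat.lt_floor_add_one _
      rw [← hH] at h2
      have h3 : (1 : ℝ) ≤ H := by exact_mod_cast hH1
      linarith
    have hstep := vdc_D j M G hs a b H hH1 (by omega) hM hb
    have hinner : ∀ d ∈ Ico 1 H, ‖∑ n ∈ Ioc a (b - d), e (G * D (d :: hs) (phi j) n)‖
        ≤ C * N ^ (1 - τ) := by
      intro d hd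
      rw [mem_Ico] at hd
      apply h M G hM hX1 hX2 (d :: hs)
      · rw [List.length_cons, hlen]; omega
      · intro h' hh
        rcases List.mem_cons.1 hh with h1 | h1
        · rw [h1]
          refine ⟨hd.1, ?_⟩
          have : (d : ℝ) ≤ H := by exact_mod_cast hd.2.le
          exact this.trans hHle
        · exact hhs h' h1
      · exact ha
      · omega
    set Sn := ‖∑ n ∈ Ioc a b, e (G * D hs (phi j) n)‖ with hSn
    have hHpos : (0 : ℝ) < H := by exact_mod_cast hH1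
    have h1 : (H : ℝ) * Sn ^ 2 ≤ (5 * N) * (5 * N + 2 * (H * (C * N ^ (1 - τ)))) := by
      refine hstep.trans ?_
      rw [← hN]
      gcongr
      calc _ ≤ ∑ d ∈ Ico 1 H, C * N ^ (1 - τ) := sum_le_sum hinner
        _ = (#(Ico 1 H) : ℝ) * (C * N ^ (1 - τ)) := by rw [sum_const, nsmul_eq_mul]
        _ ≤ H * (C * N ^ (1 - τ)) := by
          gcongr
          rw [Nat.card_Ico]
          omega
    have hNτ : 0 < N ^ (1 - τ) := Real.rpow_pos_of_pos hNpos _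
    have h2 : (H : ℝ) * Sn ^ 2 ≤ H * ((50 + 10 * C) * N ^ (2 - τ)) := by
      have e1 : N * N ^ (1 - τ) = N ^ (2 - τ) := by
        nth_rewrite 1 [← Real.rpow_one N]
        rw [← Real.rpow_add hNpos]
        congr 1; ring
      have e2 : N ^ 2 ≤ 2 * H * N ^ (2 - τ) := by
        have e3 : N ^ 2 = N ^ τ * N ^ (2 - τ) := by
          rw [← Real.rpow_add hNpos, ← Real.rpow_natCast N 2]
          congr 1; push_cast; ring
        have e4 : N ^ τ ≤ N ^ η := Real.rpow_le_rpow_of_exponent_le hN1 hτη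
        have e5 : 0 < N ^ (2 - τ) := Real.rpow_pos_of_pos hNpos _
        rw [e3]
        gcongr
        linarith
      calc (H : ℝ) * Sn ^ 2 ≤ (5 * N) * (5 * N + 2 * (H * (C * N ^ (1 - τ)))) := h1
        _ = 25 * N ^ 2 + 10 * H * C * (N * N ^ (1 - τ)) := by ring
        _ = 25 * N ^ 2 + 10 * H * C * N ^ (2 - τ) := by rw [e1]
        _ ≤ 25 * (2 * H * N ^ (2 - τ)) + 10 * H * C * N ^ (2 - τ) := by gcongr
        _ = H * ((50 + 10 * C) * N ^ (2 - τ)) := by ring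
    have h3 : Sn ^ 2 ≤ (50 + 10 * C) * N ^ (2 - τ) := le_of_mul_le_mul_left h2 hHpos
    apply abs_le_of_sq_le_sq' _ (by positivity) |>.2
    calc Sn ^ 2 ≤ (50 + 10 * C) * N ^ (2 - τ) := h3
      _ ≤ (50 + 10 * C) ^ 2 * N ^ (2 - τ) := by
          have : 0 < N ^ (2 - τ) := Real.rpow_pos_of_pos hNpos _
          gcongr
          nlinarith
      _ = ((50 + 10 * C) * N ^ (1 - τ / 2)) ^ 2 := by
          rw [mul_pow, ← Real.rpow_natCast (N ^ (1 - τ / 2)) 2, ← Real.rpow_mul hNpos.le]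
          congr 2
          push_cast
          ring

/-- `r`-th derivative test for `G / n^j` in one window. -/
theorem deriv_test (j r : ℕ) (hj : 1 ≤ j) (hr : 2 ≤ r) : ∃ C τ : ℝ, 0 < C ∧ 0 < τ ∧ τ ≤ 1 ∧
    ∀ (M : ℕ) (G : ℝ), 1 ≤ M → (M : ℝ) ^ ((r : ℝ) - 5 / 4) ≤ |G| / (M : ℝ) ^ j →
    |G| / (M : ℝ) ^ j ≤ (M : ℝ) ^ ((r : ℝ) - 1 / 4) →
    ∀ a b : ℕ, M ≤ a → b ≤ 4 * M →
    ‖∑ n ∈ Ioc a b, e (G / (n : ℝ) ^ j)‖ ≤ C * (M : ℝ) ^ (1 - τ) := by
  obtain ⟨C, τ, hC, hτ, hτr, h⟩ := level j r hj hr (r - 2) le_rfl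
  have hrR : (2 : ℝ) ≤ r := by exact_mod_cast hr
  refine ⟨C, τ, hC, hτ, ?_, ?_⟩
  · refine hτr.trans ?_
    rw [div_le_one (by positivity)]
    linarith
  · intro M G hM hX1 hX2 a b ha hb
    have := h M G hM hX1 hX2 [] (by simp) (by simp) a b ha hb
    simpa [D, phi, div_eq_mul_inv] using this

theorem deriv_tests (j : ℕ) (hj : 1 ≤ j) (B : ℕ) : ∃ C τ : ℝ, 0 < C ∧ 0 < τ ∧ τ ≤ 1 ∧
    ∀ r : ℕ, 2 ≤ r → r ≤ B + 2 →
    ∀ (M : ℕ) (G : ℝ), 1 ≤ M → (M : ℝ) ^ ((r : ℝ) - 5 / 4) ≤ |G| / (M : ℝ) ^ j →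
    |G| / (M : ℝ) ^ j ≤ (M : ℝ) ^ ((r : ℝ) - 1 / 4) →
    ∀ a b : ℕ, M ≤ a → b ≤ 4 * M →
    ‖∑ n ∈ Ioc a b, e (G / (n : ℝ) ^ j)‖ ≤ C * (M : ℝ) ^ (1 - τ) := by
  induction B with
  | zero =>
    obtain ⟨C, τ, hC, hτ, hτ1, h⟩ := deriv_test j 2 hj le_rfl
    refine ⟨C, τ, hC, hτ, hτ1, ?_⟩
    intro r hr1 hr2
    have : r = 2 := by omega
    subst this
    exact h
  | succ B ih =>
    obtain ⟨C1, τ1, hC1, hτ1, hτ11, h1⟩ := ih
    obtain ⟨C2, τ2, hC2, hτ2, hτ21, h2⟩ := deriv_test j (B + 3) hj (by omega)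
    refine ⟨max C1 C2, min τ1 τ2, by positivity, by positivity, (min_le_left _ _).trans hτ11, ?_⟩
    intro r hr1 hr2 M G hM hX1 hX2 a b ha hb
    have hN1 : (1 : ℝ) ≤ M := by exact_mod_cast hM
    by_cases hr : r ≤ B + 2
    · refine (h1 r hr1 hr M G hM hX1 hX2 a b ha hb).trans ?_
      gcongr
      · exact le_max_left _ _
      · exact min_le_left _ _
    · have : r = B + 3 := by omega
      subst this
      refine (h2 M G hM hX1 hX2 a b ha hb).trans ?_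
      gcongr
      · exact le_max_right _ _
      · exact min_le_right _ _

/-- Power saving for `∑ e(G/n^j)` over intervals inside `(M, 4M]`, when
`M ≤ |G|/M^j ≤ M^B`. -/
theorem mono_sum (j B : ℕ) (hj : 1 ≤ j) : ∃ C τ : ℝ, 0 < C ∧ 0 < τ ∧ τ ≤ 1 ∧
    ∀ (M : ℕ) (G : ℝ), 1 ≤ M → (M : ℝ) ≤ |G| / (M : ℝ) ^ j →
    |G| / (M : ℝ) ^ j ≤ (M : ℝ) ^ B →
    ∀ a b : ℕ, M ≤ a → b ≤ 4 * M →
    ‖∑ n ∈ Ioc a b, e (G / (n : ℝ) ^ j)‖ ≤ C * (M : ℝ) ^ (1 - τ) := by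
  obtain ⟨C, τ, hC, hτ, hτ1, h⟩ := deriv_tests j hj B
  refine ⟨max C 4, τ, by positivity, hτ, hτ1, ?_⟩
  intro M G hM hX1 hX2 a b ha hb
  set N : ℝ := (M : ℝ) with hN
  have hN1 : 1 ≤ N := by rw [hN]; exact_mod_cast hM
  have hNpos : 0 < N := by linarith
  rcases Nat.eq_or_lt_of_le hM with hM1 | hM2
  · -- M = 1
    have hNeq : N = 1 := by rw [hN, ← hM1]; simp
    rw [hNeq, Real.one_rpow, mul_one]
    calc _ ≤ ∑ n ∈ Ioc a b, ‖e (G / (n : ℝ) ^ j)‖ := norm_sum_le _ _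
      _ = (#(Ioc a b) : ℝ) := by simp [norm_e]
      _ ≤ 4 := by
          rw [Nat.card_Ioc]
          have : b - a ≤ 4 := by omega
          exact_mod_cast this
      _ ≤ _ := le_max_right _ _
  · have hNgt : 1 < N := by rw [hN]; exact_mod_cast hM2
    set X := |G| / N ^ j with hX
    -- choose the window
    have hex : ∃ r : ℕ, X ≤ N ^ ((r : ℝ) - 1 / 4) := by
      refine ⟨B + 1, hX2.trans ?_⟩
      rw [← Real.rpow_natCast N B]
      apply Real.rpow_le_rpow_of_exponent_le hN1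
      push_cast; linarith
    classical
    set r := Nat.find hex with hr
    have hr1 : X ≤ N ^ ((r : ℝ) - 1 / 4) := Nat.find_spec hex
    have hrB : r ≤ B + 1 := by
      apply Nat.find_min' hex
      refine hX2.trans ?_
      rw [← Real.rpow_natCast N B]
      apply Real.rpow_le_rpow_of_exponent_le hN1
      push_cast; linarith
    have hr2 : 2 ≤ r := by
      by_contra hlt
      have hle : r ≤ 1 := by omega
      have : X ≤ N ^ (3 / 4 : ℝ) := by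
        refine hr1.trans ?_
        apply Real.rpow_le_rpow_of_exponent_le hN1
        have : (r : ℝ) ≤ 1 := by exact_mod_cast hle
        linarith
      have h2 : N ^ (3 / 4 : ℝ) < N := by
        calc N ^ (3 / 4 : ℝ) < N ^ (1 : ℝ) := Real.rpow_lt_rpow_of_exponent_lt hNgt (by norm_num)
          _ = N := Real.rpow_one N
      linarith
    have hr3 : N ^ ((r : ℝ) - 5 / 4) ≤ X := by
      have hnot := Nat.find_min hex (m := r - 1) (by omega)
      push Not at hnot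
      have e1 : ((r - 1 : ℕ) : ℝ) - 1 / 4 = (r : ℝ) - 5 / 4 := by
        rw [Nat.cast_sub (by omega)]; push_cast; ring
      rw [e1] at hnot
      exact hnot.le
    refine (h r hr2 (by omega) M G hM hr3 hr1 a b ha hb).trans ?_
    gcongr
    exact le_max_left _ _

end Pool.Agent.H24.Sqf
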