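import Mathlib
import Pool.Agent.H24.Sqf.MonoSum

namespace Pool.Agent.H24.Sqf

open Finset ArithmeticFunction
open scoped ArithmeticFunction.Moebius ArithmeticFunction.zeta

/-- truncation of an arithmetic function to arguments `≤ U` -/
noncomputable def trunc (U : ℕ) (f : ArithmeticFunction ℝ) : ArithmeticFunction ℝ :=
  ⟨fun n => if n ≤ U then f n else 0, by simp⟩

theorem trunc_apply (U : ℕ) (f : ArithmeticFunction ℝ) (n : ℕ) :
    trunc U f n = if n ≤ U then f n else 0 := rfl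

/-- twisted sum over `Ioc P Q` -/
noncomputable def tw (w : ℕ → ℂ) (P Q : ℕ) (f : ArithmeticFunction ℝ) : ℂ :=
  ∑ n ∈ Ioc P Q, ((f n : ℝ) : ℂ) * w n

theorem tw_add (w : ℕ → ℂ) (P Q : ℕ) (f g : ArithmeticFunction ℝ) :
    tw w P Q (f + g) = tw w P Q f + tw w P Q g := by
  unfold tw
  rw [← sum_add_distrib]
  apply sum_congr rfl
  intro n _
  rw [ArithmeticFunction.add_apply]
  push_cast
  ring

theorem tw_sub (w : ℕ → ℂ) (P Q : ℕ) (f g : ArithmeticFunction ℝ) :
    tw w P Q (f - g) = tw w P Q f - tw w P Q g := by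
  unfold tw
  rw [← sum_sub_distrib]
  apply sum_congr rfl
  intro n _
  have : (f - g) n = f n - g n := rfl
  rw [this]
  push_cast
  ring

theorem tw_mul (w : ℕ → ℂ) (P Q : ℕ) (f g : ArithmeticFunction ℝ) :
    tw w P Q (f * g) = ∑ d ∈ Ioc 0 Q, ((f d : ℝ) : ℂ) *
      ∑ m ∈ Ioc (P / d) (Q / d), ((g m : ℝ) : ℂ) * w (d * m) := by
  unfold tw
  have h1 : ∀ n ∈ Ioc P Q, (((f * g) n : ℝ) : ℂ) * w n
      = ∑ x ∈ (Ioc 0 Q ×ˢ Ioc 0 Q) with x.1 * x.2 = n,
          ((f x.1 : ℝ) : ℂ) * (((g x.2 : ℝ) : ℂ) * w (x.1 * x.2)) := by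
    intro n hn
    rw [mem_Ioc] at hn
    rw [ArithmeticFunction.mul_apply,
      Nat.divisorsAntidiagonal_eq_prod_filter_of_le (n := n) (N := Q) (by omega) hn.2]
    push_cast
    rw [sum_mul]
    apply sum_congr rfl
    intro x hx
    rw [mem_filter] at hx
    rw [hx.2]
    ring
  rw [sum_congr rfl h1]
  simp_rw [sum_filter]
  rw [sum_comm]
  have h2 : ∀ x ∈ Ioc 0 Q ×ˢ Ioc 0 Q,
      (∑ n ∈ Ioc P Q, if x.1 * x.2 = n then ((f x.1 : ℝ) : ℂ) * (((g x.2 : ℝ) : ℂ) * w (x.1 * x.2)) else 0)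
      = if x.1 * x.2 ∈ Ioc P Q then ((f x.1 : ℝ) : ℂ) * (((g x.2 : ℝ) : ℂ) * w (x.1 * x.2)) else 0 := by
    intro x _
    rw [sum_ite_eq]
  rw [sum_congr rfl h2, sum_product]
  apply sum_congr rfl
  intro d hd
  rw [mem_Ioc] at hd
  rw [← sum_filter, mul_sum]
  apply sum_congr
  · ext m
    simp only [mem_filter, mem_Ioc]
    rw [Nat.div_lt_iff_lt_mul hd.1, Nat.le_div_iff_mul_le hd.1, mul_comm m d]
    constructor
    · rintro ⟨_, h3, h4⟩
      exact ⟨h3, h4⟩
    · rintro ⟨h3, h4⟩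
      refine ⟨⟨?_, ?_⟩, h3, h4⟩
      · rcases Nat.eq_zero_or_pos m with h0 | h0
        · subst h0; simp at h3
        · exact h0
      · calc m = 1 * m := (one_mul m).symm
          _ ≤ d * m := Nat.mul_le_mul_right m hd.1
          _ ≤ Q := h4
  · intro m _
    rfl

/-- Vaughan's identity -/
theorem vaughan (U : ℕ) :
    (Λ : ArithmeticFunction ℝ) = trunc U Λ + trunc U (μ : ArithmeticFunction ℝ) * log
      - (trunc U (μ : ArithmeticFunction ℝ) * trunc U Λ) * (ζ : ArithmeticFunction ℝ)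
      + (Λ - trunc U Λ) * (((μ : ArithmeticFunction ℝ) - trunc U (μ : ArithmeticFunction ℝ))
          * (ζ : ArithmeticFunction ℝ)) := by
  have h1 : (Λ : ArithmeticFunction ℝ) * (ζ : ArithmeticFunction ℝ) = log := vonMangoldt_mul_zeta
  have h2 : (μ : ArithmeticFunction ℝ) * (ζ : ArithmeticFunction ℝ) = 1 := coe_moebius_mul_coe_zeta
  generalize trunc U (μ : ArithmeticFunction ℝ) = M1
  generalize trunc U Λ = L1
  linear_combination (-Λ + L1) * h2 + M1 * h1

/-- partial summation with logarithmic weights -/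
theorem sum_log_mul (w : ℕ → ℂ) (a b : ℕ) (B : ℝ) (hb : 1 ≤ b) (hB : 0 ≤ B)
    (h : ∀ b' ≤ b, ‖∑ m ∈ Ioc a b', w m‖ ≤ B) :
    ‖∑ m ∈ Ioc a b, ((Real.log m : ℝ) : ℂ) * w m‖ ≤ 2 * Real.log b * B := by
  rcases le_or_gt b a with hab | hab
  · rw [Ioc_eq_empty_of_le hab]
    simp only [sum_empty, norm_zero]
    have : 0 ≤ Real.log b := Real.log_nonneg (by exact_mod_cast hb)
    positivity
  have key : ∀ k : ℕ, ∑ m ∈ Ioc a (a + k), ((Real.log m : ℝ) : ℂ) * w m
      = ((Real.log (a + k : ℕ) : ℝ) : ℂ) * (∑ m ∈ Ioc a (a + k), w m)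
        - ∑ i ∈ range k, ((Real.log (a + i + 1 : ℕ) - Real.log (a + i : ℕ) : ℝ) : ℂ)
            * ∑ m ∈ Ioc a (a + i), w m := by
    intro k
    induction k with
    | zero => simp
    | succ k ih =>
      have e1 : Ioc a (a + (k + 1)) = insert (a + k + 1) (Ioc a (a + k)) := by
        ext x; simp only [mem_insert, mem_Ioc]; omega
      have e2 : a + k + 1 ∉ Ioc a (a + k) := by simp
      rw [e1, sum_insert e2, sum_insert e2, ih, sum_range_succ]
      have e3 : a + (k + 1) = a + k + 1 := by ring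
      rw [e3]
      push_cast
      ring
  obtain ⟨k, rfl⟩ : ∃ k, b = a + k := ⟨b - a, by omega⟩
  rw [key]
  have hlog : ∀ i ∈ range k, ‖((Real.log (a + i + 1 : ℕ) - Real.log (a + i : ℕ) : ℝ) : ℂ)
      * ∑ m ∈ Ioc a (a + i), w m‖ ≤ (Real.log (a + i + 1 : ℕ) - Real.log (a + i : ℕ)) * B := by
    intro i hi
    rw [mem_range] at hi
    have h0 : 0 ≤ Real.log (a + i + 1 : ℕ) - Real.log (a + i : ℕ) := by
      rcases Nat.eq_zero_or_pos (a + i) with h0 | h0
      · rw [h0]; simp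
      · have : Real.log (a + i : ℕ) ≤ Real.log (a + i + 1 : ℕ) := by
          apply Real.log_le_log
          · exact_mod_cast h0
          · exact_mod_cast Nat.le_succ _
        linarith
    rw [norm_mul, Complex.norm_real, Real.norm_eq_abs, abs_of_nonneg h0]
    apply mul_le_mul_of_nonneg_left _ h0
    exact h _ (by omega)
  have hlogb : 0 ≤ Real.log ((a + k : ℕ) : ℝ) := Real.log_nonneg (by exact_mod_cast hb)
  have hloga : 0 ≤ Real.log (a : ℝ) := by
    rcases Nat.eq_zero_or_pos a with h0 | h0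
    · rw [h0]; simp
    · exact Real.log_nonneg (by exact_mod_cast h0)
  calc _ ≤ ‖((Real.log (a + k : ℕ) : ℝ) : ℂ) * (∑ m ∈ Ioc a (a + k), w m)‖
        + ‖∑ i ∈ range k, ((Real.log (a + i + 1 : ℕ) - Real.log (a + i : ℕ) : ℝ) : ℂ)
            * ∑ m ∈ Ioc a (a + i), w m‖ := norm_sub_le _ _
    _ ≤ Real.log (a + k : ℕ) * B
        + ∑ i ∈ range k, (Real.log (a + i + 1 : ℕ) - Real.log (a + i : ℕ)) * B := by
        gcongr
        · rw [norm_mul, Complex.norm_real, Real.norm_eq_abs, abs_of_nonneg hlogb]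
          apply mul_le_mul_of_nonneg_left _ hlogb
          exact h _ le_rfl
        · exact (norm_sum_le _ _).trans (sum_le_sum hlog)
    _ = Real.log (a + k : ℕ) * B + (Real.log (a + k : ℕ) - Real.log (a : ℕ)) * B := by
        rw [← sum_mul]
        congr 2
        have := sum_range_sub (fun i => Real.log ((a + i : ℕ) : ℝ)) k
        simpa [add_assoc] using this
    _ ≤ 2 * Real.log (a + k : ℕ) * B := by nlinarith

theorem abs_moebius_le (n : ℕ) : |((μ : ArithmeticFunction ℝ) n)| ≤ 1 := by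
  rw [ArithmeticFunction.intCoe_apply]
  exact_mod_cast ArithmeticFunction.abs_moebius_le_one

theorem abs_trunc_moebius_le (U n : ℕ) : |trunc U (μ : ArithmeticFunction ℝ) n| ≤ 1 := by
  rw [trunc_apply]
  split_ifs
  · exact abs_moebius_le n
  · simp

/-- coefficients of `μ₁ * Λ₁` -/
theorem abs_conv_le (U d : ℕ) :
    |(trunc U (μ : ArithmeticFunction ℝ) * trunc U Λ) d| ≤ Real.log d := by
  rw [ArithmeticFunction.mul_apply, ← vonMangoldt_sum]
  calc _ ≤ ∑ x ∈ d.divisorsAntidiagonal, |trunc U (μ : ArithmeticFunction ℝ) x.1 * trunc U Λ x.2| :=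
        abs_sum_le_sum_abs _ _
    _ ≤ ∑ x ∈ d.divisorsAntidiagonal, Λ x.2 := by
        apply sum_le_sum
        intro x _
        rw [abs_mul]
        have h1 := abs_trunc_moebius_le U x.1
        have h2 : |trunc U Λ x.2| ≤ Λ x.2 := by
          rw [trunc_apply]
          split_ifs
          · rw [abs_of_nonneg vonMangoldt_nonneg]
          · rw [abs_zero]; exact vonMangoldt_nonneg
        calc |trunc U (μ : ArithmeticFunction ℝ) x.1| * |trunc U Λ x.2| ≤ 1 * Λ x.2 := by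
              gcongr
          _ = Λ x.2 := one_mul _
    _ = ∑ i ∈ d.divisors, Λ i := by
        rw [Nat.sum_divisorsAntidiagonal' (f := fun _ y => Λ y)]

theorem conv_eq_zero (U d : ℕ) (hd : U ^ 2 < d) :
    (trunc U (μ : ArithmeticFunction ℝ) * trunc U Λ) d = 0 := by
  rw [ArithmeticFunction.mul_apply]
  apply sum_eq_zero
  intro x hx
  rw [Nat.mem_divisorsAntidiagonal] at hx
  rw [trunc_apply, trunc_apply]
  by_cases h1 : x.1 ≤ U
  · by_cases h2 : x.2 ≤ U
    · exfalso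
      have : x.1 * x.2 ≤ U * U := Nat.mul_le_mul h1 h2
      rw [hx.1] at this
      nlinarith
    · rw [if_neg h2, mul_zero]
  · rw [if_neg h1, zero_mul]

/-- the type II coefficient -/
noncomputable def beta (U : ℕ) : ArithmeticFunction ℝ :=
  ((μ : ArithmeticFunction ℝ) - trunc U (μ : ArithmeticFunction ℝ)) * (ζ : ArithmeticFunction ℝ)

theorem abs_beta_le (U l : ℕ) : |beta U l| ≤ (#l.divisors : ℝ) := by
  unfold beta
  rw [coe_mul_zeta_apply]
  calc _ ≤ ∑ i ∈ l.divisors, |((μ : ArithmeticFunction ℝ) - trunc U (μ : ArithmeticFunction ℝ)) i| :=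
        abs_sum_le_sum_abs _ _
    _ ≤ ∑ i ∈ l.divisors, (1 : ℝ) := by
        apply sum_le_sum
        intro i _
        have : ((μ : ArithmeticFunction ℝ) - trunc U (μ : ArithmeticFunction ℝ)) i
            = (μ : ArithmeticFunction ℝ) i - trunc U (μ : ArithmeticFunction ℝ) i := rfl
        rw [this, trunc_apply]
        split_ifs
        · simp
        · rw [sub_zero]; exact abs_moebius_le i
    _ = _ := by simp

theorem beta_eq_zero (U l : ℕ) (hl : l ≤ U) : beta U l = 0 := by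
  unfold beta
  rw [coe_mul_zeta_apply]
  apply sum_eq_zero
  intro i hi
  have h1 : i ≤ U := (Nat.divisor_le hi).trans hl
  have : ((μ : ArithmeticFunction ℝ) - trunc U (μ : ArithmeticFunction ℝ)) i
      = (μ : ArithmeticFunction ℝ) i - trunc U (μ : ArithmeticFunction ℝ) i := rfl
  rw [this, trunc_apply, if_pos h1, sub_self]

theorem card_divisors_sq_le (l : ℕ) : (#l.divisors) ^ 2 ≤ 4 * l := by
  rcases Nat.eq_zero_or_pos l with h0 | h0
  · subst h0; simp
  have h1 : l.divisors ⊆ (l.divisors.filter (fun d => d ^ 2 ≤ l))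
      ∪ (l.divisors.filter (fun d => (l / d) ^ 2 ≤ l)) := by
    intro d hd
    rw [mem_union, mem_filter, mem_filter]
    have hdl := Nat.dvd_of_mem_divisors hd
    by_contra hcon
    push Not at hcon
    have h2 := hcon.1 hd
    have h3 := hcon.2 hd
    have h4 : d * (l / d) = l := Nat.mul_div_cancel' hdl
    have h5 : l * l < (d ^ 2) * ((l / d) ^ 2) := Nat.mul_lt_mul'' h2 h3
    rw [← mul_pow, h4, sq] at h5
    exact lt_irrefl _ h5
  have hs : ∀ s : Finset ℕ, s ⊆ Icc 1 (Nat.sqrt l) → #s ≤ Nat.sqrt l := by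
    intro s hs
    have := card_le_card hs
    simpa using this
  have h2 : #(l.divisors.filter (fun d => d ^ 2 ≤ l)) ≤ Nat.sqrt l := by
    apply hs
    intro d hd
    rw [mem_filter] at hd
    rw [mem_Icc]
    exact ⟨Nat.pos_of_mem_divisors hd.1, Nat.le_sqrt'.2 hd.2⟩
  have h3 : #(l.divisors.filter (fun d => (l / d) ^ 2 ≤ l)) ≤ Nat.sqrt l := by
    have : #(l.divisors.filter (fun d => (l / d) ^ 2 ≤ l))
        = #((l.divisors.filter (fun d => (l / d) ^ 2 ≤ l)).image (fun d => l / d)) := by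
      symm
      apply card_image_of_injOn
      intro x hx y hy hxy
      simp only [coe_filter, Nat.mem_divisors, Set.mem_ofPred_eq] at hx hy
      simp only at hxy
      have hx1 : x * (l / x) = l := Nat.mul_div_cancel' hx.1.1
      have hy1 : y * (l / y) = l := Nat.mul_div_cancel' hy.1.1
      rw [hxy] at hx1
      have hpos : 0 < l / y := Nat.div_pos (Nat.le_of_dvd h0 hy.1.1) (Nat.pos_of_dvd_of_pos hy.1.1 h0)
      exact Nat.eq_of_mul_eq_mul_right hpos (hx1.trans hy1.symm)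
    rw [this]
    apply hs
    intro d hd
    rw [mem_image] at hd
    obtain ⟨x, hx, rfl⟩ := hd
    rw [mem_filter] at hx
    rw [mem_Icc]
    have hxd := Nat.dvd_of_mem_divisors hx.1
    exact ⟨Nat.div_pos (Nat.le_of_dvd h0 hxd) (Nat.pos_of_mem_divisors hx.1), Nat.le_sqrt'.2 hx.2⟩
  have h4 : #l.divisors ≤ 2 * Nat.sqrt l := by
    calc #l.divisors ≤ _ := card_le_card h1
      _ ≤ _ := card_union_le _ _
      _ ≤ Nat.sqrt l + Nat.sqrt l := by omega
      _ = 2 * Nat.sqrt l := by ring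
  calc (#l.divisors) ^ 2 ≤ (2 * Nat.sqrt l) ^ 2 := Nat.pow_le_pow_left h4 2
    _ = 4 * (Nat.sqrt l * Nat.sqrt l) := by ring
    _ ≤ 4 * l := by
      have := Nat.sqrt_le l
      omega

theorem sum_card_divisors_le (L : ℕ) (hL : 1 ≤ L) :
    ∑ l ∈ Ioc 0 L, (#l.divisors : ℝ) ≤ L * (1 + Real.log L) := by
  have h1 := sum_Ioc_sigma0_eq_sum_div L
  have h2 : ∑ l ∈ Ioc 0 L, (#l.divisors : ℝ) = ((∑ n ∈ Ioc 0 L, (L / n) : ℕ) : ℝ) := by
    rw [← h1]
    push_cast
    apply sum_congr rfl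
    intro l _
    rw [sigma_zero_apply]
  rw [h2]
  push_cast
  calc ∑ n ∈ Ioc 0 L, ((L / n : ℕ) : ℝ) ≤ ∑ n ∈ Ioc 0 L, (L : ℝ) * (1 / n) := by
        apply sum_le_sum
        intro n _
        calc ((L / n : ℕ) : ℝ) ≤ (L : ℝ) / n := Nat.cast_div_le
          _ = (L : ℝ) * (1 / n) := by ring
    _ = L * ∑ n ∈ Ico 1 (L + 1), (1 : ℝ) / n := by
        rw [mul_sum]
        apply sum_congr
        · ext x; simp only [mem_Ioc, mem_Ico]; omega
        · intro _ _; rfl
    _ ≤ L * (1 + Real.log L) := by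
        gcongr
        exact sum_inv_le (L + 1) L le_rfl

end Pool.Agent.H24.Sqf
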