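import Mathlib
import Pool.Agent.H24.Sqf.Vaughan

namespace Pool.Agent.H24.Sqf

open Finset ArithmeticFunction
open scoped ArithmeticFunction.Moebius ArithmeticFunction.zeta

theorem bilinear (A B : Finset ℕ) (α β : ℕ → ℝ) (K : ℕ → ℕ → ℂ) :
    ‖∑ m ∈ A, (α m : ℂ) * ∑ l ∈ B, (β l : ℂ) * K m l‖ ^ 2 ≤
      (∑ m ∈ A, α m ^ 2) * ∑ l ∈ B, ∑ l' ∈ B, |β l| * |β l'| *
        ‖∑ m ∈ A, K m l * (starRingEnd ℂ) (K m l')‖ := by
  set z : ℕ → ℂ := fun m => ∑ l ∈ B, (β l : ℂ) * K m l with hz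
  have h1 : ‖∑ m ∈ A, (α m : ℂ) * z m‖ ^ 2 ≤ (∑ m ∈ A, α m ^ 2) * ∑ m ∈ A, ‖z m‖ ^ 2 := by
    calc ‖∑ m ∈ A, (α m : ℂ) * z m‖ ^ 2 ≤ (∑ m ∈ A, |α m| * ‖z m‖) ^ 2 := by
          gcongr
          refine (norm_sum_le _ _).trans (le_of_eq ?_)
          apply sum_congr rfl
          intro m _
          rw [norm_mul, Complex.norm_real, Real.norm_eq_abs]
      _ ≤ (∑ m ∈ A, |α m| ^ 2) * ∑ m ∈ A, ‖z m‖ ^ 2 := sum_mul_sq_le_sq_mul_sq _ _ _
      _ = _ := by simp only [sq_abs]
  refine h1.trans ?_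
  apply mul_le_mul_of_nonneg_left _ (sum_nonneg (fun _ _ => sq_nonneg _))
  have e1 : ((∑ m ∈ A, ‖z m‖ ^ 2 : ℝ) : ℂ)
      = ∑ l ∈ B, ∑ l' ∈ B, ((β l : ℂ) * (β l' : ℂ)) * ∑ m ∈ A, K m l * (starRingEnd ℂ) (K m l') := by
    push_cast
    have : ∀ m ∈ A, ((‖z m‖ : ℂ)) ^ 2
        = ∑ l ∈ B, ∑ l' ∈ B, ((β l : ℂ) * (β l' : ℂ)) * (K m l * (starRingEnd ℂ) (K m l')) := by
      intro m _
      rw [← Complex.mul_conj', hz]
      simp only [map_sum, map_mul, Complex.conj_ofReal]
      rw [sum_mul_sum]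
      apply sum_congr rfl
      intro l _
      apply sum_congr rfl
      intro l' _
      ring
    rw [sum_congr rfl this, sum_comm]
    apply sum_congr rfl
    intro l _
    rw [sum_comm]
    apply sum_congr rfl
    intro l' _
    rw [mul_sum]
  have e2 : (0 : ℝ) ≤ ∑ m ∈ A, ‖z m‖ ^ 2 := sum_nonneg (fun _ _ => by positivity)
  calc ∑ m ∈ A, ‖z m‖ ^ 2 = ‖((∑ m ∈ A, ‖z m‖ ^ 2 : ℝ) : ℂ)‖ := by
        rw [Complex.norm_real, Real.norm_eq_abs, abs_of_nonneg e2]
    _ ≤ ∑ l ∈ B, ∑ l' ∈ B, ‖((β l : ℂ) * (β l' : ℂ)) *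
          ∑ m ∈ A, K m l * (starRingEnd ℂ) (K m l')‖ := by
        rw [e1]
        exact (norm_sum_le _ _).trans (sum_le_sum (fun l _ => norm_sum_le _ _))
    _ = _ := by
        apply sum_congr rfl
        intro l _
        apply sum_congr rfl
        intro l' _
        rw [norm_mul, norm_mul, Complex.norm_real, Complex.norm_real, Real.norm_eq_abs,
          Real.norm_eq_abs]

/-- type II sum over one dyadic block -/
theorem typeII_block (w : ℕ → ℂ) (hw : ∀ n, ‖w n‖ ≤ 1) (P U M L : ℕ) (E ℓ : ℝ)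
    (hM : 1 ≤ M) (hL : 2 * P / M ≤ L) (hL1 : 1 ≤ L) (hE : 0 ≤ E)
    (hℓM : Real.log (2 * M) ≤ ℓ) (hℓL : 1 + Real.log L ≤ ℓ)
    (hK : ∀ l l' : ℕ, 0 < l → l < l' → l' ≤ L →
      ‖∑ m ∈ Ioc (max M (max (P / l) (P / l'))) (min (2 * M) (min (2 * P / l) (2 * P / l'))),
        w (m * l) * (starRingEnd ℂ) (w (m * l'))‖ ≤ E) :
    ‖∑ m ∈ Ioc M (2 * M), (((Λ - trunc U Λ) m : ℝ) : ℂ) *
      ∑ l ∈ Ioc (P / m) (2 * P / m), ((beta U l : ℝ) : ℂ) * w (m * l)‖ ^ 2
      ≤ (M * ℓ ^ 2) * (M * (2 * Real.sqrt L * (L * ℓ)) + E * (L * ℓ) ^ 2) := by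
  classical
  set K : ℕ → ℕ → ℂ := fun m l => if P < m * l ∧ m * l ≤ 2 * P then w (m * l) else 0 with hKdef
  set A := Ioc M (2 * M) with hA
  set B := Ioc 0 L with hB
  have hinner : ∀ m ∈ A, ∑ l ∈ Ioc (P / m) (2 * P / m), ((beta U l : ℝ) : ℂ) * w (m * l)
      = ∑ l ∈ B, ((beta U l : ℝ) : ℂ) * K m l := by
    intro m hm
    rw [hA, mem_Ioc] at hm
    have hmpos : 0 < m := by omega
    have : ∀ l ∈ B, ((beta U l : ℝ) : ℂ) * K m l
        = if l ∈ Ioc (P / m) (2 * P / m) then ((beta U l : ℝ) : ℂ) * w (m * l) else 0 := by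
      intro l _
      have hiff : l ∈ Ioc (P / m) (2 * P / m) ↔ (P < m * l ∧ m * l ≤ 2 * P) := by
        rw [mem_Ioc, Nat.div_lt_iff_lt_mul hmpos, Nat.le_div_iff_mul_le hmpos, mul_comm l m]
      simp only [hKdef]
      by_cases h : P < m * l ∧ m * l ≤ 2 * P
      · rw [if_pos h, if_pos (hiff.2 h)]
      · rw [if_neg h, if_neg (fun h' => h (hiff.1 h')), mul_zero]
    rw [sum_congr rfl this, ← sum_filter]
    apply sum_congr
    · ext l
      simp only [mem_filter, mem_Ioc, hB]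
      constructor
      · intro h
        refine ⟨⟨lt_of_le_of_lt (Nat.zero_le _) h.1, ?_⟩, h⟩
        calc l ≤ 2 * P / m := h.2
          _ ≤ 2 * P / M := Nat.div_le_div_left hm.1.le (by omega)
          _ ≤ L := hL
      · intro h
        exact h.2
    · intro _ _; rfl
  have h0 : ∑ m ∈ A, (((Λ - trunc U Λ) m : ℝ) : ℂ) *
      ∑ l ∈ Ioc (P / m) (2 * P / m), ((beta U l : ℝ) : ℂ) * w (m * l)
      = ∑ m ∈ A, (((Λ - trunc U Λ) m : ℝ) : ℂ) * ∑ l ∈ B, ((beta U l : ℝ) : ℂ) * K m l := by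
    apply sum_congr rfl
    intro m hm
    rw [hinner m hm]
  rw [h0]
  refine (bilinear A B _ _ K).trans ?_
  have hℓ0 : 0 ≤ ℓ := by
    have : 0 ≤ Real.log L := Real.log_nonneg (by exact_mod_cast hL1)
    linarith
  have hα : ∑ m ∈ A, ((Λ - trunc U Λ) m) ^ 2 ≤ M * ℓ ^ 2 := by
    calc ∑ m ∈ A, ((Λ - trunc U Λ) m) ^ 2 ≤ ∑ m ∈ A, ℓ ^ 2 := by
          apply sum_le_sum
          intro m hm
          rw [hA, mem_Ioc] at hm
          have hsub : (Λ - trunc U Λ) m = Λ m - trunc U Λ m := rfl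
          have h1 : 0 ≤ (Λ - trunc U Λ) m := by
            rw [hsub, trunc_apply]
            split_ifs
            · simp
            · rw [sub_zero]; exact vonMangoldt_nonneg
          have h2 : (Λ - trunc U Λ) m ≤ ℓ := by
            have h3 : (Λ - trunc U Λ) m ≤ Λ m := by
              rw [hsub, trunc_apply]
              split_ifs
              · rw [sub_self]; exact vonMangoldt_nonneg
              · rw [sub_zero]
            calc (Λ - trunc U Λ) m ≤ Λ m := h3
              _ ≤ Real.log m := vonMangoldt_le_log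
              _ ≤ Real.log (2 * M) := by
                  apply Real.log_le_log
                  · have : 0 < m := by omega
                    exact_mod_cast this
                  · exact_mod_cast hm.2
              _ ≤ ℓ := hℓM
          gcongr
      _ = M * ℓ ^ 2 := by
          rw [sum_const, nsmul_eq_mul, hA, Nat.card_Ioc]
          congr 2
          omega
  have hKK : ∀ l l', ∑ m ∈ A, K m l * (starRingEnd ℂ) (K m l')
      = ∑ m ∈ A with (P < m * l ∧ m * l ≤ 2 * P) ∧ (P < m * l' ∧ m * l' ≤ 2 * P),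
          w (m * l) * (starRingEnd ℂ) (w (m * l')) := by
    intro l l'
    rw [sum_filter]
    apply sum_congr rfl
    intro m _
    simp only [hKdef]
    by_cases h1 : P < m * l ∧ m * l ≤ 2 * P
    · by_cases h2 : P < m * l' ∧ m * l' ≤ 2 * P
      · simp [h1, h2]
      · have h3 : ¬ ((P < m * l ∧ m * l ≤ 2 * P) ∧ (P < m * l' ∧ m * l' ≤ 2 * P)) :=
          fun h => h2 h.2
        rw [if_neg h2, if_neg h3]; simp
    · have h3 : ¬ ((P < m * l ∧ m * l ≤ 2 * P) ∧ (P < m * l' ∧ m * l' ≤ 2 * P)) :=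
        fun h => h1 h.1
      rw [if_neg h1, if_neg h3]; simp
  have hoff : ∀ l l', 0 < l → l < l' → l' ≤ L →
      ‖∑ m ∈ A, K m l * (starRingEnd ℂ) (K m l')‖ ≤ E := by
    intro l l' hl hll hl'
    rw [hKK]
    refine le_trans (le_of_eq ?_) (hK l l' hl hll hl')
    congr 1
    apply sum_congr
    · ext m
      have hl'pos : 0 < l' := by omega
      simp only [mem_filter, mem_Ioc, hA, max_lt_iff, le_min_iff]
      rw [Nat.div_lt_iff_lt_mul hl, Nat.div_lt_iff_lt_mul hl'pos, Nat.le_div_iff_mul_le hl,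
        Nat.le_div_iff_mul_le hl'pos]
      tauto
    · intro _ _; rfl
  have hsymm : ∀ l l', ‖∑ m ∈ A, K m l * (starRingEnd ℂ) (K m l')‖
      = ‖∑ m ∈ A, K m l' * (starRingEnd ℂ) (K m l)‖ := by
    intro l l'
    have : ∑ m ∈ A, K m l' * (starRingEnd ℂ) (K m l)
        = (starRingEnd ℂ) (∑ m ∈ A, K m l * (starRingEnd ℂ) (K m l')) := by
      rw [map_sum]
      apply sum_congr rfl
      intro m _
      rw [map_mul, Complex.conj_conj]
      ring
    rw [this, Complex.norm_conj]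
  have hdiag : ∀ l, ‖∑ m ∈ A, K m l * (starRingEnd ℂ) (K m l)‖ ≤ M := by
    intro l
    calc _ ≤ ∑ m ∈ A, ‖K m l * (starRingEnd ℂ) (K m l)‖ := norm_sum_le _ _
      _ ≤ ∑ m ∈ A, (1 : ℝ) := by
          apply sum_le_sum
          intro m _
          rw [norm_mul, Complex.norm_conj]
          have h1 : ‖K m l‖ ≤ 1 := by
            simp only [hKdef]
            split_ifs
            · exact hw _
            · simp
          have h2 := norm_nonneg (K m l)
          nlinarith
      _ = M := by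
          rw [sum_const, nsmul_eq_mul, mul_one, hA, Nat.card_Ioc]
          congr 1
          omega
  have hS1 : ∑ l ∈ B, |beta U l| ≤ L * ℓ := by
    calc ∑ l ∈ B, |beta U l| ≤ ∑ l ∈ B, (#l.divisors : ℝ) := sum_le_sum (fun l _ => abs_beta_le U l)
      _ ≤ L * (1 + Real.log L) := sum_card_divisors_le L hL1
      _ ≤ L * ℓ := by gcongr
  have hS2 : ∑ l ∈ B, |beta U l| ^ 2 ≤ 2 * Real.sqrt L * (L * ℓ) := by
    calc ∑ l ∈ B, |beta U l| ^ 2 ≤ ∑ l ∈ B, (2 * Real.sqrt L) * (#l.divisors : ℝ) := by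
          apply sum_le_sum
          intro l hl
          rw [hB, mem_Ioc] at hl
          have h1 := abs_beta_le U l
          have h2 : (#l.divisors : ℝ) ≤ 2 * Real.sqrt L := by
            have h3 : (#l.divisors : ℝ) ^ 2 ≤ 4 * l := by exact_mod_cast card_divisors_sq_le l
            have h4 : (l : ℝ) ≤ L := by exact_mod_cast hl.2
            apply abs_le_of_sq_le_sq' _ (by positivity) |>.2
            rw [mul_pow, Real.sq_sqrt (by positivity)]
            linarith
          have h5 := abs_nonneg (beta U l)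
          calc |beta U l| ^ 2 = |beta U l| * |beta U l| := sq _
            _ ≤ (2 * Real.sqrt L) * (#l.divisors : ℝ) := by
              apply mul_le_mul (h1.trans h2) h1 h5 (by positivity)
      _ = (2 * Real.sqrt L) * ∑ l ∈ B, (#l.divisors : ℝ) := by rw [mul_sum]
      _ ≤ (2 * Real.sqrt L) * (L * (1 + Real.log L)) := by
          gcongr
          exact sum_card_divisors_le L hL1
      _ ≤ _ := by gcongr
  have hβ : ∑ l ∈ B, ∑ l' ∈ B, |beta U l| * |beta U l'| *
        ‖∑ m ∈ A, K m l * (starRingEnd ℂ) (K m l')‖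
      ≤ M * (2 * Real.sqrt L * (L * ℓ)) + E * (L * ℓ) ^ 2 := by
    have hterm : ∀ l ∈ B, ∀ l' ∈ B, |beta U l| * |beta U l'| *
        ‖∑ m ∈ A, K m l * (starRingEnd ℂ) (K m l')‖
        ≤ (if l = l' then M * |beta U l| ^ 2 else 0) + E * (|beta U l| * |beta U l'|) := by
      intro l hl l' hl'
      rw [hB, mem_Ioc] at hl hl'
      have p1 := abs_nonneg (beta U l)
      have p2 := abs_nonneg (beta U l')
      rcases lt_trichotomy l l' with h | h | h
      · rw [if_neg h.ne, zero_add]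
        have := hoff l l' hl.1 h hl'.2
        calc _ ≤ |beta U l| * |beta U l'| * E := by gcongr
          _ = _ := by ring
      · subst h
        rw [if_pos rfl]
        have := hdiag l
        calc _ ≤ |beta U l| * |beta U l| * M := by gcongr
          _ = M * |beta U l| ^ 2 + 0 := by ring
          _ ≤ _ := by gcongr; positivity
      · rw [if_neg h.ne', zero_add, hsymm]
        have := hoff l' l hl'.1 h hl.2
        calc _ ≤ |beta U l| * |beta U l'| * E := by gcongr
          _ = _ := by ring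
    calc _ ≤ ∑ l ∈ B, ∑ l' ∈ B, ((if l = l' then M * |beta U l| ^ 2 else 0)
          + E * (|beta U l| * |beta U l'|)) :=
          sum_le_sum (fun l hl => sum_le_sum (fun l' hl' => hterm l hl l' hl'))
      _ = M * ∑ l ∈ B, |beta U l| ^ 2 + E * (∑ l ∈ B, |beta U l|) ^ 2 := by
          simp_rw [sum_add_distrib]
          congr 1
          · rw [mul_sum]
            apply sum_congr rfl
            intro l hl
            rw [sum_ite_eq, if_pos hl]
          · rw [sq, sum_mul_sum, mul_sum]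
            apply sum_congr rfl
            intro l _
            rw [mul_sum]
      _ ≤ _ := by
          have hS1' : 0 ≤ ∑ l ∈ B, |beta U l| := sum_nonneg (fun _ _ => abs_nonneg _)
          gcongr
  exact mul_le_mul hα hβ (sum_nonneg (fun _ _ => sum_nonneg (fun _ _ => by positivity)))
    (by positivity)

end Pool.Agent.H24.Sqf
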