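import Mathlib
import Pool.Agent.H24.Sqf.TypeII

namespace Pool.Agent.H24.Sqf

open Finset ArithmeticFunction
open scoped ArithmeticFunction.Moebius ArithmeticFunction.zeta

theorem sum_Ioc_inv_le (n : ℕ) : ∑ d ∈ Ioc 0 n, (1 : ℝ) / d ≤ 1 + Real.log n := by
  have : Ioc 0 n = Ico 1 (n + 1) := by ext x; simp only [mem_Ioc, mem_Ico]; omega
  rw [this]
  exact sum_inv_le (n + 1) n le_rfl

theorem sum_Ioc_dyadic (g : ℕ → ℂ) (I : ℕ) :
    ∑ m ∈ Ioc 0 (2 ^ I), g m = g 1 + ∑ i ∈ range I, ∑ m ∈ Ioc (2 ^ i) (2 * 2 ^ i), g m := by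
  induction I with
  | zero =>
    have : Ioc 0 (2 ^ 0) = ({1} : Finset ℕ) := rfl
    rw [this]
    simp
  | succ I ih =>
    rw [sum_range_succ, ← add_assoc, ← ih]
    have e1 : 2 ^ (I + 1) = 2 * 2 ^ I := by ring
    rw [e1]
    have e2 : Ioc 0 (2 * 2 ^ I) = Ioc 0 (2 ^ I) ∪ Ioc (2 ^ I) (2 * 2 ^ I) := by
      ext x
      have : 0 < 2 ^ I := by positivity
      simp only [mem_union, mem_Ioc]
      omega
    rw [e2, sum_union]
    rw [Finset.disjoint_left]
    intro x hx hx'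
    rw [mem_Ioc] at hx hx'
    omega

theorem inv_pow_sub_ge (j l l' : ℕ) (hj : 1 ≤ j) (hl : 0 < l) (hll : l < l') :
    1 / ((l' : ℝ) ^ (j + 1)) ≤ 1 / (l : ℝ) ^ j - 1 / (l' : ℝ) ^ j := by
  obtain ⟨i, rfl⟩ : ∃ i, j = i + 1 := ⟨j - 1, by omega⟩
  have hlR : (0 : ℝ) < l := by exact_mod_cast hl
  have hl'R : (0 : ℝ) < l' := by
    have : 0 < l' := by omega
    exact_mod_cast this
  have hle : (l : ℝ) + 1 ≤ l' := by exact_mod_cast hll
  have h1 : (l : ℝ) ^ (i + 1) + (l' : ℝ) ^ i ≤ (l' : ℝ) ^ (i + 1) := by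
    have h2 : (l : ℝ) ^ i ≤ (l' : ℝ) ^ i := pow_le_pow_left₀ hlR.le (by linarith) i
    calc (l : ℝ) ^ (i + 1) + (l' : ℝ) ^ i = l * (l : ℝ) ^ i + (l' : ℝ) ^ i := by ring
      _ ≤ l * (l' : ℝ) ^ i + (l' : ℝ) ^ i := by gcongr
      _ = (l + 1) * (l' : ℝ) ^ i := by ring
      _ ≤ l' * (l' : ℝ) ^ i := by gcongr
      _ = (l' : ℝ) ^ (i + 1) := by ring
  rw [div_sub_div _ _ (by positivity) (by positivity), div_le_div_iff₀ (by positivity) (by positivity)]
  have h3 : (l : ℝ) ^ (i + 1) ≤ (l' : ℝ) ^ (i + 1) := pow_le_pow_left₀ hlR.le (by linarith) _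
  calc 1 * ((l : ℝ) ^ (i + 1) * (l' : ℝ) ^ (i + 1)) ≤ (l' : ℝ) ^ (i + 1) * (l' : ℝ) ^ (i + 1) := by
        rw [one_mul]; gcongr
    _ = (l' : ℝ) ^ i * (l' : ℝ) ^ (i + 1 + 1) := by ring
    _ ≤ (1 * (l' : ℝ) ^ (i + 1) - (l : ℝ) ^ (i + 1) * 1) * (l' : ℝ) ^ (i + 1 + 1) := by
        gcongr
        linarith

/-- explicit form of the bound -/
theorem exp_prime_explicit (j A : ℕ) (hj : 1 ≤ j) : ∃ K τ : ℝ, 0 < K ∧ 0 < τ ∧ τ ≤ 1 / 2 ∧
    ∀ P : ℕ, 64 ≤ P → 2 ^ (j + 1) ≤ P → ∀ F : ℝ, (P : ℝ) ^ 2 ≤ |F| / (P : ℝ) ^ j →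
      |F| / (P : ℝ) ^ j ≤ (P : ℝ) ^ A →
      ‖∑ n ∈ Ioc P (2 * P), ((Λ n : ℝ) : ℂ) * e (F / (n : ℝ) ^ j)‖
        ≤ P * (K * (1 + Real.log (2 * P)) ^ 3 * (⌊(P : ℝ) ^ (1 / 3 : ℝ)⌋₊ : ℝ) ^ (-(τ / 2))) := by
  obtain ⟨C, τ₀, hC, hτ₀, hτ₀1, hmono⟩ := mono_sum j (9 * A + j) hj
  set τ : ℝ := min τ₀ (1 / 2) with hτdef
  have hτ : 0 < τ := by positivity
  have hττ : τ ≤ τ₀ := min_le_left _ _
  have hτh : τ ≤ 1 / 2 := min_le_right _ _
  refine ⟨11 * C + 8, τ, by positivity, hτ, hτh, ?_⟩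
  intro P hP64 hPj F hF1 hF2
  set U : ℕ := ⌊(P : ℝ) ^ (1 / 3 : ℝ)⌋₊ with hU
  set ℓ : ℝ := 1 + Real.log (2 * P) with hℓ
  have hPR : (64 : ℝ) ≤ P := by exact_mod_cast hP64
  have hPpos : (0 : ℝ) < P := by linarith
  have hcube : ((P : ℝ) ^ (1 / 3 : ℝ)) ^ 3 = P := by
    rw [← Real.rpow_natCast, ← Real.rpow_mul hPpos.le]
    norm_num
  have hU3 : U ^ 3 ≤ P := by
    have h1 : (U : ℝ) ≤ (P : ℝ) ^ (1 / 3 : ℝ) := Nat.floor_le (by positivity)
    have h2 : (U : ℝ) ^ 3 ≤ (P : ℝ) := by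
      rw [← hcube]
      gcongr
    exact_mod_cast h2
  have hU4 : 4 ≤ U := by
    apply Nat.le_floor
    have h1 : ((4 : ℕ) : ℝ) = (64 : ℝ) ^ (1 / 3 : ℝ) := by
      rw [show (64 : ℝ) = (4 : ℝ) ^ (3 : ℝ) by norm_num, ← Real.rpow_mul (by norm_num)]
      norm_num
    rw [h1]
    gcongr
  have hPU : P ≤ 8 * U ^ 3 := by
    have h1 : (P : ℝ) ^ (1 / 3 : ℝ) < U + 1 := Nat.lt_floor_add_one _
    have hU4R : (4 : ℝ) ≤ U := by exact_mod_cast hU4
    have h2 : (P : ℝ) ≤ 8 * (U : ℝ) ^ 3 := by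
      calc (P : ℝ) = ((P : ℝ) ^ (1 / 3 : ℝ)) ^ 3 := hcube.symm
        _ ≤ ((U : ℝ) + 1) ^ 3 := by gcongr
        _ ≤ (2 * (U : ℝ)) ^ 3 := by gcongr; linarith
        _ = 8 * (U : ℝ) ^ 3 := by ring
    exact_mod_cast h2
  have hUpos : (0 : ℝ) < U := by
    have : 0 < U := by omega
    exact_mod_cast this
  have hU1 : (1 : ℝ) ≤ U := by
    have : 1 ≤ U := by omega
    exact_mod_cast this
  have hU2P : U ^ 2 ≤ P := by
    calc U ^ 2 ≤ U ^ 3 := Nat.pow_le_pow_right (by omega) (by norm_num)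
      _ ≤ P := hU3
  have hUP : U ≤ P := by
    calc U ≤ U ^ 2 := Nat.le_self_pow (by norm_num) U
      _ ≤ P := hU2P
  have hℓ1 : 1 ≤ ℓ := by
    rw [hℓ]
    have : 0 ≤ Real.log (2 * P) := Real.log_nonneg (by linarith)
    linarith
  have hlogn : ∀ n : ℕ, n ≤ 2 * P → 1 + Real.log n ≤ ℓ := by
    intro n hn
    rcases Nat.eq_zero_or_pos n with h0 | h0
    · rw [h0]; simpa using hℓ1
    · rw [hℓ]
      have : Real.log n ≤ Real.log (2 * P) := by
        apply Real.log_le_log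
        · exact_mod_cast h0
        · exact_mod_cast hn
      linarith
  set w : ℕ → ℂ := fun n => e (F / (n : ℝ) ^ j) with hw
  have hw1 : ∀ n, ‖w n‖ ≤ 1 := fun n => by simp only [hw]; rw [norm_e]
  have hUτ : 0 < (U : ℝ) ^ (-τ) := Real.rpow_pos_of_pos hUpos _
  -- type I kernel
  have hI : ∀ d : ℕ, 0 < d → d ≤ U ^ 2 → ∀ b' ≤ 2 * P / d,
      ‖∑ m ∈ Ioc (P / d) b', w (d * m)‖ ≤ C * ((P : ℝ) / d) * (U : ℝ) ^ (-τ) := by
    intro d hd hdU b' hb'
    have hdR : (0 : ℝ) < d := by exact_mod_cast hd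
    set M : ℕ := P / d with hM
    have hMU : U ≤ M := by
      rw [hM, Nat.le_div_iff_mul_le hd]
      calc U * d ≤ U * U ^ 2 := Nat.mul_le_mul_left _ hdU
        _ = U ^ 3 := by ring
        _ ≤ P := hU3
    have hMUR : (U : ℝ) ≤ M := by exact_mod_cast hMU
    have hMpos : (0 : ℝ) < M := by linarith
    have hdM : d * M ≤ P := Nat.mul_div_le P d
    have hdMR : (d : ℝ) * M ≤ P := by exact_mod_cast hdM
    have hdM2 : P ≤ 2 * (d * M) := by
      have h1 : P < d * (M + 1) := by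
        rw [hM]
        exact Nat.lt_mul_div_succ P hd
      have h2 : M + 1 ≤ 2 * M := by omega
      calc P ≤ d * (M + 1) := h1.le
        _ ≤ d * (2 * M) := Nat.mul_le_mul_left _ h2
        _ = 2 * (d * M) := by ring
    have hdM2R : (P : ℝ) ≤ 2 * (d * M) := by exact_mod_cast hdM2
    have hb4 : b' ≤ 4 * M := by
      have h1 : 2 * P / d ≤ 4 * M := by
        have : 2 * P / d < 4 * M + 1 := by
          rw [Nat.div_lt_iff_lt_mul hd]
          nlinarith
        omega
      omega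
    have hres := hmono M (F / (d : ℝ) ^ j) (by omega) ?_ ?_ M b' le_rfl hb4
    · have e1 : ∑ m ∈ Ioc M b', w (d * m) = ∑ n ∈ Ioc M b', e (F / (d : ℝ) ^ j / (n : ℝ) ^ j) := by
        apply sum_congr rfl
        intro m _
        simp only [hw]
        congr 1
        push_cast
        rw [mul_pow, div_div]
      rw [e1]
      refine hres.trans ?_
      have hM1 : (1 : ℝ) ≤ M := by linarith
      calc C * (M : ℝ) ^ (1 - τ₀) ≤ C * (M : ℝ) ^ (1 - τ) := by
            gcongr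
        _ = C * (M * (M : ℝ) ^ (-τ)) := by
            rw [sub_eq_add_neg, Real.rpow_add hMpos, Real.rpow_one]
        _ ≤ C * (((P : ℝ) / d) * (U : ℝ) ^ (-τ)) := by
            have h1 : (M : ℝ) ≤ (P : ℝ) / d := by
              rw [le_div_iff₀ hdR]; linarith
            have h2 : (M : ℝ) ^ (-τ) ≤ (U : ℝ) ^ (-τ) :=
              Real.rpow_le_rpow_of_nonpos hUpos hMUR (by linarith)
            gcongr
        _ = _ := by ring
    · -- lower bound
      rw [abs_div, abs_of_pos (show (0 : ℝ) < (d : ℝ) ^ j by positivity), div_div, ← mul_pow]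
      calc (M : ℝ) ≤ P := by
            have : 1 ≤ (d : ℝ) := by exact_mod_cast hd
            nlinarith
        _ ≤ (P : ℝ) ^ 2 := by nlinarith
        _ ≤ |F| / (P : ℝ) ^ j := hF1
        _ ≤ |F| / ((d : ℝ) * M) ^ j := by gcongr
    · -- upper bound
      rw [abs_div, abs_of_pos (show (0 : ℝ) < (d : ℝ) ^ j by positivity), div_div, ← mul_pow]
      have hM4 : (4 : ℝ) ≤ M := by
        have : 4 ≤ M := by omega
        exact_mod_cast this
      calc |F| / ((d : ℝ) * M) ^ j ≤ |F| / ((P : ℝ) / 2) ^ j := by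
            gcongr
            linarith
        _ = 2 ^ j * (|F| / (P : ℝ) ^ j) := by
            rw [div_pow]; field_simp
        _ ≤ 2 ^ j * (P : ℝ) ^ A := by gcongr
        _ ≤ 2 ^ j * (8 * (M : ℝ) ^ 3) ^ A := by
            gcongr
            calc (P : ℝ) ≤ 8 * (U : ℝ) ^ 3 := by exact_mod_cast hPU
              _ ≤ 8 * (M : ℝ) ^ 3 := by gcongr
        _ = 2 ^ j * 8 ^ A * (M : ℝ) ^ (3 * A) := by
            rw [mul_pow, ← pow_mul]; ring
        _ ≤ (M : ℝ) ^ j * ((M : ℝ) ^ 6) ^ A * (M : ℝ) ^ (3 * A) := by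
            gcongr
            · linarith
            · calc (8 : ℝ) ≤ 4 ^ 6 := by norm_num
                _ ≤ (M : ℝ) ^ 6 := by gcongr
        _ = (M : ℝ) ^ (9 * A + j) := by
            rw [← pow_mul]; ring
  -- the first type I sum
  have hT1 : ‖tw w P (2 * P) (trunc U (μ : ArithmeticFunction ℝ) * log)‖
      ≤ 2 * C * P * ℓ ^ 2 * (U : ℝ) ^ (-τ) := by
    rw [tw_mul]
    have h1 : ∀ d ∈ Ioc 0 (2 * P), ‖((trunc U (μ : ArithmeticFunction ℝ) d : ℝ) : ℂ) *
        ∑ m ∈ Ioc (P / d) (2 * P / d), ((log m : ℝ) : ℂ) * w (d * m)‖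
        ≤ if d ≤ U then (2 * ℓ * (C * P * (U : ℝ) ^ (-τ))) * (1 / (d : ℝ)) else 0 := by
      intro d hd
      rw [mem_Ioc] at hd
      by_cases hdU : d ≤ U
      · rw [if_pos hdU, norm_mul, Complex.norm_real, Real.norm_eq_abs]
        have hdR : (0 : ℝ) < d := by exact_mod_cast hd.1
        have h2 := abs_trunc_moebius_le U d
        have h3 : 1 ≤ 2 * P / d := by
          rw [Nat.le_div_iff_mul_le hd.1]; omega
        have hdU2 : d ≤ U ^ 2 := hdU.trans (Nat.le_self_pow (by norm_num) U)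
        have h4 := sum_log_mul (fun m => w (d * m)) (P / d) (2 * P / d)
          (C * ((P : ℝ) / d) * (U : ℝ) ^ (-τ)) h3 (by positivity) (hI d hd.1 hdU2)
        have h5 : Real.log ((2 * P / d : ℕ) : ℝ) ≤ ℓ := by
          have := hlogn (2 * P / d) (Nat.div_le_self _ _)
          linarith
        have h6 : 0 ≤ Real.log ((2 * P / d : ℕ) : ℝ) := Real.log_nonneg (by exact_mod_cast h3)
        calc _ ≤ 1 * (2 * Real.log ((2 * P / d : ℕ) : ℝ) * (C * ((P : ℝ) / d) * (U : ℝ) ^ (-τ))) := by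
              gcongr
              exact h4
          _ ≤ 1 * (2 * ℓ * (C * ((P : ℝ) / d) * (U : ℝ) ^ (-τ))) := by gcongr
          _ = _ := by ring
      · rw [if_neg hdU, trunc_apply, if_neg hdU]
        simp
    calc _ ≤ ∑ d ∈ Ioc 0 (2 * P), (if d ≤ U then (2 * ℓ * (C * P * (U : ℝ) ^ (-τ))) * (1 / (d : ℝ)) else 0) :=
          (norm_sum_le _ _).trans (sum_le_sum h1)
      _ = ∑ d ∈ Ioc 0 U, (2 * ℓ * (C * P * (U : ℝ) ^ (-τ))) * (1 / (d : ℝ)) := by
          rw [← sum_filter]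
          apply sum_congr
          · ext d; simp only [mem_filter, mem_Ioc]; omega
          · intro _ _; rfl
      _ = (2 * ℓ * (C * P * (U : ℝ) ^ (-τ))) * ∑ d ∈ Ioc 0 U, (1 / (d : ℝ)) := by rw [mul_sum]
      _ ≤ (2 * ℓ * (C * P * (U : ℝ) ^ (-τ))) * ℓ := by
          gcongr
          exact (sum_Ioc_inv_le U).trans (hlogn U (by omega))
      _ = _ := by ring
  -- the second type I sum
  have hT2 : ‖tw w P (2 * P) ((trunc U (μ : ArithmeticFunction ℝ) * trunc U Λ)
      * (ζ : ArithmeticFunction ℝ))‖ ≤ C * P * ℓ ^ 2 * (U : ℝ) ^ (-τ) := by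
    rw [tw_mul]
    have h1 : ∀ d ∈ Ioc 0 (2 * P), ‖(((trunc U (μ : ArithmeticFunction ℝ) * trunc U Λ) d : ℝ) : ℂ) *
        ∑ m ∈ Ioc (P / d) (2 * P / d), (((ζ : ArithmeticFunction ℝ) m : ℝ) : ℂ) * w (d * m)‖
        ≤ if d ≤ U ^ 2 then (ℓ * (C * P * (U : ℝ) ^ (-τ))) * (1 / (d : ℝ)) else 0 := by
      intro d hd
      rw [mem_Ioc] at hd
      by_cases hdU : d ≤ U ^ 2
      · rw [if_pos hdU, norm_mul, Complex.norm_real, Real.norm_eq_abs]
        have hdR : (0 : ℝ) < d := by exact_mod_cast hd.1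
        have h2 := (abs_conv_le U d).trans (show Real.log d ≤ ℓ by
          have := hlogn d hd.2
          linarith)
        have h3 : ∑ m ∈ Ioc (P / d) (2 * P / d), (((ζ : ArithmeticFunction ℝ) m : ℝ) : ℂ) * w (d * m)
            = ∑ m ∈ Ioc (P / d) (2 * P / d), w (d * m) := by
          apply sum_congr rfl
          intro m hm
          rw [mem_Ioc] at hm
          have : m ≠ 0 := by
            rintro rfl
            exact absurd hm.1 (Nat.not_lt_zero _)
          rw [ArithmeticFunction.natCoe_apply, ArithmeticFunction.zeta_apply_ne this]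
          simp
        rw [h3]
        have h4 := hI d hd.1 hdU _ le_rfl
        calc _ ≤ ℓ * (C * ((P : ℝ) / d) * (U : ℝ) ^ (-τ)) := by gcongr
          _ = _ := by ring
      · rw [if_neg hdU, conv_eq_zero U d (by omega)]
        simp
    calc _ ≤ ∑ d ∈ Ioc 0 (2 * P), (if d ≤ U ^ 2 then (ℓ * (C * P * (U : ℝ) ^ (-τ))) * (1 / (d : ℝ)) else 0) :=
          (norm_sum_le _ _).trans (sum_le_sum h1)
      _ = ∑ d ∈ Ioc 0 (U ^ 2), (ℓ * (C * P * (U : ℝ) ^ (-τ))) * (1 / (d : ℝ)) := by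
          rw [← sum_filter]
          apply sum_congr
          · ext d; simp only [mem_filter, mem_Ioc]; omega
          · intro _ _; rfl
      _ = (ℓ * (C * P * (U : ℝ) ^ (-τ))) * ∑ d ∈ Ioc 0 (U ^ 2), (1 / (d : ℝ)) := by rw [mul_sum]
      _ ≤ (ℓ * (C * P * (U : ℝ) ^ (-τ))) * ℓ := by
          gcongr
          exact (sum_Ioc_inv_le (U ^ 2)).trans (hlogn (U ^ 2) (by omega))
      _ = _ := by ring
  -- the type II sum
  have hT3 : ‖tw w P (2 * P) ((Λ - trunc U Λ) * beta U)‖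
      ≤ 4 * (2 + 2 * C) * P * ℓ ^ 3 * (U : ℝ) ^ (-(τ / 2)) := by
    rw [tw_mul]
    set g : ℕ → ℂ := fun m => (((Λ - trunc U Λ) m : ℝ) : ℂ) *
      ∑ l ∈ Ioc (P / m) (2 * P / m), ((beta U l : ℝ) : ℂ) * w (m * l) with hg
    set I : ℕ := Nat.log 2 (2 * P) + 1 with hIdef
    have hI2 : 2 * P < 2 ^ I := Nat.lt_pow_succ_log_self (by norm_num) _
    have hg1 : g 1 = 0 := by
      simp only [hg]
      have : (Λ - trunc U Λ) 1 = Λ 1 - trunc U Λ 1 := rfl
      rw [this, trunc_apply, if_pos (by omega), sub_self]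
      simp
    have hext : ∑ m ∈ Ioc 0 (2 * P), g m = ∑ m ∈ Ioc 0 (2 ^ I), g m := by
      apply sum_subset
      · intro m hm
        rw [mem_Ioc] at *
        omega
      · intro m hm hm'
        rw [mem_Ioc] at *
        simp only [hg]
        have h1 : P / m = 0 := Nat.div_eq_of_lt (by omega)
        have h2 : 2 * P / m = 0 := Nat.div_eq_of_lt (by omega)
        rw [h1, h2]
        simp
    rw [hext, sum_Ioc_dyadic, hg1, zero_add]
    have hblock : ∀ i ∈ range I, ‖∑ m ∈ Ioc (2 ^ i) (2 * 2 ^ i), g m‖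
        ≤ 2 * (2 + 2 * C) * P * ℓ ^ 2 * (U : ℝ) ^ (-(τ / 2)) := by
      intro i _
      set M : ℕ := 2 ^ i with hM
      have hM1 : 1 ≤ M := Nat.one_le_two_pow
      by_cases ha : 2 * M ≤ U
      · have : ∑ m ∈ Ioc M (2 * M), g m = 0 := by
          apply sum_eq_zero
          intro m hm
          rw [mem_Ioc] at hm
          simp only [hg]
          have h2 : (Λ - trunc U Λ) m = Λ m - trunc U Λ m := rfl
          rw [h2, trunc_apply, if_pos (by omega), sub_self]
          simp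
        rw [this, norm_zero]
        positivity
      by_cases hb : 2 * P / M ≤ U
      · have : ∑ m ∈ Ioc M (2 * M), g m = 0 := by
          apply sum_eq_zero
          intro m hm
          rw [mem_Ioc] at hm
          simp only [hg]
          have : ∑ l ∈ Ioc (P / m) (2 * P / m), ((beta U l : ℝ) : ℂ) * w (m * l) = 0 := by
            apply sum_eq_zero
            intro l hl
            rw [mem_Ioc] at hl
            have h3 : 2 * P / m ≤ 2 * P / M := Nat.div_le_div_left hm.1.le (by omega)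
            rw [beta_eq_zero U l (by omega)]
            simp
          rw [this, mul_zero]
        rw [this, norm_zero]
        positivity
      push Not at ha hb
      set L : ℕ := 2 * P / M with hL
      have hML : M * L ≤ 2 * P := Nat.mul_div_le (2 * P) M
      have hMLR : (M : ℝ) * L ≤ 2 * P := by exact_mod_cast hML
      have hM3 : 3 ≤ M := by omega
      have hM2P : M ≤ 2 * P := by
        calc M = M * 1 := (mul_one M).symm
          _ ≤ M * L := Nat.mul_le_mul_left _ (by omega)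
          _ ≤ 2 * P := hML
      have hMR1 : (1 : ℝ) ≤ M := by exact_mod_cast hM1
      have hMpos : (0 : ℝ) < M := by linarith
      have hLpos : (0 : ℝ) < L := by
        have : 0 < L := by omega
        exact_mod_cast this
      have hblk := typeII_block w hw1 P U M L (C * (M : ℝ) ^ (1 - τ)) ℓ hM1 le_rfl (by omega)
        (by positivity) ?_ (hlogn L (Nat.div_le_self _ _)) ?_
      · -- conclude
        have hfin : (M * ℓ ^ 2) * (M * (2 * Real.sqrt L * (L * ℓ)) + C * (M : ℝ) ^ (1 - τ) * (L * ℓ) ^ 2)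
            ≤ (2 * (2 + 2 * C) * P * ℓ ^ 2 * (U : ℝ) ^ (-(τ / 2))) ^ 2 := by
          have hUL : (U : ℝ) ≤ L := by exact_mod_cast hb.le
          have hsq : Real.sqrt L * (L : ℝ) = (L : ℝ) ^ 2 * (L : ℝ) ^ (-(1 / 2) : ℝ) := by
            rw [Real.sqrt_eq_rpow, ← Real.rpow_natCast (L : ℝ) 2]
            nth_rewrite 2 [← Real.rpow_one (L : ℝ)]
            rw [← Real.rpow_add hLpos, ← Real.rpow_add hLpos]
            norm_num
          have hMτ : (M : ℝ) ^ (1 - τ) = M * (M : ℝ) ^ (-τ) := by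
            rw [sub_eq_add_neg, Real.rpow_add hMpos, Real.rpow_one]
          have h1 : (L : ℝ) ^ (-(1 / 2) : ℝ) ≤ (U : ℝ) ^ (-τ) := by
            calc (L : ℝ) ^ (-(1 / 2) : ℝ) ≤ (U : ℝ) ^ (-(1 / 2) : ℝ) :=
                  Real.rpow_le_rpow_of_nonpos hUpos hUL (by norm_num)
              _ ≤ (U : ℝ) ^ (-τ) := Real.rpow_le_rpow_of_exponent_le hU1 (by linarith)
          have h2 : (M : ℝ) ^ (-τ) ≤ 2 * (U : ℝ) ^ (-τ) := by
            have h3 : (U : ℝ) / 2 ≤ M := by
              have : (U : ℝ) < 2 * M := by exact_mod_cast ha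
              linarith
            calc (M : ℝ) ^ (-τ) ≤ ((U : ℝ) / 2) ^ (-τ) :=
                  Real.rpow_le_rpow_of_nonpos (by positivity) h3 (by linarith)
              _ = (U : ℝ) ^ (-τ) * 2 ^ τ := by
                  rw [Real.div_rpow hUpos.le (by norm_num), Real.rpow_neg (by norm_num : (0 : ℝ) ≤ 2)]
                  field_simp
              _ ≤ (U : ℝ) ^ (-τ) * 2 := by
                  gcongr
                  calc (2 : ℝ) ^ τ ≤ 2 ^ (1 : ℝ) :=
                        Real.rpow_le_rpow_of_exponent_le (by norm_num) (by linarith)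
                    _ = 2 := Real.rpow_one 2
              _ = _ := by ring
          have h4 : ((M : ℝ) * L) ^ 2 ≤ (2 * P) ^ 2 := by gcongr
          have hℓ34 : ℓ ^ 3 ≤ ℓ ^ 4 := pow_le_pow_right₀ hℓ1 (by norm_num)
          calc (M * ℓ ^ 2) * (M * (2 * Real.sqrt L * (L * ℓ)) + C * (M : ℝ) ^ (1 - τ) * (L * ℓ) ^ 2)
              = 2 * (M : ℝ) ^ 2 * (Real.sqrt L * L) * ℓ ^ 3
                + C * M * (M : ℝ) ^ (1 - τ) * (L : ℝ) ^ 2 * ℓ ^ 4 := by ring
            _ = 2 * (((M : ℝ) * L) ^ 2 * (L : ℝ) ^ (-(1 / 2) : ℝ)) * ℓ ^ 3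
                + C * (((M : ℝ) * L) ^ 2 * (M : ℝ) ^ (-τ)) * ℓ ^ 4 := by
                rw [hsq, hMτ]; ring
            _ ≤ 2 * ((2 * P) ^ 2 * (U : ℝ) ^ (-τ)) * ℓ ^ 4
                + C * ((2 * P) ^ 2 * (2 * (U : ℝ) ^ (-τ))) * ℓ ^ 4 := by gcongr
            _ = (2 + 2 * C) * (2 * P) ^ 2 * ℓ ^ 4 * (U : ℝ) ^ (-τ) := by ring
            _ ≤ (2 + 2 * C) ^ 2 * (2 * P) ^ 2 * ℓ ^ 4 * (U : ℝ) ^ (-τ) := by
                gcongr
                nlinarith
            _ = (2 * (2 + 2 * C) * P * ℓ ^ 2 * (U : ℝ) ^ (-(τ / 2))) ^ 2 := by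
                have : (U : ℝ) ^ (-τ) = ((U : ℝ) ^ (-(τ / 2))) ^ 2 := by
                  rw [← Real.rpow_natCast ((U : ℝ) ^ (-(τ / 2))) 2, ← Real.rpow_mul hUpos.le]
                  congr 1; push_cast; ring
                rw [this]; ring
        exact abs_le_of_sq_le_sq' (hblk.trans hfin) (by positivity) |>.2
      · -- log (2 M) ≤ ℓ
        have h1 : Real.log (2 * (M : ℝ)) ≤ Real.log (2 * (2 * P)) := by
          apply Real.log_le_log (by positivity)
          have : (M : ℝ) ≤ 2 * P := by exact_mod_cast hM2P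
          linarith
        have h2 : Real.log (2 * (2 * (P : ℝ))) = Real.log 2 + Real.log (2 * P) :=
          Real.log_mul (by norm_num) (by positivity)
        have h3 : Real.log 2 < 1 := by
          have := Real.log_two_lt_d9
          linarith
        rw [hℓ]
        linarith
      · -- kernel
        intro l l' hl hll hl'
        set a := max M (max (P / l) (P / l')) with haa
        set b := min (2 * M) (min (2 * P / l) (2 * P / l')) with hbb
        rcases le_or_gt b a with hab | hab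
        · rw [Ioc_eq_empty_of_le hab]
          simp only [sum_empty, norm_zero]
          positivity
        have haM : M ≤ a := le_max_left _ _
        have hbM : b ≤ 2 * M := min_le_left _ _
        have hlR : (0 : ℝ) < l := by exact_mod_cast hl
        have hl'R : (0 : ℝ) < l' := by
          have : 0 < l' := by omega
          exact_mod_cast this
        have hllR : (l : ℝ) < l' := by exact_mod_cast hll
        have hl'L : (l' : ℝ) ≤ L := by exact_mod_cast hl'
        set G : ℝ := F / (l : ℝ) ^ j - F / (l' : ℝ) ^ j with hG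
        have hGabs : |G| = |F| * (1 / (l : ℝ) ^ j - 1 / (l' : ℝ) ^ j) := by
          have h1 : 0 ≤ 1 / (l : ℝ) ^ j - 1 / (l' : ℝ) ^ j :=
            le_trans (by positivity) (inv_pow_sub_ge j l l' hj hl hll)
          have h2 : G = F * (1 / (l : ℝ) ^ j - 1 / (l' : ℝ) ^ j) := by rw [hG]; ring
          rw [h2, abs_mul, abs_of_nonneg h1]
        have hres := hmono M G hM1 ?_ ?_ a b haM (by omega)
        · have e1 : ∑ m ∈ Ioc a b, w (m * l) * (starRingEnd ℂ) (w (m * l'))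
              = ∑ n ∈ Ioc a b, e (G / (n : ℝ) ^ j) := by
            apply sum_congr rfl
            intro m _
            simp only [hw]
            rw [← e_sub]
            congr 1
            push_cast
            rw [hG, mul_pow, mul_pow, sub_div, div_div, div_div, mul_comm ((m : ℝ) ^ j) ((l : ℝ) ^ j),
              mul_comm ((m : ℝ) ^ j) ((l' : ℝ) ^ j)]
          rw [e1]
          refine hres.trans ?_
          gcongr
        · -- lower bound
          rw [hGabs, le_div_iff₀ (by positivity)]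
          have h1 := inv_pow_sub_ge j l l' hj hl hll
          have h2 : 1 / (L : ℝ) ^ (j + 1) ≤ 1 / (l : ℝ) ^ j - 1 / (l' : ℝ) ^ j := by
            refine le_trans ?_ h1
            gcongr
          have h3 : (M : ℝ) * (M : ℝ) ^ j ≤ |F| * (1 / (L : ℝ) ^ (j + 1)) := by
            rw [mul_one_div, le_div_iff₀ (by positivity)]
            rw [le_div_iff₀ (by positivity)] at hF1
            calc (M : ℝ) * (M : ℝ) ^ j * (L : ℝ) ^ (j + 1) = ((M : ℝ) * L) ^ (j + 1) := by
                  rw [mul_pow]; ring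
              _ ≤ (2 * P) ^ (j + 1) := by gcongr
              _ = 2 ^ (j + 1) * (P : ℝ) ^ (j + 1) := by rw [mul_pow]
              _ ≤ P * (P : ℝ) ^ (j + 1) := by
                  gcongr
                  exact_mod_cast hPj
              _ = (P : ℝ) ^ 2 * (P : ℝ) ^ j := by ring
              _ ≤ |F| := hF1
          calc (M : ℝ) * (M : ℝ) ^ j ≤ |F| * (1 / (L : ℝ) ^ (j + 1)) := h3
            _ ≤ _ := by gcongr
        · -- upper bound
          have hex : P < 2 * M * l := by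
            have h1 : P / l ≤ a := (le_max_left _ _).trans (le_max_right _ _)
            have h2 : P / l < 2 * M := by omega
            rw [Nat.div_lt_iff_lt_mul hl] at h2
            exact h2
          have hexR : (P : ℝ) ≤ 2 * M * l := by exact_mod_cast hex.le
          have hM3R : (3 : ℝ) ≤ M := by exact_mod_cast hM3
          rw [hGabs]
          calc |F| * (1 / (l : ℝ) ^ j - 1 / (l' : ℝ) ^ j) / (M : ℝ) ^ j
              ≤ |F| * (1 / (l : ℝ) ^ j) / (M : ℝ) ^ j := by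
                gcongr
                have : 0 ≤ 1 / (l' : ℝ) ^ j := by positivity
                linarith
            _ = |F| / ((M : ℝ) * l) ^ j := by
                rw [mul_pow]; field_simp
            _ ≤ |F| / ((P : ℝ) / 2) ^ j := by
                gcongr
                linarith
            _ = 2 ^ j * (|F| / (P : ℝ) ^ j) := by
                rw [div_pow]; field_simp
            _ ≤ 2 ^ j * (P : ℝ) ^ A := by gcongr
            _ ≤ 2 ^ j * (64 * (M : ℝ) ^ 3) ^ A := by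
                gcongr
                calc (P : ℝ) ≤ 8 * (U : ℝ) ^ 3 := by exact_mod_cast hPU
                  _ ≤ 8 * (2 * (M : ℝ)) ^ 3 := by
                      gcongr
                      exact_mod_cast ha.le
                  _ = 64 * (M : ℝ) ^ 3 := by ring
            _ = 2 ^ j * 64 ^ A * (M : ℝ) ^ (3 * A) := by
                rw [mul_pow, ← pow_mul]; ring
            _ ≤ (M : ℝ) ^ j * ((M : ℝ) ^ 6) ^ A * (M : ℝ) ^ (3 * A) := by
                gcongr
                · linarith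
                · calc (64 : ℝ) ≤ 3 ^ 6 := by norm_num
                    _ ≤ (M : ℝ) ^ 6 := by gcongr
            _ = (M : ℝ) ^ (9 * A + j) := by
                rw [← pow_mul]; ring
    have hIle : (I : ℝ) ≤ 2 * ℓ := by
      have h1 : (Nat.log 2 (2 * P) : ℝ) ≤ Real.log (2 * P) / Real.log 2 := by
        have h2 := Real.natLog_le_logb (2 * P) 2
        rw [Real.logb] at h2
        push_cast at h2
        exact h2
      have h3 : Real.log (2 * P) / Real.log 2 ≤ 2 * Real.log (2 * P) := by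
        rw [div_le_iff₀ (Real.log_pos (by norm_num))]
        have h4 := Real.log_two_gt_d9
        have h5 : 0 ≤ Real.log (2 * P) := Real.log_nonneg (by linarith)
        nlinarith
      rw [hIdef, hℓ]
      push_cast
      have h5 : 0 ≤ Real.log (2 * P) := Real.log_nonneg (by linarith)
      linarith
    calc _ ≤ ∑ i ∈ range I, 2 * (2 + 2 * C) * P * ℓ ^ 2 * (U : ℝ) ^ (-(τ / 2)) :=
          (norm_sum_le _ _).trans (sum_le_sum hblock)
      _ = I * (2 * (2 + 2 * C) * P * ℓ ^ 2 * (U : ℝ) ^ (-(τ / 2))) := by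
          rw [sum_const, card_range, nsmul_eq_mul]
      _ ≤ (2 * ℓ) * (2 * (2 + 2 * C) * P * ℓ ^ 2 * (U : ℝ) ^ (-(τ / 2))) := by gcongr
      _ = _ := by ring
  -- combine
  have hT0 : tw w P (2 * P) (trunc U Λ) = 0 := by
    unfold tw
    apply sum_eq_zero
    intro n hn
    rw [mem_Ioc] at hn
    rw [trunc_apply, if_neg (by omega)]
    simp
  have hmain : ∑ n ∈ Ioc P (2 * P), ((Λ n : ℝ) : ℂ) * e (F / (n : ℝ) ^ j) = tw w P (2 * P) Λ := rfl
  rw [hmain]
  have hv := vaughan U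
  have htot : tw w P (2 * P) Λ = tw w P (2 * P) (trunc U (μ : ArithmeticFunction ℝ) * log)
      - tw w P (2 * P) ((trunc U (μ : ArithmeticFunction ℝ) * trunc U Λ) * (ζ : ArithmeticFunction ℝ))
      + tw w P (2 * P) ((Λ - trunc U Λ) * beta U) := by
    conv_lhs => rw [hv]
    rw [tw_add, tw_sub, tw_add, hT0, zero_add]
    rfl
  rw [htot]
  have hUτ2 : (U : ℝ) ^ (-τ) ≤ (U : ℝ) ^ (-(τ / 2)) :=
    Real.rpow_le_rpow_of_exponent_le hU1 (by linarith)
  have hℓ23 : ℓ ^ 2 ≤ ℓ ^ 3 := pow_le_pow_right₀ hℓ1 (by norm_num)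
  calc _ ≤ ‖tw w P (2 * P) (trunc U (μ : ArithmeticFunction ℝ) * log)‖
        + ‖tw w P (2 * P) ((trunc U (μ : ArithmeticFunction ℝ) * trunc U Λ) * (ζ : ArithmeticFunction ℝ))‖
        + ‖tw w P (2 * P) ((Λ - trunc U Λ) * beta U)‖ := by
        refine (norm_add_le _ _).trans ?_
        gcongr
        exact norm_sub_le _ _
    _ ≤ 2 * C * P * ℓ ^ 2 * (U : ℝ) ^ (-τ) + C * P * ℓ ^ 2 * (U : ℝ) ^ (-τ)
        + 4 * (2 + 2 * C) * P * ℓ ^ 3 * (U : ℝ) ^ (-(τ / 2)) := by gcongr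
    _ ≤ 2 * C * P * ℓ ^ 3 * (U : ℝ) ^ (-(τ / 2)) + C * P * ℓ ^ 3 * (U : ℝ) ^ (-(τ / 2))
        + 4 * (2 + 2 * C) * P * ℓ ^ 3 * (U : ℝ) ^ (-(τ / 2)) := by gcongr
    _ = P * ((11 * C + 8) * ℓ ^ 3 * (U : ℝ) ^ (-(τ / 2))) := by ring

end Pool.Agent.H24.Sqf
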