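import Mathlib

namespace Pool.Agent.H24.Sqf

open Finset Filter Topology

/-- If `s` is approximated to any accuracy (eventually) by convergent sequences, it converges. -/
theorem exists_tendsto_of_approx (s : ℕ → ℝ)
    (h : ∀ ε > 0, ∃ (u : ℕ → ℝ) (l : ℝ), Tendsto u atTop (𝓝 l) ∧ ∀ᶠ N in atTop, |s N - u N| ≤ ε) :
    ∃ γ, Tendsto s atTop (𝓝 γ) := by
  apply cauchySeq_tendsto_of_complete
  rw [Metric.cauchySeq_iff']
  intro ε hε
  obtain ⟨u, l, hu, hs⟩ := h (ε / 5) (by positivity)
  have hu' : ∀ᶠ N in atTop, |u N - l| < ε / 5 := by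
    have := (Metric.tendsto_nhds.1 hu) (ε / 5) (by positivity)
    simpa [Real.dist_eq] using this
  obtain ⟨N₀, hN₀⟩ := eventually_atTop.1 (hs.and hu')
  refine ⟨N₀, fun n hn => ?_⟩
  have h1 := hN₀ n hn
  have h2 := hN₀ N₀ le_rfl
  rw [Real.dist_eq]
  have e1 := abs_le.1 h1.1
  have e2 := abs_lt.1 h1.2
  have e3 := abs_le.1 h2.1
  have e4 := abs_lt.1 h2.2
  rw [abs_lt]
  constructor <;> linarith

/-- weight used to fold a row of Pascal's triangle -/
def w (n k : ℕ) : ℕ := if 2 * k < n then 2 else if 2 * k = n then 1 else 0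

open Classical in
noncomputable def a (n k : ℕ) : ℕ := if Squarefree (n.choose k) then 1 else 0

/-- number of squarefree entries in the first `N` rows -/
noncomputable def S (N : ℕ) : ℕ := ∑ n ∈ range N, ∑ k ∈ range (n + 1), a n k

noncomputable def T (N k : ℕ) : ℕ := ∑ n ∈ range N, w n k * a n k

open Classical in
noncomputable def cnt (N k : ℕ) : ℕ := #{n ∈ range N | 2 * k ≤ n ∧ Squarefree (n.choose k)}

open Classical in
noncomputable def cnt0 (N k : ℕ) : ℕ := #{n ∈ range N | Squarefree (n.choose k)}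

theorem a_le_one (n k : ℕ) : a n k ≤ 1 := by
  unfold a; split_ifs <;> simp

theorem a_symm {n k : ℕ} (h : k ≤ n) : a n (n - k) = a n k := by
  unfold a; rw [Nat.choose_symm h]

theorem row_fold (n : ℕ) : ∑ k ∈ range (n + 1), a n k = ∑ k ∈ range (n + 1), w n k * a n k := by
  classical
  have h1 : ∑ k ∈ range (n + 1), a n k
      = ∑ k ∈ range (n + 1), (if 2 * k < n then 1 else 0) * a n k
        + ∑ k ∈ range (n + 1), (if 2 * k = n then 1 else 0) * a n k
        + ∑ k ∈ range (n + 1), (if n < 2 * k then 1 else 0) * a n k := by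
    rw [← sum_add_distrib, ← sum_add_distrib]
    apply sum_congr rfl
    intro k _
    rcases lt_trichotomy (2 * k) n with h | h | h
    · have h2 : ¬ (2 * k = n) := by omega
      have h3 : ¬ (n < 2 * k) := by omega
      simp [h, h2, h3]
    · have h2 : ¬ (2 * k < n) := by omega
      have h3 : ¬ (n < 2 * k) := by omega
      simp [h]
    · have h2 : ¬ (2 * k = n) := by omega
      have h3 : ¬ (2 * k < n) := by omega
      simp [h, h2, h3]
  have h2 : ∑ k ∈ range (n + 1), (if n < 2 * k then 1 else 0) * a n k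
      = ∑ k ∈ range (n + 1), (if 2 * k < n then 1 else 0) * a n k := by
    rw [← sum_range_reflect]
    apply sum_congr rfl
    intro k hk
    have hk' : k ≤ n := by simpa [Nat.lt_succ_iff] using hk
    have e1 : n + 1 - 1 - k = n - k := by omega
    rw [e1, a_symm hk']
    congr 1
    by_cases h : 2 * k < n
    · have : n < 2 * (n - k) := by omega
      simp [h, this]
    · have : ¬ (n < 2 * (n - k)) := by omega
      simp [h, this]
  rw [h1, h2, ← sum_add_distrib, ← sum_add_distrib]
  apply sum_congr rfl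
  intro k _
  unfold w
  by_cases h : 2 * k < n
  · have h3 : ¬ (2 * k = n) := by omega
    simp [h, h3]; ring
  · by_cases h3 : 2 * k = n
    · simp [h3]
    · simp [h, h3]

theorem S_eq (N : ℕ) : S N = ∑ k ∈ range N, T N k := by
  unfold S T
  rw [sum_comm]
  apply sum_congr rfl
  intro n hn
  rw [row_fold]
  apply sum_subset
  · intro k hk
    simp only [mem_range] at *
    omega
  · intro k hk hk'
    simp only [mem_range] at *
    have h1 : ¬ (2 * k < n) := by omega
    have h2 : ¬ (2 * k = n) := by omega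
    simp [w, h1, h2]

theorem T_le (N k : ℕ) : T N k ≤ 2 * cnt N k := by
  classical
  unfold T cnt
  rw [card_filter, mul_sum]
  apply sum_le_sum
  intro n _
  unfold w a
  by_cases hs : Squarefree (n.choose k)
  · by_cases h1 : 2 * k < n
    · simp [hs, h1, h1.le]
    · by_cases h2 : 2 * k = n
      · simp [hs, h2]
      · simp [h1, h2]
  · simp [hs]

theorem T_close (N k : ℕ) : |(T N k : ℝ) - 2 * (cnt0 N k : ℝ)| ≤ 2 * (2 * k + 1) := by
  classical
  have h1 : (T N k : ℝ) - 2 * (cnt0 N k : ℝ) = ∑ n ∈ range N, ((w n k : ℝ) - 2) * a n k := by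
    unfold T cnt0
    rw [card_filter]
    push_cast
    rw [mul_sum, ← sum_sub_distrib]
    apply sum_congr rfl
    intro n _
    unfold a
    split_ifs <;> simp
  rw [h1]
  have h2 : ∑ n ∈ range N, ((w n k : ℝ) - 2) * a n k
      = ∑ n ∈ (range N).filter (fun n => n < 2 * k + 1), ((w n k : ℝ) - 2) * a n k := by
    symm
    apply sum_subset (filter_subset _ _)
    intro n hn hn'
    have : 2 * k < n := by
      simp only [mem_filter, not_and, not_lt] at hn'
      have := hn' hn
      omega
    simp [w, this]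
  rw [h2]
  calc |∑ n ∈ (range N).filter (fun n => n < 2 * k + 1), ((w n k : ℝ) - 2) * a n k|
      ≤ ∑ n ∈ (range N).filter (fun n => n < 2 * k + 1), |((w n k : ℝ) - 2) * a n k| :=
        abs_sum_le_sum_abs _ _
    _ ≤ ∑ n ∈ (range N).filter (fun n => n < 2 * k + 1), (2 : ℝ) := by
        apply sum_le_sum
        intro n _
        rw [abs_mul]
        have e1 : |((w n k : ℝ) - 2)| ≤ 2 := by
          unfold w
          split_ifs <;> norm_num
        have e2 : |(a n k : ℝ)| ≤ 1 := by
          rw [abs_of_nonneg (by positivity)]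
          exact_mod_cast a_le_one n k
        calc |((w n k : ℝ) - 2)| * |(a n k : ℝ)| ≤ 2 * 1 := by gcongr
          _ = 2 := by norm_num
    _ = (#((range N).filter (fun n => n < 2 * k + 1)) : ℝ) * 2 := by
        rw [sum_const, nsmul_eq_mul]
    _ ≤ (2 * k + 1) * 2 := by
        gcongr
        have : #((range N).filter (fun n => n < 2 * k + 1)) ≤ #(range (2 * k + 1)) := by
          apply card_le_card
          intro n hn
          simp only [mem_filter, mem_range] at *
          exact hn.2
        rw [card_range] at this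
        exact_mod_cast this
    _ = 2 * (2 * k + 1) := by ring

/-- tail of the convergent series -/
theorem tail_small (ε : ℝ) (hε : 0 < ε) : ∃ K₀ : ℕ, ∀ K ≥ K₀, ∀ N : ℕ,
    ∑ k ∈ (range N).filter (fun k => K ≤ k), (k : ℝ) ^ (-(13 / 12 : ℝ)) ≤ ε := by
  have hsum : Summable (fun k : ℕ => (k : ℝ) ^ (-(13 / 12 : ℝ))) := by
    rw [Real.summable_nat_rpow]; norm_num
  have := (tendsto_sum_nat_add (fun k : ℕ => (k : ℝ) ^ (-(13 / 12 : ℝ))))
  have h2 := (Metric.tendsto_nhds.1 this) ε hε
  obtain ⟨K₀, hK₀⟩ := eventually_atTop.1 h2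
  refine ⟨K₀, fun K hK N => ?_⟩
  have h3 := hK₀ K hK
  rw [Real.dist_eq, sub_zero] at h3
  have hsum' : Summable (fun k : ℕ => ((k + K : ℕ) : ℝ) ^ (-(13 / 12 : ℝ))) :=
    (summable_nat_add_iff K).2 hsum
  have h4 : ∑ k ∈ (range N).filter (fun k => K ≤ k), (k : ℝ) ^ (-(13 / 12 : ℝ))
      = ∑ k ∈ range (N - K), ((k + K : ℕ) : ℝ) ^ (-(13 / 12 : ℝ)) := by
    symm
    apply sum_bij (fun k _ => k + K)
    · intro k hk
      simp only [mem_filter, mem_range] at *
      omega
    · intro x _ y _ h
      omega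
    · intro k hk
      simp only [mem_filter, mem_range] at *
      exact ⟨k - K, by omega, by omega⟩
    · intro k _
      rfl
  rw [h4]
  calc _ ≤ ∑' k : ℕ, ((k + K : ℕ) : ℝ) ^ (-(13 / 12 : ℝ)) := by
        apply hsum'.sum_le_tsum
        intro i _
        positivity
    _ ≤ |∑' k : ℕ, ((k + K : ℕ) : ℝ) ^ (-(13 / 12 : ℝ))| := le_abs_self _
    _ ≤ ε := h3.le

theorem S_ge (N : ℕ) : N ≤ S N := by
  unfold S
  calc N = ∑ n ∈ range N, 1 := by simp
    _ ≤ _ := by
      apply sum_le_sum
      intro n _
      calc 1 = a n 0 := by simp [a]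
        _ ≤ _ := single_le_sum (f := fun k => a n k) (fun i _ => Nat.zero_le _) (by simp)

/-- Final assembly, from (A), (B), (C). -/
theorem assembly
    (hA : ∃ K₀ : ℕ, ∀ k ≥ K₀, ∀ n : ℕ, 2 * k ≤ n → n ≤ k ^ 20 → ¬ Squarefree (n.choose k))
    (hB : ∃ (K₁ : ℕ) (C : ℝ), 0 < C ∧ ∀ k ≥ K₁, ∀ N : ℕ, k ^ 20 ≤ N →
      (cnt N k : ℝ) ≤ C * N * (k : ℝ) ^ (-(13 / 12 : ℝ)))
    (hC : ∀ k : ℕ, ∃ ρ : ℝ, Tendsto (fun N : ℕ => (cnt0 N k : ℝ) / N) atTop (𝓝 ρ)) :
    ∃ γ : ℝ, 0 < γ ∧ Tendsto (fun N : ℕ => (S N : ℝ) / N) atTop (𝓝 γ) := by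
  obtain ⟨K₀, hA⟩ := hA
  obtain ⟨K₁, C, hC0, hB⟩ := hB
  have key : ∃ γ, Tendsto (fun N : ℕ => (S N : ℝ) / N) atTop (𝓝 γ) := by
    apply exists_tendsto_of_approx
    intro ε hε
    obtain ⟨K₂, hK₂⟩ := tail_small (ε / (2 * C)) (by positivity)
    set K := max (max K₀ K₁) (max K₂ 1) with hK
    choose ρ hρ using hC
    refine ⟨fun N => ∑ k ∈ range K, (T N k : ℝ) / N, ∑ k ∈ range K, 2 * ρ k, ?_, ?_⟩
    · apply tendsto_finsetSum
      intro k _
      have h1 : Tendsto (fun N : ℕ => ((T N k : ℝ) - 2 * cnt0 N k) / N) atTop (𝓝 0) := by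
        apply squeeze_zero_norm (a := fun N : ℕ => (2 * (2 * (k : ℝ) + 1)) / N)
        · intro N
          rw [norm_div, Real.norm_eq_abs, Real.norm_natCast]
          gcongr
          exact T_close N k
        · exact tendsto_const_div_atTop_nhds_zero_nat _
      have h2 := h1.add ((hρ k).const_mul 2)
      rw [zero_add] at h2
      refine h2.congr ?_
      intro N
      ring
    · filter_upwards [eventually_ge_atTop (max K 1)] with N hN
      have hNK : K ≤ N := le_trans (le_max_left _ _) hN
      have hN1 : 1 ≤ N := le_trans (le_max_right _ _) hN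
      have hNpos : (0 : ℝ) < N := by exact_mod_cast hN1
      have e1 : (S N : ℝ) / N - ∑ k ∈ range K, (T N k : ℝ) / N
          = ∑ k ∈ (range N).filter (fun k => K ≤ k), (T N k : ℝ) / N := by
        rw [S_eq]
        push_cast
        rw [sum_div, ← sum_filter_add_sum_filter_not (range N) (fun k => K ≤ k)]
        have : (range N).filter (fun k => ¬ K ≤ k) = range K := by
          ext k
          simp only [mem_filter, mem_range]
          omega
        rw [this]
        ring
      rw [e1, abs_of_nonneg (by positivity)]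
      calc ∑ k ∈ (range N).filter (fun k => K ≤ k), (T N k : ℝ) / N
          ≤ ∑ k ∈ (range N).filter (fun k => K ≤ k), (2 * C) * (k : ℝ) ^ (-(13 / 12 : ℝ)) := by
            apply sum_le_sum
            intro k hk
            simp only [mem_filter, mem_range] at hk
            have hkK0 : K₀ ≤ k := by
              have : K₀ ≤ K := le_trans (le_max_left _ _) (le_max_left _ _)
              omega
            have hkK1 : K₁ ≤ k := by
              have : K₁ ≤ K := le_trans (le_max_right _ _) (le_max_left _ _)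
              omega
            rw [div_le_iff₀ hNpos]
            by_cases hkN : k ^ 20 ≤ N
            · have h1 : (T N k : ℝ) ≤ 2 * cnt N k := by exact_mod_cast T_le N k
              have h2 := hB k hkK1 N hkN
              calc (T N k : ℝ) ≤ 2 * cnt N k := h1
                _ ≤ 2 * (C * N * (k : ℝ) ^ (-(13 / 12 : ℝ))) := by gcongr
                _ = _ := by ring
            · have h1 : T N k ≤ 2 * cnt N k := T_le N k
              have h2 : cnt N k = 0 := by
                unfold cnt
                rw [card_eq_zero, filter_eq_empty_iff]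
                intro n hn
                rw [mem_range] at hn
                rintro ⟨h3, h4⟩
                exact hA k hkK0 n h3 (by omega) h4
              have h3 : (T N k : ℝ) = 0 := by
                have : T N k = 0 := by omega
                exact_mod_cast this
              rw [h3]
              positivity
        _ = (2 * C) * ∑ k ∈ (range N).filter (fun k => K ≤ k), (k : ℝ) ^ (-(13 / 12 : ℝ)) := by
            rw [mul_sum]
        _ ≤ (2 * C) * (ε / (2 * C)) := by
            gcongr
            apply hK₂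
            exact le_trans (le_max_left _ _) (le_max_right _ _)
        _ = ε := by field_simp
  obtain ⟨γ, hγ⟩ := key
  refine ⟨γ, ?_, hγ⟩
  have : (1 : ℝ) ≤ γ := by
    apply ge_of_tendsto hγ
    filter_upwards [eventually_ge_atTop 1] with N hN
    have hNpos : (0 : ℝ) < N := by exact_mod_cast hN
    rw [le_div_iff₀ hNpos, one_mul]
    exact_mod_cast S_ge N
  linarith

end Pool.Agent.H24.Sqf
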