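import Mathlib

namespace Pool.Agent.H24.Sqf

open Finset

theorem carry_iff {n k q : ℕ} (hk : k ≤ n) (hq : 0 < q) :
    q ≤ k % q + (n - k) % q ↔ n % q < k % q := by
  have h1 : n % q = (k % q + (n - k) % q) % q := by
    rw [← Nat.add_mod]; congr 1; omega
  have ha : k % q < q := Nat.mod_lt _ hq
  have hb : (n - k) % q < q := Nat.mod_lt _ hq
  constructor
  · intro h
    rw [h1, Nat.mod_eq_sub_mod h, Nat.mod_eq_of_lt (by omega)]
    omega
  · intro h
    by_contra hcon
    rw [h1, Nat.mod_eq_of_lt (by omega)] at h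
    omega

/-- the set of `j ∈ {1,2,3}` for which there is a carry at the `j`-th digit -/
def carries (k p n : ℕ) : ℕ := #{j ∈ Icc 1 3 | n % p ^ j < k % p ^ j}

theorem not_squarefree_of_carries {n k p : ℕ} (hp : p.Prime) (hk : k ≤ n)
    (h : 2 ≤ carries k p n) : ¬ Squarefree (n.choose k) := by
  intro hsq
  have h1 : (n.choose k).factorization p ≤ 1 := hsq.natFactorization_le_one p
  have h2 := Nat.factorization_choose' (p := p) (n := n - k) (k := k)
    (b := max (Nat.log p (n - k + k) + 1) 4) hp (by omega)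
  rw [Nat.sub_add_cancel hk] at h2
  rw [h2] at h1
  have h3 : carries k p n ≤ #{i ∈ Ico 1 (max (Nat.log p n + 1) 4) |
      p ^ i ≤ k % p ^ i + (n - k) % p ^ i} := by
    apply card_le_card
    intro j hj
    rw [mem_filter, mem_Icc] at hj
    rw [mem_filter, mem_Ico]
    refine ⟨⟨hj.1.1, by omega⟩, ?_⟩
    exact (carry_iff hk (pow_pos hp.pos j)).2 hj.2
  omega

/-- the carry indicator in terms of fractional parts -/
theorem carry_fract {n k q : ℕ} (hk : k ≤ n) (hq : 0 < q) :
    Int.fract ((k : ℝ) / q) + Int.fract (((n - k : ℕ) : ℝ) / q) - Int.fract ((n : ℝ) / q)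
      = if n % q < k % q then 1 else 0 := by
  have hqR : (0 : ℝ) < q := by exact_mod_cast hq
  have h1 : n % q = (k % q + (n - k) % q) % q := by
    rw [← Nat.add_mod]; congr 1; omega
  have ha : k % q < q := Nat.mod_lt _ hq
  have hb : (n - k) % q < q := Nat.mod_lt _ hq
  rw [Int.fract_div_natCast_eq_div_natCast_mod, Int.fract_div_natCast_eq_div_natCast_mod,
    Int.fract_div_natCast_eq_div_natCast_mod]
  have h0 := carry_iff hk hq
  generalize k % q = x at *
  generalize (n - k) % q = y at *
  generalize n % q = z at *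
  split_ifs with h
  · have h' := h0.2 h
    have e1 : z = x + y - q := by
      rw [h1, Nat.mod_eq_sub_mod h', Nat.mod_eq_of_lt (by omega)]
    have e2 : (z : ℝ) = x + y - q := by
      rw [e1, Nat.cast_sub h']; push_cast; ring
    rw [e2]
    field_simp
    ring
  · have h' : ¬ q ≤ x + y := fun hh => h (h0.1 hh)
    have e1 : z = x + y := by
      rw [h1, Nat.mod_eq_of_lt (by omega)]
    have e2 : (z : ℝ) = x + y := by
      rw [e1]; push_cast; ring
    rw [e2]
    field_simp
    ring

theorem carries_eq {n k p : ℕ} (hp : p.Prime) (hk : k ≤ n) :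
    (carries k p n : ℝ) = ∑ j ∈ Icc 1 3, (Int.fract ((k : ℝ) / (p : ℝ) ^ j)
      + Int.fract (((n - k : ℕ) : ℝ) / (p : ℝ) ^ j) - Int.fract ((n : ℝ) / (p : ℝ) ^ j)) := by
  unfold carries
  rw [card_filter]
  push_cast
  apply sum_congr rfl
  intro j _
  have := carry_fract hk (pow_pos hp.pos j)
  push_cast at this
  rw [this]

end Pool.Agent.H24.Sqf
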