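import Mathlib

namespace Pool.Agent.H24.Sqf

open Finset

theorem sum_periodic_mul {F : ℕ → ℝ} {q : ℕ} (hF : Function.Periodic F q) (m : ℕ) :
    ∑ n ∈ range (q * m), F n = m * ∑ n ∈ range q, F n := by
  induction m with
  | zero => simp
  | succ m ih =>
    rw [Nat.mul_succ, sum_range_add, ih]
    have : ∀ i ∈ range q, F (q * m + i) = F i := by
      intro i _
      have h := hF.nat_mul m i
      rw [← h]
      congr 1
      simp only [Nat.cast_id]
      ring
    rw [sum_congr rfl this]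
    push_cast
    ring

theorem sum_periodic_le {F : ℕ → ℝ} {M : ℕ} (hM : 0 < M) (hF : Function.Periodic F M)
    (hb : ∀ n, F n ≤ 1) {A : ℝ} (hA : 0 ≤ A) (hsum : ∑ n ∈ range M, F n ≤ M * A) (N : ℕ) :
    ∑ n ∈ range N, F n ≤ N * A + M := by
  have h1 : N = M * (N / M) + N % M := (Nat.div_add_mod N M).symm
  have h2 : ∑ n ∈ range N, F n = (N / M : ℕ) * ∑ n ∈ range M, F n
      + ∑ i ∈ range (N % M), F (M * (N / M) + i) := by
    conv_lhs => rw [h1]
    rw [sum_range_add, sum_periodic_mul hF]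
  rw [h2]
  have h3 : ∑ i ∈ range (N % M), F (M * (N / M) + i) ≤ M := by
    calc _ ≤ ∑ i ∈ range (N % M), (1 : ℝ) := sum_le_sum (fun i _ => hb _)
      _ = (N % M : ℕ) := by simp
      _ ≤ M := by exact_mod_cast (Nat.mod_lt N hM).le
  have h4 : ((N / M : ℕ) : ℝ) * ∑ n ∈ range M, F n ≤ (N / M : ℕ) * (M * A) := by gcongr
  have h5 : ((N / M : ℕ) : ℝ) * M ≤ N := by exact_mod_cast Nat.div_mul_le_self N M
  have h6 : ((N / M : ℕ) : ℝ) * (M * A) ≤ N * A := by
    rw [← mul_assoc]; gcongr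
  linarith

theorem sum_coprime_mul {f g : ℕ → ℝ} {a b : ℕ} (ha : 0 < a) (hb : 0 < b) (hab : Nat.Coprime a b)
    (hf : Function.Periodic f a) (hg : Function.Periodic g b) :
    ∑ n ∈ range (a * b), f n * g n = (∑ n ∈ range a, f n) * ∑ n ∈ range b, g n := by
  rw [sum_mul_sum, ← sum_product']
  apply sum_nbij (fun n => (n % a, n % b))
  · intro n _
    simp only [mem_product, mem_range]
    exact ⟨Nat.mod_lt _ ha, Nat.mod_lt _ hb⟩
  · intro x hx y hy hxy
    simp only [Prod.mk.injEq] at hxy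
    simp only [coe_range, Set.mem_Iio] at hx hy
    have h1 : x ≡ y [MOD a * b] := (Nat.modEq_and_modEq_iff_modEq_mul hab).1 ⟨hxy.1, hxy.2⟩
    exact h1.eq_of_lt_of_lt hx hy
  · intro x hx
    simp only [coe_product, coe_range, Set.mem_prod, Set.mem_Iio] at hx
    obtain ⟨c, hc1, hc2⟩ := Nat.chineseRemainder hab x.1 x.2
    refine ⟨c % (a * b), ?_, ?_⟩
    · simp only [coe_range, Set.mem_Iio]
      exact Nat.mod_lt _ (by positivity)
    · simp only
      ext
      · simp only
        rw [Nat.mod_mod_of_dvd _ (Dvd.intro _ rfl)]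
        rw [hc1, Nat.mod_eq_of_lt hx.1]
      · simp only
        rw [Nat.mod_mod_of_dvd _ (Dvd.intro_left _ rfl)]
        rw [hc2, Nat.mod_eq_of_lt hx.2]
  · intro n _
    simp only
    rw [hf.map_mod_nat, hg.map_mod_nat]

theorem periodic_prod {ι : Type*} (s : Finset ι) (m : ι → ℕ) (g : ι → ℕ → ℝ)
    (hg : ∀ i ∈ s, Function.Periodic (g i) (m i)) :
    Function.Periodic (fun n => ∏ i ∈ s, g i n) (∏ i ∈ s, m i) := by
  intro n
  simp only
  apply prod_congr rfl
  intro i hi
  obtain ⟨c, hc⟩ := dvd_prod_of_mem m hi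
  rw [hc]
  have h := (hg i hi).nat_mul c n
  rw [← h]
  congr 1
  simp only [Nat.cast_id]
  ring

theorem sum_prod_coprime {ι : Type*} [DecidableEq ι] (s : Finset ι) (m : ι → ℕ) (g : ι → ℕ → ℝ)
    (hm : ∀ i ∈ s, 0 < m i) (hg : ∀ i ∈ s, Function.Periodic (g i) (m i))
    (hcop : ∀ i ∈ s, ∀ j ∈ s, i ≠ j → Nat.Coprime (m i) (m j)) :
    ∑ n ∈ range (∏ i ∈ s, m i), ∏ i ∈ s, g i n = ∏ i ∈ s, ∑ n ∈ range (m i), g i n := by
  induction s using Finset.induction_on with
  | empty => simp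
  | insert i s hi ih =>
    rw [prod_insert hi, prod_insert hi]
    have h1 : ∑ n ∈ range (m i * ∏ x ∈ s, m x), ∏ j ∈ insert i s, g j n
        = ∑ n ∈ range (m i * ∏ x ∈ s, m x), g i n * ∏ j ∈ s, g j n := by
      apply sum_congr rfl
      intro n _
      rw [prod_insert hi]
    rw [h1, sum_coprime_mul (hm i (mem_insert_self i s))
      (prod_pos (fun j hj => hm j (mem_insert_of_mem hj))) ?_ (hg i (mem_insert_self i s))
      (periodic_prod s m g (fun j hj => hg j (mem_insert_of_mem hj)))]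
    · rw [ih (fun j hj => hm j (mem_insert_of_mem hj)) (fun j hj => hg j (mem_insert_of_mem hj))
        (fun j hj l hl => hcop j (mem_insert_of_mem hj) l (mem_insert_of_mem hl))]
    · apply Nat.Coprime.prod_right
      intro j hj
      apply hcop i (mem_insert_self i s) j (mem_insert_of_mem hj)
      rintro rfl
      exact hi hj

end Pool.Agent.H24.Sqf
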