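import Mathlib
import Pool.Agent.H24.Sqf.Carry
import Pool.Agent.H24.Sqf.Period

namespace Pool.Agent.H24.Sqf

open Finset

theorem carries_periodic (k p : ℕ) : Function.Periodic (carries k p) (p ^ 3) := by
  intro n
  unfold carries
  congr 1
  apply filter_congr
  intro j hj
  rw [mem_Icc] at hj
  have h1 : (n + p ^ 3) % p ^ j = n % p ^ j := by
    obtain ⟨c, hc⟩ := pow_dvd_pow p hj.2
    rw [hc, Nat.add_mul_mod_self_left]
  rw [h1]

theorem carries_le (k p n : ℕ) : carries k p n ≤ 3 := by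
  unfold carries
  calc _ ≤ #(Icc 1 3) := card_filter_le _ _
    _ = 3 := by simp

/-- density of the set of `n` with at least two carries -/
noncomputable def dens (k p : ℕ) : ℝ := (#{n ∈ range (p ^ 3) | 2 ≤ carries k p n} : ℝ) / (p ^ 3 : ℕ)

noncomputable def fk (k p n : ℕ) : ℝ := (if 2 ≤ carries k p n then 1 else 0) - dens k p

theorem dens_nonneg (k p : ℕ) : 0 ≤ dens k p := by unfold dens; positivity

theorem dens_le_one (k p : ℕ) : dens k p ≤ 1 := by
  unfold dens
  apply div_le_one_of_le₀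
  · have : #{n ∈ range (p ^ 3) | 2 ≤ carries k p n} ≤ p ^ 3 := by
      calc _ ≤ #(range (p ^ 3)) := card_filter_le _ _
        _ = p ^ 3 := card_range _
    exact_mod_cast this
  · positivity

theorem dens_mul {k p : ℕ} (hp : 0 < p) :
    ((p ^ 3 : ℕ) : ℝ) * dens k p = ∑ n ∈ range (p ^ 3), if 2 ≤ carries k p n then (1 : ℝ) else 0 := by
  unfold dens
  have : ((p ^ 3 : ℕ) : ℝ) ≠ 0 := by
    have : 0 < p ^ 3 := by positivity
    exact_mod_cast this.ne'
  rw [mul_div_cancel₀ _ this, card_filter]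
  push_cast
  rfl

theorem fk_periodic (k p : ℕ) : Function.Periodic (fk k p) (p ^ 3) := by
  intro n
  unfold fk
  rw [carries_periodic k p n]

theorem fk_sum {k p : ℕ} (hp : 0 < p) : ∑ n ∈ range (p ^ 3), fk k p n = 0 := by
  unfold fk
  rw [sum_sub_distrib, ← dens_mul hp]
  simp

theorem fk_abs (k p n : ℕ) : |fk k p n| ≤ 1 := by
  unfold fk
  have h1 := dens_nonneg k p
  have h2 := dens_le_one k p
  rw [abs_le]
  split_ifs <;> constructor <;> linarith

theorem fk_sq {k p : ℕ} (hp : 0 < p) :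
    ∑ n ∈ range (p ^ 3), fk k p n ^ 2 ≤ ((p ^ 3 : ℕ) : ℝ) * dens k p := by
  have h1 := dens_nonneg k p
  have h2 := dens_le_one k p
  have e1 : ∀ n, fk k p n ^ 2 = (1 - 2 * dens k p) * (if 2 ≤ carries k p n then (1 : ℝ) else 0)
      + dens k p ^ 2 := by
    intro n
    unfold fk
    split_ifs <;> ring
  rw [sum_congr rfl (fun n _ => e1 n), sum_add_distrib, ← mul_sum, ← dens_mul hp]
  rw [sum_const, card_range, nsmul_eq_mul]
  have h3 : (0 : ℝ) ≤ ((p ^ 3 : ℕ) : ℝ) := Nat.cast_nonneg _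
  have h4 : 0 ≤ ((p ^ 3 : ℕ) : ℝ) * dens k p ^ 2 := by positivity
  nlinarith

theorem count_mod_lt (q m r : ℕ) (hr : r ≤ q) :
    ∑ n ∈ range (q * m), (if n % q < r then (1 : ℝ) else 0) = m * r := by
  have hper : Function.Periodic (fun n : ℕ => if n % q < r then (1 : ℝ) else 0) q := by
    intro n
    simp only [Nat.add_mod_right]
  rw [sum_periodic_mul hper]
  congr 1
  have : ∑ n ∈ range q, (if n % q < r then (1 : ℝ) else 0)
      = ∑ n ∈ range q, (if n < r then (1 : ℝ) else 0) := by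
    apply sum_congr rfl
    intro n hn
    rw [mem_range] at hn
    rw [Nat.mod_eq_of_lt hn]
  rw [this, sum_boole]
  have h2 : (range q).filter (fun n => n < r) = range r := by
    ext n; simp only [mem_filter, mem_range]; omega
  rw [h2, card_range]

theorem dens_ge {k p : ℕ} (hp : 0 < p) :
    ∑ j ∈ Icc 1 3, Int.fract ((k : ℝ) / (p : ℝ) ^ j) ≤ 1 + 2 * dens k p := by
  have hpR : (0 : ℝ) < p := by exact_mod_cast hp
  have e1 : ∑ n ∈ range (p ^ 3), (carries k p n : ℝ)
      = (p : ℝ) ^ 3 * ∑ j ∈ Icc 1 3, Int.fract ((k : ℝ) / (p : ℝ) ^ j) := by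
    have h0 : ∀ n, (carries k p n : ℝ) = ∑ j ∈ Icc 1 3, (if n % p ^ j < k % p ^ j then (1 : ℝ) else 0) := by
      intro n
      unfold carries
      rw [card_filter]
      push_cast
      rfl
    rw [sum_congr rfl (fun n _ => h0 n), sum_comm, mul_sum]
    apply sum_congr rfl
    intro j hj
    rw [mem_Icc] at hj
    have h3 : p ^ 3 = p ^ j * p ^ (3 - j) := by
      rw [← pow_add]; congr 1; omega
    rw [h3, count_mod_lt _ _ _ (Nat.mod_lt _ (pow_pos hp j)).le]
    have h4 := Int.fract_div_natCast_eq_div_natCast_mod (k := ℝ) (m := k) (n := p ^ j)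
    push_cast at h4
    rw [h4]
    have h5 : (p : ℝ) ^ 3 = (p : ℝ) ^ j * (p : ℝ) ^ (3 - j) := by
      rw [← pow_add]; congr 1; omega
    rw [h5]
    push_cast
    field_simp
  have e2 : ∑ n ∈ range (p ^ 3), (carries k p n : ℝ)
      ≤ ∑ n ∈ range (p ^ 3), (1 + 2 * (if 2 ≤ carries k p n then (1 : ℝ) else 0)) := by
    apply sum_le_sum
    intro n _
    have h1 := carries_le k p n
    split_ifs with h
    · have : (carries k p n : ℝ) ≤ 3 := by exact_mod_cast h1
      linarith
    · have : (carries k p n : ℝ) ≤ 1 := by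
        have : carries k p n ≤ 1 := by omega
        exact_mod_cast this
      linarith
  rw [e1, sum_add_distrib, ← mul_sum, ← dens_mul hp, sum_const, card_range, nsmul_eq_mul] at e2
  push_cast at e2
  have h3 : (0 : ℝ) < (p : ℝ) ^ 3 := by positivity
  have h4 : (p : ℝ) ^ 3 * ∑ j ∈ Icc 1 3, Int.fract ((k : ℝ) / (p : ℝ) ^ j)
      ≤ (p : ℝ) ^ 3 * (1 + 2 * dens k p) := by
    linarith
  exact le_of_mul_le_mul_left h4 h3

end Pool.Agent.H24.Sqf
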