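import Mathlib
import Pool.Agent.H24.Sqf.ExpPrime

namespace Pool.Agent.H24.Sqf

open Finset ArithmeticFunction Filter Topology

/-- `∑_{P<n≤2P} Λ(n) e(F/n^j) = o(P)` uniformly for `P² ≤ |F|/P^j ≤ P^A`. -/
theorem exp_prime (j A : ℕ) (hj : 1 ≤ j) (ε : ℝ) (hε : 0 < ε) : ∃ P₀ : ℕ, ∀ P : ℕ, P₀ ≤ P →
    ∀ F : ℝ, (P : ℝ) ^ 2 ≤ |F| / (P : ℝ) ^ j → |F| / (P : ℝ) ^ j ≤ (P : ℝ) ^ A →
      ‖∑ n ∈ Ioc P (2 * P), ((Λ n : ℝ) : ℂ) * e (F / (n : ℝ) ^ j)‖ ≤ ε * P := by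
  obtain ⟨K, τ, hK, hτ, hτh, h⟩ := exp_prime_explicit j A hj
  set δ : ℝ := τ / 36 with hδ
  have hδpos : 0 < δ := by positivity
  set K' : ℝ := K * (1 + 2 / δ) ^ 3 * 2 with hK'
  have hK'pos : 0 < K' := by positivity
  have hlim : Tendsto (fun P : ℕ => K' * (P : ℝ) ^ (-(τ / 12))) atTop (𝓝 0) := by
    have h1 := (tendsto_rpow_neg_atTop (y := τ / 12) (by positivity)).comp
      (tendsto_natCast_atTop_atTop (R := ℝ))
    have h2 := h1.const_mul K'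
    rw [mul_zero] at h2
    exact h2
  have hev : ∀ᶠ P : ℕ in atTop, K' * (P : ℝ) ^ (-(τ / 12)) < ε := hlim.eventually (gt_mem_nhds hε)
  obtain ⟨P₁, hP₁⟩ := eventually_atTop.1 hev
  refine ⟨max P₁ (max 64 (2 ^ (j + 1))), ?_⟩
  intro P hP F hF1 hF2
  have hPP1 : P₁ ≤ P := le_trans (le_max_left _ _) hP
  have hP64 : 64 ≤ P := le_trans (le_trans (le_max_left _ _) (le_max_right _ _)) hP
  have hPj : 2 ^ (j + 1) ≤ P := le_trans (le_trans (le_max_right _ _) (le_max_right _ _)) hP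
  have hPR : (64 : ℝ) ≤ P := by exact_mod_cast hP64
  have hPpos : (0 : ℝ) < P := by linarith
  have hP1 : (1 : ℝ) ≤ P := by linarith
  refine (h P hP64 hPj F hF1 hF2).trans ?_
  have hlog : 1 + Real.log (2 * P) ≤ (1 + 2 / δ) * (P : ℝ) ^ δ := by
    have h1 : Real.log (2 * P) ≤ 2 * Real.log P := by
      have : Real.log (2 * P) ≤ Real.log ((P : ℝ) ^ 2) := by
        apply Real.log_le_log (by positivity)
        nlinarith
      rw [Real.log_pow] at this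
      push_cast at this
      exact this
    have h2 := Real.log_le_rpow_div hPpos.le hδpos
    have h3 : 1 ≤ (P : ℝ) ^ δ := Real.one_le_rpow hP1 hδpos.le
    calc 1 + Real.log (2 * P) ≤ 1 + 2 * ((P : ℝ) ^ δ / δ) := by linarith
      _ ≤ (P : ℝ) ^ δ + 2 * ((P : ℝ) ^ δ / δ) := by linarith
      _ = _ := by ring
  have hlog0 : 0 ≤ 1 + Real.log (2 * P) := by
    have : 0 ≤ Real.log (2 * P) := Real.log_nonneg (by linarith)
    linarith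
  have hU : (P : ℝ) ^ (1 / 3 : ℝ) / 2 ≤ (⌊(P : ℝ) ^ (1 / 3 : ℝ)⌋₊ : ℝ) := by
    have h1 : (P : ℝ) ^ (1 / 3 : ℝ) < ⌊(P : ℝ) ^ (1 / 3 : ℝ)⌋₊ + 1 := Nat.lt_floor_add_one _
    have h2 : (4 : ℝ) ≤ (P : ℝ) ^ (1 / 3 : ℝ) := by
      have h1 : (4 : ℝ) = (64 : ℝ) ^ (1 / 3 : ℝ) := by
        rw [show (64 : ℝ) = (4 : ℝ) ^ (3 : ℝ) by norm_num, ← Real.rpow_mul (by norm_num)]
        norm_num
      rw [h1]
      gcongr
    linarith
  have hU2 : (⌊(P : ℝ) ^ (1 / 3 : ℝ)⌋₊ : ℝ) ^ (-(τ / 2)) ≤ 2 * (P : ℝ) ^ (-(τ / 6)) := by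
    calc (⌊(P : ℝ) ^ (1 / 3 : ℝ)⌋₊ : ℝ) ^ (-(τ / 2)) ≤ ((P : ℝ) ^ (1 / 3 : ℝ) / 2) ^ (-(τ / 2)) :=
          Real.rpow_le_rpow_of_nonpos (by positivity) hU (by linarith)
      _ = (P : ℝ) ^ (-(τ / 6)) * 2 ^ (τ / 2) := by
          rw [Real.div_rpow (by positivity) (by norm_num), ← Real.rpow_mul hPpos.le,
            Real.rpow_neg (by norm_num : (0 : ℝ) ≤ 2)]
          rw [div_inv_eq_mul]
          congr 2
          ring
      _ ≤ (P : ℝ) ^ (-(τ / 6)) * 2 := by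
          gcongr
          calc (2 : ℝ) ^ (τ / 2) ≤ 2 ^ (1 : ℝ) :=
                Real.rpow_le_rpow_of_exponent_le (by norm_num) (by linarith)
            _ = 2 := Real.rpow_one 2
      _ = _ := by ring
  have hfin : K * (1 + Real.log (2 * P)) ^ 3 * (⌊(P : ℝ) ^ (1 / 3 : ℝ)⌋₊ : ℝ) ^ (-(τ / 2))
      ≤ K' * (P : ℝ) ^ (-(τ / 12)) := by
    calc _ ≤ K * ((1 + 2 / δ) * (P : ℝ) ^ δ) ^ 3 * (2 * (P : ℝ) ^ (-(τ / 6))) := by gcongr
      _ = K' * (((P : ℝ) ^ δ) ^ 3 * (P : ℝ) ^ (-(τ / 6))) := by rw [hK']; ring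
      _ = K' * (P : ℝ) ^ (-(τ / 12)) := by
          rw [← Real.rpow_natCast ((P : ℝ) ^ δ) 3, ← Real.rpow_mul hPpos.le,
            ← Real.rpow_add hPpos]
          congr 2
          rw [hδ]; push_cast; ring
  calc _ ≤ P * (K' * (P : ℝ) ^ (-(τ / 12))) := by gcongr
    _ ≤ P * ε := by
        gcongr
        exact (hP₁ P hPP1).le
    _ = ε * P := by ring

end Pool.Agent.H24.Sqf
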