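import Mathlib
import Pool.Agent.H24.Sqf.KL

namespace Pool.Agent.H24.Sqf

open Finset Filter Topology

instance fact_one_pos : Fact ((0 : ℝ) < 1) := ⟨one_pos⟩

theorem coe_fract (x : ℝ) : ((Int.fract x : ℝ) : AddCircle (1 : ℝ)) = (x : AddCircle (1 : ℝ)) := by
  have h : x = Int.fract x + (⌊x⌋ : ℤ) • (1 : ℝ) := by
    rw [zsmul_eq_mul, mul_one]
    exact (Int.fract_add_floor x).symm
  conv_rhs => rw [h]
  rw [QuotientAddGroup.mk_add, QuotientAddGroup.mk_zsmul]
  have : ((1 : ℝ) : AddCircle (1 : ℝ)) = 0 := AddCircle.coe_period 1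
  rw [this, smul_zero, add_zero]

/-- uniform approximation of periodic continuous functions by trigonometric polynomials -/
theorem exists_trig (f : ℝ → ℝ) (hf : f 0 = f 1) (hc : ContinuousOn f (Set.Icc 0 1)) (ε : ℝ)
    (hε : 0 < ε) : ∃ c : ℤ →₀ ℂ, ∀ x : ℝ,
      ‖(∑ h ∈ c.support, c h * e (h * x)) - ((f (Int.fract x) : ℝ) : ℂ)‖ ≤ ε := by
  set g : ℝ → ℂ := fun x => ((f x : ℝ) : ℂ) with hg
  have hgc : Continuous (AddCircle.liftIco (1 : ℝ) 0 g) := by
    apply AddCircle.liftIco_zero_continuous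
    · simp only [hg, hf]
    · exact Complex.continuous_ofReal.comp_continuousOn hc
  set G : C(AddCircle (1 : ℝ), ℂ) := ⟨AddCircle.liftIco (1 : ℝ) 0 g, hgc⟩ with hG
  have hmem : G ∈ (Submodule.span ℂ (Set.range <| @fourier 1)).topologicalClosure := by
    rw [span_fourier_closure_eq_top]; trivial
  have hmem2 : G ∈ closure ((Submodule.span ℂ (Set.range <| @fourier 1)) :
      Set C(AddCircle (1 : ℝ), ℂ)) := hmem
  rw [Metric.mem_closure_iff] at hmem2
  obtain ⟨T, hT, hdist⟩ := hmem2 ε hε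
  have hT' : T ∈ Submodule.span ℂ (Set.range <| @fourier 1) := hT
  rw [Finsupp.mem_span_range_iff_exists_finsupp] at hT'
  obtain ⟨c, hcT⟩ := hT'
  refine ⟨c, fun x => ?_⟩
  have h1 : T (x : AddCircle (1 : ℝ)) = ∑ h ∈ c.support, c h * e (h * x) := by
    rw [← hcT, Finsupp.sum, ContinuousMap.sum_apply]
    apply sum_congr rfl
    intro h _
    rw [ContinuousMap.smul_apply, fourier_coe_apply, smul_eq_mul]
    unfold e
    congr 2
    push_cast
    ring
  have h2 : G (x : AddCircle (1 : ℝ)) = ((f (Int.fract x) : ℝ) : ℂ) := by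
    rw [← coe_fract x]
    have : G ((Int.fract x : ℝ) : AddCircle (1 : ℝ)) = AddCircle.liftIco (1 : ℝ) 0 g
        ((Int.fract x : ℝ) : AddCircle (1 : ℝ)) := rfl
    rw [this, AddCircle.liftIco_zero_coe_apply ⟨Int.fract_nonneg x, Int.fract_lt_one x⟩]
  have h3 : dist (G (x : AddCircle (1 : ℝ))) (T (x : AddCircle (1 : ℝ))) ≤ dist G T :=
    ContinuousMap.dist_apply_le_dist _
  rw [h1, h2, dist_comm, dist_eq_norm] at h3
  linarith

theorem integral_e (h : ℤ) : ∫ x in (0 : ℝ)..1, e (h * x) = if h = 0 then 1 else 0 := by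
  split_ifs with h0
  · subst h0
    simp [e_zero]
  · have hne : (2 * Real.pi * h * Complex.I : ℂ) ≠ 0 := by
      have : (h : ℂ) ≠ 0 := by exact_mod_cast h0
      have hpi : (Real.pi : ℂ) ≠ 0 := by exact_mod_cast Real.pi_ne_zero
      simp [this, hpi, Complex.I_ne_zero]
    have h1 : ∀ x : ℝ, e (h * x) = Complex.exp ((2 * Real.pi * h * Complex.I) * x) := by
      intro x
      unfold e
      congr 1
      push_cast
      ring
    simp_rw [h1]
    rw [integral_exp_mul_complex hne]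
    have h2 : Complex.exp ((2 * Real.pi * h * Complex.I) * (1 : ℝ)) = 1 := by
      rw [Complex.exp_eq_one_iff]
      exact ⟨h, by push_cast; ring⟩
    rw [h2]
    simp

/-- the constant coefficient is close to the mean -/
theorem const_coeff (f : ℝ → ℝ) (hc : ContinuousOn f (Set.Icc 0 1)) (hf : f 0 = f 1) (ε : ℝ)
    (c : ℤ →₀ ℂ) (h : ∀ x : ℝ,
      ‖(∑ h ∈ c.support, c h * e (h * x)) - ((f (Int.fract x) : ℝ) : ℂ)‖ ≤ ε) :
    ‖c 0 - ((∫ x in (0 : ℝ)..1, f x : ℝ) : ℂ)‖ ≤ ε := by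
  have hcont : Continuous (fun x : ℝ => ∑ h ∈ c.support, c h * e (h * x)) := by
    apply continuous_finsetSum
    intro h _
    apply Continuous.mul continuous_const
    unfold e
    fun_prop
  have h1 : ∫ x in (0 : ℝ)..1, (∑ h ∈ c.support, c h * e (h * x)) = c 0 := by
    rw [intervalIntegral.integral_finsetSum]
    · have : ∀ i ∈ c.support, ∫ x in (0 : ℝ)..1, c i * e (i * x) = if i = 0 then c i else 0 := by
        intro i _
        rw [intervalIntegral.integral_const_mul, integral_e]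
        split_ifs <;> simp
      rw [sum_congr rfl this, sum_ite_eq']
      split_ifs with h0
      · rfl
      · rw [Finsupp.notMem_support_iff] at h0
        exact h0.symm
    · intro i _
      apply Continuous.intervalIntegrable
      apply Continuous.mul continuous_const
      unfold e
      fun_prop
  have hfint : IntervalIntegrable (fun x => ((f x : ℝ) : ℂ)) MeasureTheory.volume 0 1 := by
    apply ContinuousOn.intervalIntegrable
    rw [Set.uIcc_of_le (by norm_num)]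
    exact Complex.continuous_ofReal.comp_continuousOn hc
  have h2 : c 0 - ((∫ x in (0 : ℝ)..1, f x : ℝ) : ℂ)
      = ∫ x in (0 : ℝ)..1, ((∑ h ∈ c.support, c h * e (h * x)) - ((f x : ℝ) : ℂ)) := by
    rw [intervalIntegral.integral_sub (hcont.intervalIntegrable _ _) hfint, h1,
      intervalIntegral.integral_ofReal]
  rw [h2]
  have h3 : ∀ x ∈ Set.uIoc (0 : ℝ) 1,
      ‖(∑ h ∈ c.support, c h * e (h * x)) - ((f x : ℝ) : ℂ)‖ ≤ ε := by
    intro x hx
    rw [Set.uIoc_of_le (by norm_num)] at hx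
    have := h x
    rcases eq_or_lt_of_le hx.2 with h1 | h1
    · rw [h1] at this ⊢
      rw [Int.fract_one, hf] at this
      exact this
    · rw [Int.fract_eq_self.2 ⟨hx.1.le, h1⟩] at this
      exact this
  have h4 := intervalIntegral.norm_integral_le_of_norm_le_const h3
  simpa using h4

/-- Upper bound for weighted sums of a function of the fractional parts. -/
theorem weighted_upper (f : ℝ → ℝ) (hf : f 0 = f 1) (hc : ContinuousOn f (Set.Icc 0 1))
    (ε : ℝ) (hε : 0 < ε) : ∃ (s : Finset ℤ) (B : ℝ), 0 < B ∧ (∀ h ∈ s, h ≠ 0) ∧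
    ∀ (I : Finset ℕ) (W : ℕ → ℝ) (x : ℕ → ℝ) (δ : ℝ), (∀ n ∈ I, 0 ≤ W n) → 0 ≤ δ →
      (∀ h ∈ s, ‖∑ n ∈ I, ((W n : ℝ) : ℂ) * e (h * x n)‖ ≤ δ) →
      |∑ n ∈ I, W n * f (Int.fract (x n)) - (∫ x in (0 : ℝ)..1, f x) * ∑ n ∈ I, W n|
        ≤ ε * ∑ n ∈ I, W n + B * δ := by
  obtain ⟨c, hcf⟩ := exists_trig f hf hc (ε / 2) (by positivity)
  have hc0 := const_coeff f hc hf (ε / 2) c hcf
  refine ⟨c.support.erase 0, 1 + ∑ h ∈ c.support, ‖c h‖, by positivity, ?_, ?_⟩
  · intro h hh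
    exact (mem_erase.1 hh).1
  · intro I W x δ hW hδ hexp
    set m : ℝ := ∫ x in (0 : ℝ)..1, f x with hm
    set T : ℝ → ℂ := fun y => ∑ h ∈ c.support, c h * e (h * y) with hT
    have hWsum : 0 ≤ ∑ n ∈ I, W n := sum_nonneg hW
    have e1 : ((∑ n ∈ I, W n * f (Int.fract (x n)) - m * ∑ n ∈ I, W n : ℝ) : ℂ)
        = (∑ n ∈ I, ((W n : ℝ) : ℂ) * (((f (Int.fract (x n)) : ℝ) : ℂ) - T (x n)))
          + (c 0 - m) * ∑ n ∈ I, ((W n : ℝ) : ℂ)
          + ∑ h ∈ c.support.erase 0, c h * ∑ n ∈ I, ((W n : ℝ) : ℂ) * e (h * x n) := by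
      have e2 : ∑ n ∈ I, ((W n : ℝ) : ℂ) * T (x n)
          = c 0 * ∑ n ∈ I, ((W n : ℝ) : ℂ)
            + ∑ h ∈ c.support.erase 0, c h * ∑ n ∈ I, ((W n : ℝ) : ℂ) * e (h * x n) := by
        have e3 : ∑ n ∈ I, ((W n : ℝ) : ℂ) * T (x n)
            = ∑ h ∈ c.support, c h * ∑ n ∈ I, ((W n : ℝ) : ℂ) * e (h * x n) := by
          simp only [hT]
          simp_rw [mul_sum]
          rw [sum_comm]
          apply sum_congr rfl
          intro h _
          apply sum_congr rfl
          intro n _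
          ring
        rw [e3]
        by_cases h0 : (0 : ℤ) ∈ c.support
        · rw [← add_sum_erase _ _ h0]
          congr 1
          simp [e_zero]
        · rw [erase_eq_of_notMem h0]
          rw [Finsupp.notMem_support_iff] at h0
          rw [h0]
          simp
      have e4 : ∑ n ∈ I, ((W n : ℝ) : ℂ) * (((f (Int.fract (x n)) : ℝ) : ℂ) - T (x n))
          = ∑ n ∈ I, ((W n : ℝ) : ℂ) * ((f (Int.fract (x n)) : ℝ) : ℂ)
            - ∑ n ∈ I, ((W n : ℝ) : ℂ) * T (x n) := by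
        rw [← sum_sub_distrib]
        apply sum_congr rfl
        intro n _
        ring
      rw [e4, e2]
      push_cast
      ring
    have b1 : ‖∑ n ∈ I, ((W n : ℝ) : ℂ) * (((f (Int.fract (x n)) : ℝ) : ℂ) - T (x n))‖
        ≤ (ε / 2) * ∑ n ∈ I, W n := by
      rw [mul_sum]
      refine (norm_sum_le _ _).trans (sum_le_sum ?_)
      intro n hn
      rw [norm_mul, Complex.norm_real, Real.norm_eq_abs, abs_of_nonneg (hW n hn), norm_sub_rev,
        mul_comm]
      exact mul_le_mul_of_nonneg_right (hcf (x n)) (hW n hn)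
    have b2 : ‖(c 0 - (m : ℂ)) * ∑ n ∈ I, ((W n : ℝ) : ℂ)‖ ≤ (ε / 2) * ∑ n ∈ I, W n := by
      have : ∑ n ∈ I, ((W n : ℝ) : ℂ) = ((∑ n ∈ I, W n : ℝ) : ℂ) := by push_cast; rfl
      rw [norm_mul, this, Complex.norm_real, Real.norm_eq_abs, abs_of_nonneg hWsum]
      exact mul_le_mul_of_nonneg_right hc0 hWsum
    have b3 : ‖∑ h ∈ c.support.erase 0, c h * ∑ n ∈ I, ((W n : ℝ) : ℂ) * e (h * x n)‖
        ≤ (1 + ∑ h ∈ c.support, ‖c h‖) * δ := by
      calc _ ≤ ∑ h ∈ c.support.erase 0, ‖c h‖ * δ := by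
            refine (norm_sum_le _ _).trans (sum_le_sum ?_)
            intro h hh
            rw [norm_mul]
            exact mul_le_mul_of_nonneg_left (hexp h hh) (norm_nonneg _)
        _ ≤ ∑ h ∈ c.support, ‖c h‖ * δ := by
            apply sum_le_sum_of_subset_of_nonneg (erase_subset _ _)
            intro i _ _
            positivity
        _ = (∑ h ∈ c.support, ‖c h‖) * δ := by rw [sum_mul]
        _ ≤ _ := by
            gcongr
            linarith
    have b0 : |∑ n ∈ I, W n * f (Int.fract (x n)) - m * ∑ n ∈ I, W n|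
        = ‖((∑ n ∈ I, W n * f (Int.fract (x n)) - m * ∑ n ∈ I, W n : ℝ) : ℂ)‖ := by
      rw [Complex.norm_real, Real.norm_eq_abs]
    rw [b0, e1]
    refine (norm_add_le _ _).trans ?_
    have := norm_add_le (∑ n ∈ I, ((W n : ℝ) : ℂ) * (((f (Int.fract (x n)) : ℝ) : ℂ) - T (x n)))
      ((c 0 - (m : ℂ)) * ∑ n ∈ I, ((W n : ℝ) : ℂ))
    linarith

end Pool.Agent.H24.Sqf
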