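import Mathlib
import Pool.Agent.H24.Sqf.Trig
import Pool.Agent.H24.Sqf.ExpPrime2

namespace Pool.Agent.H24.Sqf

open Finset ArithmeticFunction Filter Topology

theorem fract_weighted (ε : ℝ) (hε : 0 < ε) : ∃ (s : Finset ℤ) (B : ℝ), 0 < B ∧ (∀ h ∈ s, h ≠ 0) ∧
    ∀ (I : Finset ℕ) (W : ℕ → ℝ) (x : ℕ → ℝ) (δ : ℝ), (∀ n ∈ I, 0 ≤ W n) → 0 ≤ δ →
      (∀ h ∈ s, ‖∑ n ∈ I, ((W n : ℝ) : ℂ) * e (h * x n)‖ ≤ δ) →
      |∑ n ∈ I, W n * (Int.fract (x n) - 1 / 2)| ≤ ε * ∑ n ∈ I, W n + B * δ := by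
  obtain ⟨k, hk⟩ : ∃ k : ℕ, 2 / ε < k := exists_nat_gt _
  have hk' : 1 / ((k : ℝ) + 1) ≤ ε / 2 := by
    rw [div_lt_iff₀ hε] at hk
    rw [div_le_div_iff₀ (by positivity) (by norm_num)]
    nlinarith
  have hk1 : k ≠ 0 := by
    rintro rfl
    have : 0 < 2 / ε := by positivity
    simp at hk
    linarith
  obtain ⟨s1, B1, hB1, hs1, h1⟩ := weighted_upper (fun x => x + (1 - x) ^ k) (by simp [hk1])
    (by fun_prop) (ε / 2) (by positivity)
  obtain ⟨s2, B2, hB2, hs2, h2⟩ := weighted_upper (fun x => x - x ^ k) (by simp [hk1])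
    (by fun_prop) (ε / 2) (by positivity)
  have i1 : ∫ x in (0 : ℝ)..1, (x + (1 - x) ^ k) = 1 / 2 + 1 / ((k : ℝ) + 1) := by
    rw [intervalIntegral.integral_add (by apply Continuous.intervalIntegrable; fun_prop)
      (by apply Continuous.intervalIntegrable; fun_prop)]
    rw [intervalIntegral.integral_comp_sub_left (fun x => x ^ k) (1 : ℝ)]
    simp
  have i2 : ∫ x in (0 : ℝ)..1, (x - x ^ k) = 1 / 2 - 1 / ((k : ℝ) + 1) := by
    rw [intervalIntegral.integral_sub (by apply Continuous.intervalIntegrable; fun_prop)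
      (by apply Continuous.intervalIntegrable; fun_prop)]
    simp
  rw [i1] at h1
  rw [i2] at h2
  refine ⟨s1 ∪ s2, B1 + B2, by positivity, ?_, ?_⟩
  · intro h hh
    rcases mem_union.1 hh with h' | h'
    · exact hs1 h h'
    · exact hs2 h h'
  · intro I W x δ hW hδ hexp
    have r1 := h1 I W x δ hW hδ (fun h hh => hexp h (mem_union_left _ hh))
    have r2 := h2 I W x δ hW hδ (fun h hh => hexp h (mem_union_right _ hh))
    have hWsum : 0 ≤ ∑ n ∈ I, W n := sum_nonneg hW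
    set Z := ∑ n ∈ I, W n with hZ
    have u1 : ∑ n ∈ I, W n * Int.fract (x n)
        ≤ ∑ n ∈ I, W n * (Int.fract (x n) + (1 - Int.fract (x n)) ^ k) := by
      apply sum_le_sum
      intro n hn
      have := Int.fract_lt_one (x n)
      have h3 : 0 ≤ (1 - Int.fract (x n)) ^ k := pow_nonneg (by linarith) k
      exact mul_le_mul_of_nonneg_left (by linarith) (hW n hn)
    have u2 : ∑ n ∈ I, W n * (Int.fract (x n) - (Int.fract (x n)) ^ k)
        ≤ ∑ n ∈ I, W n * Int.fract (x n) := by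
      apply sum_le_sum
      intro n hn
      have h3 : 0 ≤ (Int.fract (x n)) ^ k := pow_nonneg (Int.fract_nonneg _) k
      exact mul_le_mul_of_nonneg_left (by linarith) (hW n hn)
    have e1 : ∑ n ∈ I, W n * (Int.fract (x n) - 1 / 2) = ∑ n ∈ I, W n * Int.fract (x n) - Z / 2 := by
      rw [hZ, sum_div, ← sum_sub_distrib]
      apply sum_congr rfl
      intro n _
      ring
    rw [e1]
    rw [abs_le] at r1 r2
    have hkZ : 1 / ((k : ℝ) + 1) * Z ≤ ε / 2 * Z := mul_le_mul_of_nonneg_right hk' hWsum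
    have hB1δ : 0 ≤ B1 * δ := by positivity
    have hB2δ : 0 ≤ B2 * δ := by positivity
    rw [abs_le]
    constructor
    · nlinarith [r2.1]
    · nlinarith [r1.2]

theorem exp_prime4 (j A : ℕ) (hj : 1 ≤ j) (hj3 : j ≤ 3) (ε : ℝ) (hε : 0 < ε) : ∃ P₀ : ℕ,
    ∀ P : ℕ, P₀ ≤ P → ∀ F : ℝ, (P : ℝ) ^ 6 ≤ |F| → |F| ≤ (P : ℝ) ^ A →
      ‖∑ n ∈ Ioc P (4 * P), ((Λ n : ℝ) : ℂ) * e (F / (n : ℝ) ^ j)‖ ≤ ε * P := by
  obtain ⟨P₁, h⟩ := exp_prime j A hj (ε / 3) (by positivity)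
  refine ⟨max P₁ 32, ?_⟩
  intro P hP F hF1 hF2
  have hPP1 : P₁ ≤ P := le_trans (le_max_left _ _) hP
  have hP32 : 32 ≤ P := le_trans (le_max_right _ _) hP
  have hPR : (32 : ℝ) ≤ P := by exact_mod_cast hP32
  have hPpos : (0 : ℝ) < P := by linarith
  have hP1 : (1 : ℝ) ≤ P := by linarith
  have e1 : Ioc P (4 * P) = Ioc P (2 * P) ∪ Ioc (2 * P) (2 * (2 * P)) := by
    ext x; simp only [mem_union, mem_Ioc]; omega
  rw [e1, sum_union]
  · have a1 := h P hPP1 F (by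
      rw [le_div_iff₀ (by positivity), ← pow_add]
      refine le_trans ?_ hF1
      exact pow_le_pow_right₀ hP1 (by omega)) (by
      rw [div_le_iff₀ (by positivity)]
      refine hF2.trans ?_
      exact le_mul_of_one_le_right (by positivity) (one_le_pow₀ hP1))
    have a2 := h (2 * P) (by omega) F (by
      push_cast
      rw [le_div_iff₀ (by positivity), ← pow_add]
      refine le_trans ?_ hF1
      calc (2 * (P : ℝ)) ^ (2 + j) ≤ (2 * (P : ℝ)) ^ 5 := pow_le_pow_right₀ (by linarith) (by omega)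
        _ = 32 * (P : ℝ) ^ 5 := by ring
        _ ≤ P * (P : ℝ) ^ 5 := by gcongr
        _ = (P : ℝ) ^ 6 := by ring) (by
      push_cast
      rw [div_le_iff₀ (by positivity)]
      refine hF2.trans ?_
      calc (P : ℝ) ^ A ≤ (2 * (P : ℝ)) ^ A := by gcongr; linarith
        _ ≤ (2 * (P : ℝ)) ^ A * (2 * (P : ℝ)) ^ j :=
          le_mul_of_one_le_right (by positivity) (one_le_pow₀ (by linarith)))
    refine (norm_add_le _ _).trans ?_
    push_cast at a2
    linarith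
  · rw [Finset.disjoint_left]
    intro x hx hx'
    rw [mem_Ioc] at hx hx'
    omega

theorem log_sqrt_small (ε : ℝ) (hε : 0 < ε) : ∃ P₀ : ℕ, ∀ P : ℕ, P₀ ≤ P →
    2 * Real.sqrt (4 * P) * Real.log (4 * P) ≤ ε * P := by
  have h1 : (fun x : ℝ => Real.log x) =o[atTop] fun x : ℝ => x ^ (1 / 2 : ℝ) :=
    isLittleO_log_rpow_atTop (by norm_num)
  have h2 := h1.def (show (0 : ℝ) < ε / 8 by positivity)
  obtain ⟨X, hX⟩ := eventually_atTop.1 h2
  obtain ⟨P₁, hP₁⟩ := exists_nat_ge (max X 1)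
  refine ⟨max P₁ 1, ?_⟩
  intro P hP
  have hPX : max X 1 ≤ (P : ℝ) := by
    have : P₁ ≤ P := le_trans (le_max_left _ _) hP
    exact hP₁.trans (by exact_mod_cast this)
  have hP1 : (1 : ℝ) ≤ P := (le_max_right _ _).trans hPX
  have hPX' : X ≤ P := (le_max_left _ _).trans hPX
  have h3 := hX (4 * P) (by linarith)
  have hlog : 0 ≤ Real.log (4 * P) := Real.log_nonneg (by linarith)
  rw [Real.norm_eq_abs, Real.norm_eq_abs, abs_of_nonneg hlog,
    abs_of_nonneg (by positivity), ← Real.sqrt_eq_rpow] at h3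
  calc 2 * Real.sqrt (4 * P) * Real.log (4 * P)
      ≤ 2 * Real.sqrt (4 * P) * (ε / 8 * Real.sqrt (4 * P)) := by gcongr
    _ = ε / 4 * (Real.sqrt (4 * P) * Real.sqrt (4 * P)) := by ring
    _ = ε / 4 * (4 * P) := by rw [Real.mul_self_sqrt (by positivity)]
    _ = ε * P := by ring

theorem sum_nonprime_le (P : ℕ) (hP : 1 ≤ P) :
    ∑ n ∈ (Ioc P (4 * P)) with ¬ n.Prime, Λ n ≤ 2 * Real.sqrt (4 * P) * Real.log (4 * P) := by
  have h1 := Chebyshev.psi_sub_theta_eq_sum_not_prime ((4 * P : ℕ) : ℝ)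
  rw [Nat.floor_natCast] at h1
  have h2 := Chebyshev.psi_sub_theta_le (x := ((4 * P : ℕ) : ℝ)) (by
    have : 1 ≤ 4 * P := by omega
    exact_mod_cast this)
  rw [h1] at h2
  push_cast at h2
  refine le_trans ?_ h2
  apply sum_le_sum_of_subset_of_nonneg
  · intro n hn
    have h3 := (mem_filter.1 hn).1
    have h4 := (mem_filter.1 hn).2
    rw [mem_Ioc] at h3
    refine mem_filter.2 ⟨?_, h4⟩
    rw [mem_Ioc]
    omega
  · intro i _ _
    exact vonMangoldt_nonneg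

theorem sum_Lambda_le (P : ℕ) : ∑ n ∈ Ioc P (4 * P), Λ n ≤ 24 * P := by
  have h1 := Chebyshev.psi_le_const_mul_self (x := ((4 * P : ℕ) : ℝ)) (by positivity)
  have h2 : ∑ n ∈ Ioc P (4 * P), Λ n ≤ Chebyshev.psi ((4 * P : ℕ) : ℝ) := by
    unfold Chebyshev.psi
    rw [Nat.floor_natCast]
    apply sum_le_sum_of_subset_of_nonneg
    · intro n hn
      simp only [mem_Ioc] at *
      omega
    · intro i _ _
      exact vonMangoldt_nonneg
  have h3 : Real.log 4 ≤ 2 := by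
    have : Real.log 4 = 2 * Real.log 2 := by
      rw [show (4 : ℝ) = 2 ^ 2 by norm_num, Real.log_pow]; norm_num
    rw [this]
    have := Real.log_two_lt_d9
    linarith
  have hP : (0 : ℝ) ≤ P := by positivity
  calc _ ≤ (Real.log 4 + 4) * ((4 * P : ℕ) : ℝ) := h2.trans h1
    _ ≤ (2 + 4) * ((4 * P : ℕ) : ℝ) := by gcongr
    _ = 24 * P := by push_cast; ring

/-- Equidistribution on average of `x / p^j` modulo one over primes `p ∈ (P, 4P]`. -/
theorem prime_fract (A : ℕ) (ε : ℝ) (hε : 0 < ε) : ∃ P₀ : ℕ, ∀ P : ℕ, P₀ ≤ P →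
    ∀ x : ℝ, (P : ℝ) ^ 6 ≤ x → x ≤ (P : ℝ) ^ A → ∀ j : ℕ, 1 ≤ j → j ≤ 3 →
      |∑ p ∈ (Ioc P (4 * P)) with p.Prime, Real.log p * (Int.fract (x / (p : ℝ) ^ j) - 1 / 2)|
        ≤ ε * P := by
  obtain ⟨s, B, hB, hs, hfw⟩ := fract_weighted (ε / 72) (by positivity)
  -- bound for |h|
  obtain ⟨Hs, hHs⟩ : ∃ Hs : ℕ, ∀ h ∈ s, |(h : ℝ)| ≤ Hs := by
    obtain ⟨Hs, hHs⟩ := exists_nat_ge (∑ h ∈ s, |(h : ℝ)|)
    refine ⟨Hs, fun h hh => ?_⟩
    refine le_trans ?_ hHs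
    exact single_le_sum (f := fun h : ℤ => |(h : ℝ)|) (fun _ _ => abs_nonneg _) hh
  have hexp : ∀ j : ℕ, 1 ≤ j → j ≤ 3 → ∃ P₀ : ℕ,
      ∀ P : ℕ, P₀ ≤ P → ∀ F : ℝ, (P : ℝ) ^ 6 ≤ |F| → |F| ≤ (P : ℝ) ^ (A + 1) →
      ‖∑ n ∈ Ioc P (4 * P), ((Λ n : ℝ) : ℂ) * e (F / (n : ℝ) ^ j)‖ ≤ (ε / (3 * B)) * P :=
    fun j hj hj3 => exp_prime4 j (A + 1) hj hj3 _ (by positivity)
  obtain ⟨P1, hP1⟩ := hexp 1 (by norm_num) (by norm_num)
  obtain ⟨P2, hP2⟩ := hexp 2 (by norm_num) (by norm_num)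
  obtain ⟨P3, hP3⟩ := hexp 3 (by norm_num) (by norm_num)
  obtain ⟨P4, hP4⟩ := log_sqrt_small (ε / 3) (by positivity)
  refine ⟨P1 + P2 + P3 + P4 + Hs + 1, ?_⟩
  intro P hP x hx1 hx2 j hj1 hj3
  have hPpos : (0 : ℝ) < P := by
    have : 0 < P := by omega
    exact_mod_cast this
  have hxpos : 0 < x := lt_of_lt_of_le (by positivity) hx1
  have hPH : (Hs : ℝ) ≤ P := by
    have : Hs ≤ P := by omega
    exact_mod_cast this
  have hsum : ∀ h ∈ s, ‖∑ n ∈ Ioc P (4 * P), ((Λ n : ℝ) : ℂ) * e (h * (x / (n : ℝ) ^ j))‖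
      ≤ (ε / (3 * B)) * P := by
    intro h hh
    have e1 : ∑ n ∈ Ioc P (4 * P), ((Λ n : ℝ) : ℂ) * e (h * (x / (n : ℝ) ^ j))
        = ∑ n ∈ Ioc P (4 * P), ((Λ n : ℝ) : ℂ) * e ((h * x) / (n : ℝ) ^ j) := by
      apply sum_congr rfl
      intro n _
      rw [mul_div_assoc]
    rw [e1]
    have hh1 : (1 : ℝ) ≤ |(h : ℝ)| := by
      have := Int.one_le_abs (hs h hh)
      exact_mod_cast this
    have b1 : (P : ℝ) ^ 6 ≤ |(h : ℝ) * x| := by
      rw [abs_mul, abs_of_pos hxpos]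
      nlinarith
    have b2 : |(h : ℝ) * x| ≤ (P : ℝ) ^ (A + 1) := by
      rw [abs_mul, abs_of_pos hxpos, pow_succ']
      have := hHs h hh
      gcongr
      linarith
    have hj : j = 1 ∨ j = 2 ∨ j = 3 := by omega
    rcases hj with rfl | rfl | rfl
    · exact hP1 P (by omega) _ b1 b2
    · exact hP2 P (by omega) _ b1 b2
    · exact hP3 P (by omega) _ b1 b2
  have hmain := hfw (Ioc P (4 * P)) (fun n => Λ n) (fun n => x / (n : ℝ) ^ j)
    ((ε / (3 * B)) * P) (fun n _ => vonMangoldt_nonneg) (by positivity) hsum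
  have hsplit : ∑ n ∈ Ioc P (4 * P), Λ n * (Int.fract (x / (n : ℝ) ^ j) - 1 / 2)
      = ∑ p ∈ (Ioc P (4 * P)) with p.Prime, Real.log p * (Int.fract (x / (p : ℝ) ^ j) - 1 / 2)
        + ∑ n ∈ (Ioc P (4 * P)) with ¬ n.Prime, Λ n * (Int.fract (x / (n : ℝ) ^ j) - 1 / 2) := by
    rw [← sum_filter_add_sum_filter_not (Ioc P (4 * P)) (fun n => n.Prime)]
    congr 1
    apply sum_congr rfl
    intro p hp
    rw [mem_filter] at hp
    rw [vonMangoldt_apply_prime hp.2]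
  have hnp : |∑ n ∈ (Ioc P (4 * P)) with ¬ n.Prime, Λ n * (Int.fract (x / (n : ℝ) ^ j) - 1 / 2)|
      ≤ (ε / 3) * P := by
    calc _ ≤ ∑ n ∈ (Ioc P (4 * P)) with ¬ n.Prime, |Λ n * (Int.fract (x / (n : ℝ) ^ j) - 1 / 2)| :=
          abs_sum_le_sum_abs _ _
      _ ≤ ∑ n ∈ (Ioc P (4 * P)) with ¬ n.Prime, Λ n := by
          apply sum_le_sum
          intro n _
          rw [abs_mul, abs_of_nonneg vonMangoldt_nonneg]
          have h1 : |Int.fract (x / (n : ℝ) ^ j) - 1 / 2| ≤ 1 := by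
            have h2 := Int.fract_nonneg (x / (n : ℝ) ^ j)
            have h3 := Int.fract_lt_one (x / (n : ℝ) ^ j)
            rw [abs_le]; constructor <;> linarith
          calc Λ n * |Int.fract (x / (n : ℝ) ^ j) - 1 / 2| ≤ Λ n * 1 := by
                gcongr
            _ = Λ n := mul_one _
      _ ≤ 2 * Real.sqrt (4 * P) * Real.log (4 * P) := sum_nonprime_le P (by omega)
      _ ≤ (ε / 3) * P := hP4 P (by omega)
  have hfin : ε / 72 * ∑ n ∈ Ioc P (4 * P), Λ n + B * ((ε / (3 * B)) * P) ≤ (2 * ε / 3) * P := by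
    have h1 := sum_Lambda_le P
    have h2 : B * ((ε / (3 * B)) * P) = (ε / 3) * P := by field_simp
    rw [h2]
    have h3 : ε / 72 * ∑ n ∈ Ioc P (4 * P), Λ n ≤ ε / 72 * (24 * P) := by gcongr
    linarith
  rw [hsplit] at hmain
  have h4 := hmain.trans hfin
  rw [abs_le] at h4 hnp ⊢
  constructor <;> linarith [h4.1, h4.2, hnp.1, hnp.2]

/-- Chebyshev lower bound on `(P, 4P]`. -/
theorem theta_lower : ∃ P₀ : ℕ, ∀ P : ℕ, P₀ ≤ P →
    (P : ℝ) ≤ ∑ p ∈ (Ioc P (4 * P)) with p.Prime, Real.log p := by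
  obtain ⟨P1, hP1⟩ := log_sqrt_small (1 / 10) (by norm_num)
  refine ⟨P1 + 1, ?_⟩
  intro P hP
  have hPR : (1 : ℝ) ≤ P := by
    have : 1 ≤ P := by omega
    exact_mod_cast this
  have h1 := Chebyshev.theta_ge (4 * P)
  have h2 := Chebyshev.theta_le_log4_mul_x (x := (P : ℝ)) (by positivity)
  have h3 : Chebyshev.theta ((4 * P : ℕ) : ℝ) - Chebyshev.theta (P : ℝ)
      = ∑ p ∈ (Ioc P (4 * P)) with p.Prime, Real.log p := by
    unfold Chebyshev.theta
    rw [Nat.floor_natCast, Nat.floor_natCast]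
    have : (Ioc 0 (4 * P)).filter (fun p => p.Prime)
        = (Ioc 0 P).filter (fun p => p.Prime) ∪ (Ioc P (4 * P)).filter (fun p => p.Prime) := by
      rw [← filter_union]
      congr 1
      ext x; simp only [mem_union, mem_Ioc]; omega
    rw [this, sum_union]
    · ring
    · rw [Finset.disjoint_left]
      intro x hx hx'
      simp only [mem_filter, mem_Ioc] at hx hx'
      omega
  rw [← h3]
  push_cast at h1 ⊢
  have h4 := hP1 P (by omega)
  have hlog4 : Real.log 4 = 2 * Real.log 2 := by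
    rw [show (4 : ℝ) = 2 ^ 2 by norm_num, Real.log_pow]; norm_num
  have h5 := Real.log_two_gt_d9
  have h6 := Real.log_two_lt_d9
  have hlog : Real.log (4 * P + 1) ≤ 2 * Real.sqrt (4 * P) * Real.log (4 * P) := by
    have e1 : Real.log (4 * (P : ℝ) + 1) ≤ Real.log ((4 * P) ^ 2) := by
      apply Real.log_le_log (by positivity)
      nlinarith
    rw [Real.log_pow] at e1
    push_cast at e1
    have e2 : 0 ≤ Real.log (4 * P) := Real.log_nonneg (by linarith)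
    have e3 : 1 ≤ Real.sqrt (4 * P) := by
      rw [Real.one_le_sqrt]; linarith
    nlinarith
  nlinarith

end Pool.Agent.H24.Sqf
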