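import Mathlib
import Pool.Agent.H24.Sqf.Assembly

namespace Pool.Agent.H24.Sqf

open Finset Filter Topology

theorem descFactorial_periodic (n T k : ℕ) :
    (n + T).descFactorial k ≡ n.descFactorial k [MOD T] := by
  induction k with
  | zero => simp [Nat.ModEq.refl]
  | succ k ih =>
    rw [Nat.descFactorial_succ, Nat.descFactorial_succ]
    by_cases h : k ≤ n
    · have : n + T - k = (n - k) + T := by omega
      rw [this]
      apply Nat.ModEq.mul _ ih
      simp [Nat.ModEq]
    · have h0 : n.descFactorial k = 0 := Nat.descFactorial_eq_zero_iff_lt.2 (by omega)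
      rw [h0] at ih ⊢
      calc (n + T - k) * (n + T).descFactorial k ≡ (n + T - k) * 0 [MOD T] :=
            Nat.ModEq.mul_left _ ih
        _ ≡ (n - k) * 0 [MOD T] := by simp [Nat.ModEq.refl]

theorem choose_periodic (n m k c : ℕ) :
    (n + (k.factorial * m) * c).choose k ≡ n.choose k [MOD m] := by
  have h := descFactorial_periodic n ((k.factorial * m) * c) k
  rw [Nat.descFactorial_eq_factorial_mul_choose, Nat.descFactorial_eq_factorial_mul_choose] at h
  have h2 : k.factorial * (n + (k.factorial * m) * c).choose k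
      ≡ k.factorial * n.choose k [MOD (k.factorial * m)] := by
    exact Nat.ModEq.of_dvd (Dvd.intro _ rfl) h
  exact Nat.ModEq.mul_left_cancel' (Nat.factorial_ne_zero k) h2

theorem density_periodic (P : ℕ → Prop) [DecidablePred P] (T : ℕ) (hT : 0 < T)
    (hP : ∀ n, P (n + T) ↔ P n) :
    Tendsto (fun N : ℕ => (#{n ∈ range N | P n} : ℝ) / N) atTop
      (𝓝 ((#{n ∈ range T | P n} : ℝ) / T)) := by
  set c : ℝ := (#{n ∈ range T | P n} : ℝ) with hc
  have hTpos : (0 : ℝ) < T := by exact_mod_cast hT
  have hcT : c ≤ T := by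
    rw [hc]
    have : #{n ∈ range T | P n} ≤ #(range T) := card_filter_le _ _
    rw [card_range] at this
    exact_mod_cast this
  have hc0 : 0 ≤ c := by positivity
  have hper : ∀ N : ℕ, (#{n ∈ range (N + T) | P n} : ℝ) = #{n ∈ range N | P n} + c := by
    intro N
    induction N with
    | zero => simp [hc]
    | succ N ih =>
      have e1 : N + 1 + T = (N + T) + 1 := by ring
      rw [e1, range_add_one, range_add_one, filter_insert, filter_insert]
      by_cases hN : P N
      · have hN' : P (N + T) := (hP N).2 hN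
        rw [if_pos hN, if_pos hN', card_insert_of_notMem (by simp), card_insert_of_notMem (by simp)]
        push_cast
        rw [ih]; ring
      · have hN' : ¬ P (N + T) := fun h => hN ((hP N).1 h)
        rw [if_neg hN, if_neg hN', ih]
  have hbd : ∀ N : ℕ, |(#{n ∈ range N | P n} : ℝ) - N * (c / T)| ≤ T := by
    intro N
    induction N using Nat.strong_induction_on with
    | _ N ih =>
      by_cases hN : N < T
      · have h1 : (#{n ∈ range N | P n} : ℝ) ≤ N := by
          have : #{n ∈ range N | P n} ≤ #(range N) := card_filter_le _ _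
          rw [card_range] at this
          exact_mod_cast this
        have h2 : (N : ℝ) ≤ T := by exact_mod_cast hN.le
        have h3 : (N : ℝ) * (c / T) ≤ T := by
          rw [mul_div_assoc', div_le_iff₀ hTpos]
          have : (0 : ℝ) ≤ N := by positivity
          nlinarith
        have h4 : 0 ≤ (N : ℝ) * (c / T) := by positivity
        have h5 : (0 : ℝ) ≤ (#{n ∈ range N | P n} : ℝ) := by positivity
        rw [abs_le]; constructor <;> linarith
      · have h1 := ih (N - T) (by omega)
        have h2 := hper (N - T)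
        have e1 : N - T + T = N := by omega
        rw [e1] at h2
        rw [h2]
        have e2 : ((N - T : ℕ) : ℝ) = N - T := by
          rw [Nat.cast_sub (by omega)]
        rw [e2] at h1
        have e3 : (#{n ∈ range (N - T) | P n} : ℝ) + c - N * (c / T)
            = #{n ∈ range (N - T) | P n} - (N - T) * (c / T) := by
          field_simp
          ring
        rw [e3]; exact h1
  have h1 : Tendsto (fun N : ℕ => ((#{n ∈ range N | P n} : ℝ) - N * (c / T)) / N) atTop (𝓝 0) := by
    apply squeeze_zero_norm (a := fun N : ℕ => (T : ℝ) / N)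
    · intro N
      rw [norm_div, Real.norm_eq_abs, Real.norm_natCast]
      gcongr
      exact hbd N
    · exact tendsto_const_div_atTop_nhds_zero_nat _
  have h2 := h1.add (tendsto_const_nhds (x := c / (T : ℝ)))
  rw [zero_add] at h2
  refine h2.congr' ?_
  filter_upwards [eventually_ge_atTop 1] with N hN
  have hNpos : (0 : ℝ) < N := by exact_mod_cast hN
  field_simp
  ring

theorem sq_dvd_descFactorial {p : ℕ} (hp : p.Prime) (n : ℕ) (k : ℕ) (hkp : k < p) (hkn : k ≤ n)
    (h : p ^ 2 ∣ n.descFactorial k) : ∃ i < k, p ^ 2 ∣ n - i := by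
  induction k with
  | zero =>
    simp only [Nat.descFactorial_zero, Nat.dvd_one] at h
    have := hp.one_lt
    nlinarith
  | succ k ih =>
    rw [Nat.descFactorial_succ] at h
    by_cases hpk : p ∣ n - k
    · refine ⟨k, Nat.lt_succ_self k, ?_⟩
      have hnd : ¬ p ∣ n.descFactorial k := by
        intro hd
        have : ∀ j ≤ k, p ∣ n.descFactorial j → False := by
          intro j
          induction j with
          | zero =>
            intro _ hd
            simp only [Nat.descFactorial_zero, Nat.dvd_one] at hd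
            exact hp.one_lt.ne' hd
          | succ j ihj =>
            intro hj hd
            rw [Nat.descFactorial_succ, hp.dvd_mul] at hd
            rcases hd with hd | hd
            · have h1 : p ∣ (n - j) - (n - k) := Nat.dvd_sub hd hpk
              have h2 : (n - j) - (n - k) = k - j := by omega
              rw [h2] at h1
              have h3 := Nat.le_of_dvd (by omega) h1
              omega
            · exact ihj (by omega) hd
        exact this k le_rfl hd
      have hcop : Nat.Coprime (p ^ 2) (n.descFactorial k) := by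
        apply Nat.Coprime.pow_left
        exact (hp.coprime_iff_not_dvd).2 hnd
      exact hcop.dvd_of_dvd_mul_right h
    · have hcop : Nat.Coprime (p ^ 2) (n - k) := by
        apply Nat.Coprime.pow_left
        exact (hp.coprime_iff_not_dvd).2 hpk
      obtain ⟨i, hi, h⟩ := ih (by omega) (by omega) (hcop.dvd_of_dvd_mul_left h)
      exact ⟨i, by omega, h⟩

theorem count_dvd_sub (N i d : ℕ) (_hd : 0 < d) :
    (#{n ∈ range N | i < n ∧ d ∣ n - i} : ℝ) ≤ N / d := by
  have h1 : #{n ∈ range N | i < n ∧ d ∣ n - i} ≤ #{n ∈ Ioc 0 N | d ∣ n} := by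
    apply card_le_card_of_injOn (fun n => n - i)
    · intro n hn
      simp only [coe_filter, mem_range, Set.mem_ofPred_eq, mem_Ioc] at *
      refine ⟨⟨by omega, by omega⟩, hn.2.2⟩
    · intro x hx y hy hxy
      simp only [coe_filter, mem_range, Set.mem_ofPred_eq] at *
      omega
  rw [Nat.Ioc_filter_dvd_card_eq_div] at h1
  calc (#{n ∈ range N | i < n ∧ d ∣ n - i} : ℝ) ≤ ((N / d : ℕ) : ℝ) := by exact_mod_cast h1
    _ ≤ N / d := Nat.cast_div_le

theorem fixedK (k : ℕ) : ∃ ρ : ℝ, Tendsto (fun N : ℕ => (cnt0 N k : ℝ) / N) atTop (𝓝 ρ) := by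
  classical
  apply exists_tendsto_of_approx
  intro ε hε
  obtain ⟨z, hz⟩ : ∃ z : ℕ, (k : ℝ) / ε + (k + 2) < z := exists_nat_gt _
  have hzk : k + 2 < z := by
    have : ((k + 2 : ℕ) : ℝ) < z := by
      push_cast
      have : (0 : ℝ) ≤ k / ε := by positivity
      linarith
    exact_mod_cast this
  have hzpos : (0 : ℝ) < z := by
    have : 0 < z := by omega
    exact_mod_cast this
  have hze : (k : ℝ) / z ≤ ε := by
    rw [div_le_iff₀ hzpos]
    have : (k : ℝ) / ε < z := by
      have : (0 : ℝ) ≤ k + 2 := by positivity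
      linarith
    rw [div_lt_iff₀ hε] at this
    linarith
  set P : ℕ → Prop := fun n => ∀ p ≤ z, p.Prime → ¬ p ^ 2 ∣ n.choose k with hPdef
  set T : ℕ := (k.factorial * (z.factorial ^ 2)) * 1 with hTdef
  have hT : 0 < T := by
    rw [hTdef]
    have h1 := Nat.factorial_pos k
    have h2 := Nat.factorial_pos z
    positivity
  have hPper : ∀ n, P (n + T) ↔ P n := by
    intro n
    have h := choose_periodic n (z.factorial ^ 2) k 1
    rw [← hTdef] at h
    rw [hPdef]
    constructor
    · intro h1 p hpz hp hd
      apply h1 p hpz hp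
      have h2 : p ^ 2 ∣ z.factorial ^ 2 := pow_dvd_pow_of_dvd (Nat.dvd_factorial hp.pos hpz) 2
      exact ((h.dvd_iff h2).2 hd)
    · intro h1 p hpz hp hd
      apply h1 p hpz hp
      have h2 : p ^ 2 ∣ z.factorial ^ 2 := pow_dvd_pow_of_dvd (Nat.dvd_factorial hp.pos hpz) 2
      exact ((h.dvd_iff h2).1 hd)
  refine ⟨fun N => (#{n ∈ range N | P n} : ℝ) / N, _, density_periodic P T hT hPper, ?_⟩
  filter_upwards [eventually_ge_atTop 1] with N hN
  have hNpos : (0 : ℝ) < N := by exact_mod_cast hN
  -- squarefree ones are a subset of P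
  have hsub : {n ∈ range N | Squarefree (n.choose k)} ⊆ {n ∈ range N | P n} := by
    intro n hn
    simp only [mem_filter, mem_range] at *
    refine ⟨hn.1, ?_⟩
    intro p _ hp hd
    have := (Nat.squarefree_iff_prime_squarefree.1 hn.2) p hp
    rw [← sq] at this
    exact this hd
  have hdiff : {n ∈ range N | P n} \ {n ∈ range N | Squarefree (n.choose k)} ⊆
      (range k).biUnion (fun i => (Ioc z N).biUnion
        (fun d => {n ∈ range N | i < n ∧ d ^ 2 ∣ n - i})) := by
    intro n hn
    rw [Finset.mem_sdiff, Finset.mem_filter, Finset.mem_filter, Finset.mem_range, not_and] at hn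
    obtain ⟨⟨hnN, hPn⟩, hns⟩ := hn
    have hns' := hns hnN
    have hkn : k ≤ n := by
      by_contra hlt
      have h0 : n.choose k = 0 := Nat.choose_eq_zero_of_lt (by omega)
      have := hPn 2 (by omega) Nat.prime_two
      rw [h0] at this
      exact this (dvd_zero _)
    rw [Nat.squarefree_iff_prime_squarefree] at hns'
    push Not at hns'
    obtain ⟨p, hp, hpd⟩ := hns'
    rw [← sq] at hpd
    have hpz : z < p := by
      by_contra hle
      exact hPn p (by omega) hp hpd
    have h1 : p ^ 2 ∣ n.descFactorial k := by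
      rw [Nat.descFactorial_eq_factorial_mul_choose]
      exact Dvd.dvd.mul_left hpd _
    obtain ⟨i, hik, hi⟩ := sq_dvd_descFactorial hp n k (by omega) hkn h1
    simp only [mem_biUnion, mem_range, mem_Ioc, mem_filter]
    have h2 : p ^ 2 ≤ n - i := Nat.le_of_dvd (by omega) hi
    have h3 : p ≤ p ^ 2 := Nat.le_self_pow (by norm_num) p
    exact ⟨i, hik, p, ⟨hpz, by omega⟩, hnN, by omega, hi⟩
  have hcard : (#({n ∈ range N | P n}) : ℝ) - cnt0 N k ≤ k * (N / z) := by
    have h1 : #({n ∈ range N | P n}) = cnt0 N k
        + #({n ∈ range N | P n} \ {n ∈ range N | Squarefree (n.choose k)}) := by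
      rw [card_sdiff_of_subset hsub]
      unfold cnt0
      have := card_le_card hsub
      omega
    rw [h1]
    push_cast
    have h2 : (#({n ∈ range N | P n} \ {n ∈ range N | Squarefree (n.choose k)}) : ℝ)
        ≤ ∑ i ∈ range k, ∑ d ∈ Ioc z N, (N : ℝ) / ((d : ℝ) ^ 2) := by
      calc (#({n ∈ range N | P n} \ {n ∈ range N | Squarefree (n.choose k)}) : ℝ)
          ≤ #((range k).biUnion (fun i => (Ioc z N).biUnion
              (fun d => {n ∈ range N | i < n ∧ d ^ 2 ∣ n - i}))) := by
            exact_mod_cast card_le_card hdiff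
        _ ≤ ∑ i ∈ range k, (#((Ioc z N).biUnion
              (fun d => {n ∈ range N | i < n ∧ d ^ 2 ∣ n - i})) : ℝ) := by
            exact_mod_cast card_biUnion_le
        _ ≤ ∑ i ∈ range k, ∑ d ∈ Ioc z N, (#{n ∈ range N | i < n ∧ d ^ 2 ∣ n - i} : ℝ) := by
            apply sum_le_sum
            intro i _
            exact_mod_cast card_biUnion_le
        _ ≤ _ := by
            apply sum_le_sum
            intro i _
            apply sum_le_sum
            intro d hd
            rw [mem_Ioc] at hd
            have := count_dvd_sub N i (d ^ 2) (by have : 0 < d := by omega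
                                                  positivity)
            push_cast at this
            exact this
    have h3 : ∑ d ∈ Ioc z N, (N : ℝ) / ((d : ℝ) ^ 2) ≤ N / z := by
      by_cases hzN : z ≤ N
      · have := sum_Ioc_inv_sq_le_sub (α := ℝ) (k := z) (n := N) (by omega) hzN
        have h4 : ∑ d ∈ Ioc z N, (N : ℝ) / ((d : ℝ) ^ 2)
            = N * ∑ d ∈ Ioc z N, ((d : ℝ) ^ 2)⁻¹ := by
          rw [mul_sum]; rfl
        rw [h4, div_eq_mul_inv]
        have h5 : (0 : ℝ) ≤ (N : ℝ)⁻¹ := by positivity
        have h6 : ∑ d ∈ Ioc z N, ((d : ℝ) ^ 2)⁻¹ ≤ (z : ℝ)⁻¹ := by linarith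
        gcongr
      · rw [Ioc_eq_empty_of_le (by omega)]
        simp
        positivity
    have h4 : ∑ i ∈ range k, ∑ d ∈ Ioc z N, (N : ℝ) / ((d : ℝ) ^ 2) ≤ k * (N / z) := by
      calc _ ≤ ∑ i ∈ range k, (N : ℝ) / z := sum_le_sum (fun i _ => h3)
        _ = k * (N / z) := by rw [sum_const, card_range, nsmul_eq_mul]
    linarith
  have hle : (cnt0 N k : ℝ) ≤ #({n ∈ range N | P n}) := by
    unfold cnt0
    exact_mod_cast card_le_card hsub
  rw [← sub_div, abs_div, abs_of_pos hNpos, div_le_iff₀ hNpos, abs_sub_comm,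
    abs_of_nonneg (by linarith)]
  calc (#({n ∈ range N | P n}) : ℝ) - cnt0 N k ≤ k * (N / z) := hcard
    _ = (k / z) * N := by ring
    _ ≤ ε * N := by gcongr

end Pool.Agent.H24.Sqf
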