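import Mathlib
import Pool.Agent.H24.Sqf.Carry
import Pool.Agent.H24.Sqf.Equidist

namespace Pool.Agent.H24.Sqf

open Finset

theorem exists_root (k : ℕ) : ∃ P : ℕ, P ^ 6 ≤ k ∧ k < (P + 1) ^ 6 := by
  have h1 := Nat.findGreatest_spec (P := fun m => m ^ 6 ≤ k) (m := 0) (n := k) (Nat.zero_le _)
    (by simp)
  refine ⟨Nat.findGreatest (fun m => m ^ 6 ≤ k) k, h1, ?_⟩
  by_contra hcon
  push Not at hcon
  have h2 : Nat.findGreatest (fun m => m ^ 6 ≤ k) k + 1 ≤ k := by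
    refine le_trans ?_ hcon
    exact Nat.le_self_pow (by norm_num) _
  have h3 := Nat.findGreatest_is_greatest (P := fun m => m ^ 6 ≤ k)
    (Nat.lt_succ_self (Nat.findGreatest (fun m => m ^ 6 ≤ k) k)) h2
  exact h3 hcon

/-- primes in `(P, 4P]` -/
noncomputable def prs (P : ℕ) : Finset ℕ := (Ioc P (4 * P)).filter (fun p => p.Prime)

theorem mem_prs {P p : ℕ} : p ∈ prs P ↔ (P < p ∧ p ≤ 4 * P) ∧ p.Prime := by
  unfold prs; rw [mem_filter, mem_Ioc]

theorem prs_log_nonneg {P p : ℕ} (hp : p ∈ prs P) : 0 ≤ Real.log p := by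
  have := (mem_prs.1 hp).2.one_lt
  exact Real.log_nonneg (by exact_mod_cast this.le)

theorem partA : ∃ K₀ : ℕ, ∀ k ≥ K₀, ∀ n, 2 * k ≤ n → n ≤ k ^ 20 → ¬ Squarefree (n.choose k) := by
  obtain ⟨P₁, h1⟩ := prime_fract 140 (1 / 100) (by norm_num)
  obtain ⟨P₂, h2⟩ := theta_lower
  refine ⟨(P₁ + P₂ + 64) ^ 6, ?_⟩
  intro k hk n hkn hnk
  obtain ⟨P, hP1, hP2⟩ := exists_root k
  have hPlarge : P₁ + P₂ + 64 ≤ P := by
    by_contra hcon
    have h3 : (P + 1) ^ 6 ≤ (P₁ + P₂ + 64) ^ 6 := Nat.pow_le_pow_left (by omega) 6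
    omega
  have hP7 : k ≤ P ^ 7 := by
    refine le_trans hP2.le ?_
    calc (P + 1) ^ 6 ≤ (2 * P) ^ 6 := Nat.pow_le_pow_left (by omega) 6
      _ = 64 * P ^ 6 := by ring
      _ ≤ P * P ^ 6 := Nat.mul_le_mul_right _ (by omega)
      _ = P ^ 7 := by ring
  have hnP : n ≤ P ^ 140 := by
    refine le_trans hnk ?_
    calc k ^ 20 ≤ (P ^ 7) ^ 20 := Nat.pow_le_pow_left hP7 20
      _ = P ^ 140 := by ring
  have hPpos : (0 : ℝ) < P := by
    have : 0 < P := by omega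
    exact_mod_cast this
  -- the three evaluations
  have key : ∀ x : ℕ, P ^ 6 ≤ x → x ≤ n → ∀ j ∈ Icc 1 3,
      |∑ p ∈ prs P, Real.log p * (Int.fract ((x : ℝ) / (p : ℝ) ^ j) - 1 / 2)| ≤ 1 / 100 * P := by
    intro x hx1 hx2 j hj
    rw [mem_Icc] at hj
    exact h1 P (by omega) x (by exact_mod_cast hx1) (by exact_mod_cast hx2.trans hnP) j hj.1 hj.2
  have hΘ := h2 P (by omega)
  change (P : ℝ) ≤ ∑ p ∈ prs P, Real.log p at hΘ
  set Θ := ∑ p ∈ prs P, Real.log p with hΘdef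
  -- if no prime has two carries
  have hex : ∃ p ∈ prs P, 2 ≤ carries k p n := by
    by_contra hcon
    push Not at hcon
    have u1 : ∑ p ∈ prs P, Real.log p * (carries k p n : ℝ) ≤ Θ := by
      rw [hΘdef]
      apply sum_le_sum
      intro p hp
      have h3 := hcon p hp
      have h4 : (carries k p n : ℝ) ≤ 1 := by
        have : carries k p n ≤ 1 := by omega
        exact_mod_cast this
      have h5 := prs_log_nonneg hp
      nlinarith
    have u2 : ∑ p ∈ prs P, Real.log p * (carries k p n : ℝ)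
        = ∑ j ∈ Icc 1 3, (∑ p ∈ prs P, Real.log p * (Int.fract ((k : ℝ) / (p : ℝ) ^ j) - 1 / 2)
          + ∑ p ∈ prs P, Real.log p * (Int.fract (((n - k : ℕ) : ℝ) / (p : ℝ) ^ j) - 1 / 2)
          - ∑ p ∈ prs P, Real.log p * (Int.fract ((n : ℝ) / (p : ℝ) ^ j) - 1 / 2)
          + Θ / 2) := by
      have e1 : ∀ j ∈ Icc 1 3, (∑ p ∈ prs P, Real.log p * (Int.fract ((k : ℝ) / (p : ℝ) ^ j) - 1 / 2)
          + ∑ p ∈ prs P, Real.log p * (Int.fract (((n - k : ℕ) : ℝ) / (p : ℝ) ^ j) - 1 / 2)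
          - ∑ p ∈ prs P, Real.log p * (Int.fract ((n : ℝ) / (p : ℝ) ^ j) - 1 / 2)
          + Θ / 2) = ∑ p ∈ prs P, Real.log p * (Int.fract ((k : ℝ) / (p : ℝ) ^ j)
      + Int.fract (((n - k : ℕ) : ℝ) / (p : ℝ) ^ j) - Int.fract ((n : ℝ) / (p : ℝ) ^ j)) := by
        intro j _
        rw [hΘdef, sum_div, ← sum_add_distrib, ← sum_sub_distrib, ← sum_add_distrib]
        apply sum_congr rfl
        intro p _
        ring
      rw [sum_congr rfl e1, sum_comm]
      apply sum_congr rfl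
      intro p hp
      rw [carries_eq (mem_prs.1 hp).2 (by omega), mul_sum]
    have u3 : ∑ j ∈ Icc 1 3, (Θ / 2 - 3 / 100 * (P : ℝ)) ≤ ∑ p ∈ prs P, Real.log p * (carries k p n : ℝ) := by
      rw [u2]
      apply sum_le_sum
      intro j hj
      have v1 := abs_le.1 (key k hP1 (by omega) j hj)
      have v2 := abs_le.1 (key (n - k) (by omega) (by omega) j hj)
      have v3 := abs_le.1 (key n (by omega) le_rfl j hj)
      linarith [v1.1, v2.1, v3.2]
    rw [sum_const] at u3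
    simp at u3
    linarith
  obtain ⟨p, hp, hc⟩ := hex
  exact not_squarefree_of_carries (mem_prs.1 hp).2 (by omega) hc

end Pool.Agent.H24.Sqf
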