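import Mathlib
import Pool.Agent.H24.Sqf.Period

namespace Pool.Agent.H24.Sqf

open Finset

theorem variance {ι : Type*} [Fintype ι] [DecidableEq ι] (G : ι → Finset ℕ) (f : ℕ → ℕ → ℝ)
    (w : ℕ → ℝ) (m : ℕ → ℕ)
    (hm : ∀ i, ∀ p ∈ G i, 0 < m p)
    (hper : ∀ i, ∀ p ∈ G i, Function.Periodic (f p) (m p))
    (hzero : ∀ i, ∀ p ∈ G i, ∑ n ∈ range (m p), f p n = 0)
    (hone : ∀ i, ∀ p ∈ G i, ∀ n, |f p n| ≤ 1)
    (hw : ∀ i, ∀ p ∈ G i, 0 ≤ w p)
    (hvar : ∀ i, ∀ p ∈ G i, ∑ n ∈ range (m p), f p n ^ 2 ≤ m p * w p)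
    (hcop : ∀ i, ∀ j, ∀ p ∈ G i, ∀ q ∈ G j, p ≠ q → Nat.Coprime (m p) (m q))
    (hdis : ∀ i, ∀ j, i ≠ j → Disjoint (G i) (G j)) (N : ℕ) :
    ∑ n ∈ range N, ∏ i, (∑ p ∈ G i, f p n) ^ 2
      ≤ N * ∏ i, (∑ p ∈ G i, w p) + ∏ i, (∑ p ∈ G i, (m p : ℝ)) ^ 2 := by
  classical
  set t : ι → Finset (ℕ × ℕ) := fun i => G i ×ˢ G i with ht
  have e1 : ∀ n, ∏ i, (∑ p ∈ G i, f p n) ^ 2
      = ∑ x ∈ Fintype.piFinset t, ∏ i, (f (x i).1 n * f (x i).2 n) := by
    intro n
    rw [← prod_univ_sum t (fun _ y => f y.1 n * f y.2 n)]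
    apply prod_congr rfl
    intro i _
    rw [sq, sum_mul_sum, ← sum_product']
  have e2 : ∏ i, (∑ p ∈ G i, (m p : ℝ)) ^ 2
      = ∑ x ∈ Fintype.piFinset t, ∏ i, ((m (x i).1 : ℝ) * (m (x i).2 : ℝ)) := by
    rw [← prod_univ_sum t (fun _ y => (m y.1 : ℝ) * (m y.2 : ℝ))]
    apply prod_congr rfl
    intro i _
    rw [sq, sum_mul_sum, ← sum_product']
  have e3 : ∏ i, (∑ p ∈ G i, w p)
      = ∑ x ∈ Fintype.piFinset t, ∏ i, (if (x i).1 = (x i).2 then w (x i).1 else 0) := by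
    rw [← prod_univ_sum t (fun _ y => if y.1 = y.2 then w y.1 else 0)]
    apply prod_congr rfl
    intro i _
    rw [ht]
    simp only
    rw [sum_product]
    apply sum_congr rfl
    intro p hp
    simp only
    rw [sum_ite_eq (G i) p (fun _ => w p)]
    simp [hp]
  rw [sum_congr rfl (fun n _ => e1 n), sum_comm, e2, e3, mul_sum, ← sum_add_distrib]
  apply sum_le_sum
  intro x hx
  rw [Fintype.mem_piFinset] at hx
  have hx1 : ∀ i, (x i).1 ∈ G i := fun i => (mem_product.1 (hx i)).1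
  have hx2 : ∀ i, (x i).2 ∈ G i := fun i => (mem_product.1 (hx i)).2
  have hmx : ∀ i ∈ (univ : Finset ι), 0 < m (x i).1 * m (x i).2 := fun i _ =>
    Nat.mul_pos (hm i _ (hx1 i)) (hm i _ (hx2 i))
  have hperx : ∀ i ∈ (univ : Finset ι), Function.Periodic (fun n => f (x i).1 n * f (x i).2 n)
      (m (x i).1 * m (x i).2) := by
    intro i _ n
    simp only
    have h1 := (hper i _ (hx1 i)).nat_mul (m (x i).2) n
    have h2 := (hper i _ (hx2 i)).nat_mul (m (x i).1) n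
    simp only [Nat.cast_id] at h1 h2
    rw [h2, mul_comm (m (x i).1) (m (x i).2), h1]
  have hcopx : ∀ i ∈ (univ : Finset ι), ∀ j ∈ (univ : Finset ι), i ≠ j →
      Nat.Coprime (m (x i).1 * m (x i).2) (m (x j).1 * m (x j).2) := by
    intro i _ j _ hij
    have hd := hdis i j hij
    rw [Finset.disjoint_left] at hd
    have ne : ∀ p ∈ G i, ∀ q ∈ G j, p ≠ q := by
      rintro p hp q hq rfl
      exact hd hp hq
    apply Nat.Coprime.mul_left
    · apply Nat.Coprime.mul_right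
      · exact hcop i j _ (hx1 i) _ (hx1 j) (ne _ (hx1 i) _ (hx1 j))
      · exact hcop i j _ (hx1 i) _ (hx2 j) (ne _ (hx1 i) _ (hx2 j))
    · apply Nat.Coprime.mul_right
      · exact hcop i j _ (hx2 i) _ (hx1 j) (ne _ (hx2 i) _ (hx1 j))
      · exact hcop i j _ (hx2 i) _ (hx2 j) (ne _ (hx2 i) _ (hx2 j))
  have hsum := sum_prod_coprime univ (fun i => m (x i).1 * m (x i).2)
    (fun i n => f (x i).1 n * f (x i).2 n) hmx hperx hcopx
  have hpp := periodic_prod univ (fun i => m (x i).1 * m (x i).2)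
    (fun i n => f (x i).1 n * f (x i).2 n) hperx
  -- each local factor
  have hloc : ∀ i, 0 ≤ ∑ n ∈ range (m (x i).1 * m (x i).2), f (x i).1 n * f (x i).2 n ∧
      ∑ n ∈ range (m (x i).1 * m (x i).2), f (x i).1 n * f (x i).2 n
        ≤ ((m (x i).1 * m (x i).2 : ℕ) : ℝ) * (if (x i).1 = (x i).2 then w (x i).1 else 0) := by
    intro i
    by_cases h : (x i).1 = (x i).2
    · rw [← h]
      have h3 : Function.Periodic (fun n => f (x i).1 n * f (x i).1 n) (m (x i).1) := by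
        intro n
        simp only
        rw [hper i _ (hx1 i) n]
      rw [sum_periodic_mul h3]
      have h4 := hvar i _ (hx1 i)
      have h5 : ∑ n ∈ range (m (x i).1), f (x i).1 n * f (x i).1 n
          = ∑ n ∈ range (m (x i).1), f (x i).1 n ^ 2 := by
        apply sum_congr rfl; intro n _; ring
      rw [h5]
      constructor
      · apply mul_nonneg (Nat.cast_nonneg _)
        exact sum_nonneg (fun n _ => sq_nonneg _)
      · simp only [if_true]
        push_cast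
        calc (m (x i).1 : ℝ) * ∑ n ∈ range (m (x i).1), f (x i).1 n ^ 2
            ≤ (m (x i).1 : ℝ) * (m (x i).1 * w (x i).1) := by gcongr
          _ = _ := by ring
    · rw [sum_coprime_mul (hm i _ (hx1 i)) (hm i _ (hx2 i)) (hcop i i _ (hx1 i) _ (hx2 i) h)
        (hper i _ (hx1 i)) (hper i _ (hx2 i)), hzero i _ (hx1 i)]
      simp [h]
  have hA : 0 ≤ ∏ i, (if (x i).1 = (x i).2 then w (x i).1 else 0) := by
    apply prod_nonneg
    intro i _
    split_ifs
    · exact hw i _ (hx1 i)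
    · exact le_rfl
  have hM : 0 < ∏ i, (m (x i).1 * m (x i).2) := prod_pos hmx
  have hfin := sum_periodic_le (F := fun n => ∏ i, (f (x i).1 n * f (x i).2 n)) hM hpp ?_ hA ?_ N
  · push_cast at hfin
    exact hfin
  · intro n
    have : ∏ i, (f (x i).1 n * f (x i).2 n) ≤ ∏ i, |f (x i).1 n * f (x i).2 n| := by
      rw [← abs_prod]; exact le_abs_self _
    refine this.trans ?_
    apply prod_le_one
    · intro i _; exact abs_nonneg _
    · intro i _
      rw [abs_mul]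
      exact mul_le_one₀ (hone i _ (hx1 i) n) (abs_nonneg _) (hone i _ (hx2 i) n)
  · rw [hsum]
    calc ∏ i, ∑ n ∈ range (m (x i).1 * m (x i).2), f (x i).1 n * f (x i).2 n
        ≤ ∏ i, (((m (x i).1 * m (x i).2 : ℕ) : ℝ) * (if (x i).1 = (x i).2 then w (x i).1 else 0)) :=
          prod_le_prod (fun i _ => (hloc i).1) (fun i _ => (hloc i).2)
      _ = _ := by
          rw [prod_mul_distrib]
          push_cast
          rfl

end Pool.Agent.H24.Sqf
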