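import Mathlib
import Pool.Agent.H24.Sqf.Density
import Pool.Agent.H24.Sqf.Variance
import Pool.Agent.H24.Sqf.PartA
import Pool.Agent.H24.Sqf.Assembly

namespace Pool.Agent.H24.Sqf

open Finset Filter Topology

theorem mu_lower : ∃ P₀ : ℕ, ∀ P : ℕ, P₀ ≤ P → ∀ k : ℕ, P ^ 6 ≤ k → k ≤ P ^ 12 →
    (P : ℝ) / (5 * Real.log (4 * P)) ≤ ∑ p ∈ prs P, dens k p := by
  obtain ⟨P₁, h1⟩ := prime_fract 12 (1 / 100) (by norm_num)
  obtain ⟨P₂, h2⟩ := theta_lower
  refine ⟨P₁ + P₂ + 1, ?_⟩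
  intro P hP k hk1 hk2
  have hPpos : (1 : ℝ) ≤ P := by
    have : 1 ≤ P := by omega
    exact_mod_cast this
  have hlog : 0 < Real.log (4 * P) := Real.log_pos (by linarith)
  have hΘ := h2 P (by omega)
  change (P : ℝ) ≤ ∑ p ∈ prs P, Real.log p at hΘ
  have key : ∀ j ∈ Icc 1 3,
      |∑ p ∈ prs P, Real.log p * (Int.fract ((k : ℝ) / (p : ℝ) ^ j) - 1 / 2)| ≤ 1 / 100 * P := by
    intro j hj
    rw [mem_Icc] at hj
    exact h1 P (by omega) k (by exact_mod_cast hk1) (by exact_mod_cast hk2) j hj.1 hj.2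
  set Θ := ∑ p ∈ prs P, Real.log p with hΘdef
  have u1 : ∑ p ∈ prs P, Real.log p * (∑ j ∈ Icc 1 3, Int.fract ((k : ℝ) / (p : ℝ) ^ j))
      ≤ ∑ p ∈ prs P, Real.log p * (1 + 2 * dens k p) := by
    apply sum_le_sum
    intro p hp
    have h5 := prs_log_nonneg hp
    exact mul_le_mul_of_nonneg_left (dens_ge (mem_prs.1 hp).2.pos) h5
  have u2 : ∑ p ∈ prs P, Real.log p * (∑ j ∈ Icc 1 3, Int.fract ((k : ℝ) / (p : ℝ) ^ j))
      = ∑ j ∈ Icc 1 3, (∑ p ∈ prs P, Real.log p * (Int.fract ((k : ℝ) / (p : ℝ) ^ j) - 1 / 2)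
          + Θ / 2) := by
    have e1 : ∀ j ∈ Icc 1 3, (∑ p ∈ prs P, Real.log p * (Int.fract ((k : ℝ) / (p : ℝ) ^ j) - 1 / 2)
          + Θ / 2) = ∑ p ∈ prs P, Real.log p * Int.fract ((k : ℝ) / (p : ℝ) ^ j) := by
      intro j _
      rw [hΘdef, sum_div, ← sum_add_distrib]
      apply sum_congr rfl
      intro p _
      ring
    rw [sum_congr rfl e1, sum_comm]
    apply sum_congr rfl
    intro p _
    rw [mul_sum]
  have u3 : ∑ j ∈ Icc 1 3, (Θ / 2 - 1 / 100 * (P : ℝ))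
      ≤ ∑ j ∈ Icc 1 3, (∑ p ∈ prs P, Real.log p * (Int.fract ((k : ℝ) / (p : ℝ) ^ j) - 1 / 2)
          + Θ / 2) := by
    apply sum_le_sum
    intro j hj
    have v1 := abs_le.1 (key j hj)
    linarith [v1.1]
  have u4 : ∑ p ∈ prs P, Real.log p * (1 + 2 * dens k p)
      = Θ + 2 * ∑ p ∈ prs P, Real.log p * dens k p := by
    rw [hΘdef, mul_sum, ← sum_add_distrib]
    apply sum_congr rfl
    intro p _
    ring
  have u5 : ∑ p ∈ prs P, Real.log p * dens k p ≤ Real.log (4 * P) * ∑ p ∈ prs P, dens k p := by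
    rw [mul_sum]
    apply sum_le_sum
    intro p hp
    have hpp := mem_prs.1 hp
    apply mul_le_mul_of_nonneg_right _ (dens_nonneg k p)
    apply Real.log_le_log
    · exact_mod_cast hpp.2.pos
    · exact_mod_cast hpp.1.2
  rw [sum_const] at u3
  simp at u3
  rw [div_le_iff₀ (by positivity)]
  linarith

theorem prs_cube_sum (P : ℕ) : ∑ p ∈ prs P, ((p ^ 3 : ℕ) : ℝ) ≤ (4 * (P : ℝ)) ^ 4 := by
  calc ∑ p ∈ prs P, ((p ^ 3 : ℕ) : ℝ) ≤ ∑ p ∈ prs P, (4 * (P : ℝ)) ^ 3 := by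
        apply sum_le_sum
        intro p hp
        have h := (mem_prs.1 hp).1.2
        have h' : (p : ℝ) ≤ 4 * P := by exact_mod_cast h
        push_cast
        gcongr
    _ = (#(prs P) : ℝ) * (4 * (P : ℝ)) ^ 3 := by rw [sum_const, nsmul_eq_mul]
    _ ≤ (4 * (P : ℝ)) * (4 * (P : ℝ)) ^ 3 := by
        apply mul_le_mul_of_nonneg_right _ (by positivity)
        have : #(prs P) ≤ 4 * P := by
          calc #(prs P) ≤ #(Ioc P (4 * P)) := card_filter_le _ _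
            _ = 4 * P - P := Nat.card_Ioc _ _
            _ ≤ 4 * P := Nat.sub_le _ _
        exact_mod_cast this
    _ = _ := by ring

theorem prs_disjoint {P Q : ℕ} (h : 4 * P ≤ Q) : Disjoint (prs P) (prs Q) := by
  rw [Finset.disjoint_left]
  intro p hp hq
  have h1 := (mem_prs.1 hp).1
  have h2 := (mem_prs.1 hq).1
  omega

theorem log_root_small : ∃ R₀ : ℕ, ∀ R : ℕ, R₀ ≤ R →
    5 * 4 ^ 7 * Real.log (4 * R) ≤ ((R : ℝ) + 1) ^ (1 / 14 : ℝ) := by
  have h1 : (fun x : ℝ => Real.log x) =o[atTop] fun x : ℝ => x ^ (1 / 14 : ℝ) :=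
    isLittleO_log_rpow_atTop (by norm_num)
  have h2 := h1.def (show (0 : ℝ) < 1 / (5 * 4 ^ 8) by positivity)
  obtain ⟨X, hX⟩ := eventually_atTop.1 h2
  obtain ⟨R₁, hR₁⟩ := exists_nat_ge (max X 1)
  refine ⟨R₁, ?_⟩
  intro R hR
  have hRX : max X 1 ≤ (R : ℝ) := hR₁.trans (by exact_mod_cast hR)
  have hR1 : (1 : ℝ) ≤ R := (le_max_right _ _).trans hRX
  have hRX' : X ≤ R := (le_max_left _ _).trans hRX
  have h3 := hX (4 * R) (by linarith)
  have hlog : 0 ≤ Real.log (4 * R) := Real.log_nonneg (by linarith)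
  rw [Real.norm_eq_abs, Real.norm_eq_abs, abs_of_nonneg hlog,
    abs_of_nonneg (by positivity)] at h3
  have h4 : (4 * (R : ℝ)) ^ (1 / 14 : ℝ) ≤ 4 * ((R : ℝ) + 1) ^ (1 / 14 : ℝ) := by
    rw [Real.mul_rpow (by norm_num) (by positivity)]
    have a1 : (4 : ℝ) ^ (1 / 14 : ℝ) ≤ 4 := by
      calc (4 : ℝ) ^ (1 / 14 : ℝ) ≤ (4 : ℝ) ^ (1 : ℝ) :=
            Real.rpow_le_rpow_of_exponent_le (by norm_num) (by norm_num)
        _ = 4 := Real.rpow_one 4
    have a2 : (R : ℝ) ^ (1 / 14 : ℝ) ≤ ((R : ℝ) + 1) ^ (1 / 14 : ℝ) :=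
      Real.rpow_le_rpow (by positivity) (by linarith) (by norm_num)
    gcongr
  have h5 : (0 : ℝ) ≤ ((R : ℝ) + 1) ^ (1 / 14 : ℝ) := by positivity
  calc 5 * 4 ^ 7 * Real.log (4 * R) ≤ 5 * 4 ^ 7 * (1 / (5 * 4 ^ 8) * (4 * R) ^ (1 / 14 : ℝ)) := by gcongr
    _ ≤ 5 * 4 ^ 7 * (1 / (5 * 4 ^ 8) * (4 * ((R : ℝ) + 1) ^ (1 / 14 : ℝ))) := by gcongr
    _ = ((R : ℝ) + 1) ^ (1 / 14 : ℝ) := by ring

theorem partB : ∃ (K₁ : ℕ) (C : ℝ), 0 < C ∧ ∀ k ≥ K₁, ∀ N : ℕ, k ^ 20 ≤ N →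
      (cnt N k : ℝ) ≤ C * N * (k : ℝ) ^ (-(13 / 12 : ℝ)) := by
  obtain ⟨P₀, hmu⟩ := mu_lower
  obtain ⟨R₀, hR₀⟩ := log_root_small
  refine ⟨(4 ^ 6 * (P₀ + R₀ + 4 ^ 7 + 1)) ^ 6, 2, by norm_num, ?_⟩
  intro k hk N hN
  obtain ⟨R, hR1, hR2⟩ := exists_root k
  have hRlarge : 4 ^ 6 * (P₀ + R₀ + 4 ^ 7 + 1) ≤ R := by
    by_contra hcon
    have h3 : (R + 1) ^ 6 ≤ (4 ^ 6 * (P₀ + R₀ + 4 ^ 7 + 1)) ^ 6 := Nat.pow_le_pow_left (by omega) 6
    omega
  set P := R / 4 ^ 6 with hPdef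
  have hPR : 4 ^ 6 * P ≤ R := Nat.mul_div_le R (4 ^ 6)
  have hPR2 : R + 1 ≤ 4 ^ 6 * (P + 1) := by omega
  have hPlarge : P₀ + R₀ + 4 ^ 7 + 1 ≤ P := by
    rw [hPdef, Nat.le_div_iff_mul_le (by norm_num)]
    rw [mul_comm]; exact hRlarge
  have hPR3 : R + 1 ≤ 4 ^ 7 * P := by omega
  have hk12 : k ≤ P ^ 12 := by
    refine le_trans hR2.le ?_
    calc (R + 1) ^ 6 ≤ (4 ^ 7 * P) ^ 6 := Nat.pow_le_pow_left hPR3 6
      _ ≤ (P * P) ^ 6 := Nat.pow_le_pow_left (Nat.mul_le_mul_right _ (by omega)) 6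
      _ = P ^ 12 := by ring
  have hRpos : (1 : ℝ) ≤ R := by
    have : 1 ≤ R := by omega
    exact_mod_cast this
  set G : Fin 7 → Finset ℕ := fun i => prs (4 ^ (i : ℕ) * P) with hG
  have hPi : ∀ i : Fin 7, 4 ^ (i : ℕ) * P ≤ R := by
    intro i
    refine le_trans (Nat.mul_le_mul_right _ (Nat.pow_le_pow_right (by norm_num) ?_)) hPR
    omega
  have hPi2 : ∀ i : Fin 7, P ≤ 4 ^ (i : ℕ) * P := by
    intro i
    exact Nat.le_mul_of_pos_left _ (by positivity)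
  set μ : Fin 7 → ℝ := fun i => ∑ p ∈ G i, dens k p with hμ
  have hlogR : 0 < Real.log (4 * R) := Real.log_pos (by linarith)
  have hμlow : ∀ i, ((R : ℝ) + 1) ^ (13 / 14 : ℝ) ≤ μ i := by
    intro i
    have h1 := hmu (4 ^ (i : ℕ) * P) (by have := hPi2 i; omega) k
      (le_trans (Nat.pow_le_pow_left (hPi i) 6) hR1)
      (le_trans hk12 (Nat.pow_le_pow_left (hPi2 i) 12))
    refine le_trans ?_ h1
    have hPiR : ((4 ^ (i : ℕ) * P : ℕ) : ℝ) ≤ R := by exact_mod_cast hPi i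
    have hPiP : (P : ℝ) ≤ ((4 ^ (i : ℕ) * P : ℕ) : ℝ) := by exact_mod_cast hPi2 i
    have hP1 : (1 : ℝ) ≤ P := by
      have : 1 ≤ P := by omega
      exact_mod_cast this
    have hl1 : 0 < Real.log (4 * ((4 ^ (i : ℕ) * P : ℕ) : ℝ)) := Real.log_pos (by linarith)
    have hl2 : Real.log (4 * ((4 ^ (i : ℕ) * P : ℕ) : ℝ)) ≤ Real.log (4 * R) := by
      apply Real.log_le_log (by linarith)
      linarith
    have h2 := hR₀ R (by omega)
    have h3 : ((R : ℝ) + 1) / 4 ^ 7 ≤ P := by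
      rw [div_le_iff₀ (by positivity)]
      have : ((R + 1 : ℕ) : ℝ) ≤ ((4 ^ 7 * P : ℕ) : ℝ) := by exact_mod_cast hPR3
      push_cast at this
      linarith
    have h4 : ((R : ℝ) + 1) = ((R : ℝ) + 1) ^ (13 / 14 : ℝ) * ((R : ℝ) + 1) ^ (1 / 14 : ℝ) := by
      rw [← Real.rpow_add (by positivity)]
      norm_num
    have h5 : (0 : ℝ) ≤ ((R : ℝ) + 1) ^ (13 / 14 : ℝ) := by positivity
    calc ((R : ℝ) + 1) ^ (13 / 14 : ℝ)
        ≤ P / (5 * Real.log (4 * R)) := by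
          rw [le_div_iff₀ (by positivity)]
          refine le_trans ?_ h3
          rw [le_div_iff₀ (by positivity)]
          calc ((R : ℝ) + 1) ^ (13 / 14 : ℝ) * (5 * Real.log (4 * R)) * 4 ^ 7
              = ((R : ℝ) + 1) ^ (13 / 14 : ℝ) * (5 * 4 ^ 7 * Real.log (4 * R)) := by ring
            _ ≤ ((R : ℝ) + 1) ^ (13 / 14 : ℝ) * ((R : ℝ) + 1) ^ (1 / 14 : ℝ) := by gcongr
            _ = (R : ℝ) + 1 := h4.symm
      _ ≤ ((4 ^ (i : ℕ) * P : ℕ) : ℝ) / (5 * Real.log (4 * ((4 ^ (i : ℕ) * P : ℕ) : ℝ))) := by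
          gcongr
  have hμone : ∀ i, 1 ≤ μ i := by
    intro i
    refine le_trans ?_ (hμlow i)
    apply Real.one_le_rpow (by linarith) (by norm_num)
  -- the product of the means
  have hprod : (k : ℝ) ^ (13 / 12 : ℝ) ≤ ∏ i, μ i := by
    calc (k : ℝ) ^ (13 / 12 : ℝ) ≤ (((R : ℝ) + 1) ^ 6) ^ (13 / 12 : ℝ) := by
          apply Real.rpow_le_rpow (by positivity) _ (by norm_num)
          exact_mod_cast hR2.le
      _ = ((R : ℝ) + 1) ^ (13 / 2 : ℝ) := by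
          rw [← Real.rpow_natCast, ← Real.rpow_mul (by positivity)]
          norm_num
      _ = ∏ i : Fin 7, ((R : ℝ) + 1) ^ (13 / 14 : ℝ) := by
          rw [prod_const, card_univ, Fintype.card_fin, ← Real.rpow_natCast,
            ← Real.rpow_mul (by positivity)]
          norm_num
      _ ≤ ∏ i, μ i := by
          apply Finset.prod_le_prod
          · intro i _; positivity
          · intro i _; exact hμlow i
  have hkpos : (0 : ℝ) < k := by
    have : 0 < k := by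
      by_contra h
      have : k = 0 := by omega
      subst this
      simp at hk
    exact_mod_cast this
  have hkr : 0 < (k : ℝ) ^ (13 / 12 : ℝ) := by positivity
  have hMpos : 0 < ∏ i, μ i := lt_of_lt_of_le hkr hprod
  have hM1 : 1 ≤ ∏ i, μ i := by
    calc (1 : ℝ) = ∏ i : Fin 7, (1 : ℝ) := by simp
      _ ≤ ∏ i, μ i := Finset.prod_le_prod (fun i _ => by norm_num) (fun i _ => hμone i)
  -- variance
  have hvar := variance G (fk k) (dens k) (fun p => p ^ 3)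
    (fun i p hp => pow_pos (mem_prs.1 hp).2.pos 3)
    (fun i p _ => fk_periodic k p)
    (fun i p hp => fk_sum (mem_prs.1 hp).2.pos)
    (fun i p _ n => fk_abs k p n)
    (fun i p _ => dens_nonneg k p)
    (fun i p hp => fk_sq (mem_prs.1 hp).2.pos)
    (fun i j p hp q hq hpq => Nat.Coprime.pow 3 3
      ((Nat.coprime_primes (mem_prs.1 hp).2 (mem_prs.1 hq).2).2 hpq))
    (by
      intro i j hij
      rcases lt_or_gt_of_ne hij with h | h
      · apply prs_disjoint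
        have : 4 * 4 ^ (i : ℕ) ≤ 4 ^ (j : ℕ) := by
          rw [← pow_succ']
          exact Nat.pow_le_pow_right (by norm_num) h
        calc 4 * (4 ^ (i : ℕ) * P) = (4 * 4 ^ (i : ℕ)) * P := by ring
          _ ≤ _ := Nat.mul_le_mul_right _ this
      · apply Disjoint.symm
        apply prs_disjoint
        have : 4 * 4 ^ (j : ℕ) ≤ 4 ^ (i : ℕ) := by
          rw [← pow_succ']
          exact Nat.pow_le_pow_right (by norm_num) h
        calc 4 * (4 ^ (j : ℕ) * P) = (4 * 4 ^ (j : ℕ)) * P := by ring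
          _ ≤ _ := Nat.mul_le_mul_right _ this) N
  -- the error term
  have herr : ∏ i : Fin 7, (∑ p ∈ G i, (((fun p : ℕ => p ^ 3) p : ℕ) : ℝ)) ^ 2 ≤ N := by
    calc ∏ i : Fin 7, (∑ p ∈ G i, (((fun p : ℕ => p ^ 3) p : ℕ) : ℝ)) ^ 2
        ≤ ∏ i : Fin 7, ((4 * (R : ℝ)) ^ 4) ^ 2 := by
          apply Finset.prod_le_prod
          · intro i _; positivity
          · intro i _
            have h1 := prs_cube_sum (4 ^ (i : ℕ) * P)
            have hPiR : ((4 ^ (i : ℕ) * P : ℕ) : ℝ) ≤ R := by exact_mod_cast hPi i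
            have h2 : (4 * ((4 ^ (i : ℕ) * P : ℕ) : ℝ)) ^ 4 ≤ (4 * (R : ℝ)) ^ 4 := by gcongr
            have h3 : (0 : ℝ) ≤ ∑ p ∈ G i, (((fun p : ℕ => p ^ 3) p : ℕ) : ℝ) := by positivity
            exact pow_le_pow_left₀ h3 (h1.trans h2) 2
      _ = (4 * (R : ℝ)) ^ 56 := by
          rw [prod_const, card_univ, Fintype.card_fin]; ring
      _ ≤ ((R : ℝ) * R) ^ 56 := by
          have : (4 : ℝ) ≤ R := by
            have : 4 ≤ R := by omega
            exact_mod_cast this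
          gcongr
      _ = (R : ℝ) ^ 112 := by ring
      _ ≤ (R : ℝ) ^ 120 := pow_le_pow_right₀ hRpos (by norm_num)
      _ = ((R : ℝ) ^ 6) ^ 20 := by ring
      _ ≤ (k : ℝ) ^ 20 := by
          have : ((R ^ 6 : ℕ) : ℝ) ≤ k := by exact_mod_cast hR1
          push_cast at this
          gcongr
      _ ≤ N := by exact_mod_cast hN
  -- lower bound for the left side
  have hlow : (cnt N k : ℝ) * (∏ i, μ i) ^ 2 ≤ ∑ n ∈ range N, ∏ i, (∑ p ∈ G i, fk k p n) ^ 2 := by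
    classical
    unfold cnt
    rw [card_filter]
    push_cast
    rw [sum_mul]
    apply sum_le_sum
    intro n _
    split_ifs with h
    · rw [one_mul, ← prod_pow]
      apply le_of_eq
      apply prod_congr rfl
      intro i _
      have : ∑ p ∈ G i, fk k p n = - μ i := by
        rw [hμ]
        simp only
        rw [← sum_neg_distrib]
        apply sum_congr rfl
        intro p hp
        unfold fk
        have hnc : ¬ 2 ≤ carries k p n := fun hc =>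
          not_squarefree_of_carries (mem_prs.1 hp).2 (by omega) hc h.2
        rw [if_neg hnc]
        ring
      rw [this]
      ring
    · rw [zero_mul]
      positivity
  have hfin : (cnt N k : ℝ) * (∏ i, μ i) ^ 2 ≤ N * ∏ i, μ i + N := hlow.trans (hvar.trans (by
    gcongr))
  have hN0 : (0 : ℝ) ≤ N := Nat.cast_nonneg _
  have h6 : (cnt N k : ℝ) * (∏ i, μ i) ≤ 2 * N := by
    have h7 : (cnt N k : ℝ) * (∏ i, μ i) * (∏ i, μ i) ≤ (2 * N) * (∏ i, μ i) := by nlinarith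
    exact le_of_mul_le_mul_right h7 hMpos
  have h8 : (cnt N k : ℝ) * (k : ℝ) ^ (13 / 12 : ℝ) ≤ 2 * N :=
    le_trans (mul_le_mul_of_nonneg_left hprod (Nat.cast_nonneg _)) h6
  rw [Real.rpow_neg hkpos.le, ← div_eq_mul_inv, le_div_iff₀ hkr]
  exact h8

end Pool.Agent.H24.Sqf
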